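import Pool.Agent.Work.MP_8826fd_mp.L1.Stmts
import Pool.Agent.Work.MP_8826fd_mp.RT.I_Dir

/-!
# MP_8826fd_mp, block L1, item Apx (helper57): projection to the functions with compact support
-/

set_option autoImplicit false

namespace Pool.Agent.MFK.L1

open MeasureTheory Set Filter Topology Pool.Agent.MFK.NF Pool.Agent.MFK.CD

namespace IApx

/-- partial sums -/
noncomputable def pM (b : ℕ → ℂ) (M : ℕ) : Polynomial ℂ :=
  ∑ n ∈ Finset.range (M + 1), Polynomial.C (b n) * Polynomial.X ^ n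

lemma ev (b : ℕ → ℂ) (M : ℕ) (w : ℂ) : (pM b M).eval w = ∑ n ∈ Finset.range (M + 1), b n * w ^ n := by
  simp [pM, Polynomial.eval_finsetSum]

lemma dv (b : ℕ → ℂ) (M : ℕ) (w : ℂ) :
    (pM b M).derivative.eval w = ∑ n ∈ Finset.range (M + 1), (n : ℂ) * b n * w ^ (n - 1) := by
  simp only [pM, Polynomial.derivative_sum, Polynomial.eval_finsetSum]
  refine Finset.sum_congr rfl fun n _ => ?_
  rw [Polynomial.derivative_C_mul_X_pow]
  simp only [Polynomial.eval_mul, Polynomial.eval_C, Polynomial.eval_pow, Polynomial.eval_X]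
  ring

lemma wdv (b : ℕ → ℂ) (M : ℕ) (w : ℂ) :
    w * (pM b M).derivative.eval w = ∑ n ∈ Finset.range (M + 1), (n : ℂ) * b n * w ^ n := by
  rw [dv, Finset.mul_sum]
  refine Finset.sum_congr rfl fun n _ => ?_
  rcases n with _ | n
  · simp
  · rw [Nat.add_sub_cancel, pow_succ]
    ring

/-- `∫_D |p'|²` as a lower integral -/
lemma NN_lint (p : Polynomial ℂ) :
    (∫⁻ w in Metric.ball (0 : ℂ) 1, ENNReal.ofReal (‖p.derivative.eval w‖ ^ 2)) = ENNReal.ofReal (NN p) := by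
  unfold NN
  have hc : Continuous (fun w : ℂ => ‖p.derivative.eval w‖ ^ 2) := (p.derivative.continuous.norm).pow 2
  have hi : IntegrableOn (fun w : ℂ => ‖p.derivative.eval w‖ ^ 2) (Metric.ball (0 : ℂ) 1) :=
    (hc.continuousOn.integrableOn_compact (isCompact_closedBall (0 : ℂ) 1)).mono_set Metric.ball_subset_closedBall
  rw [ofReal_integral_eq_lintegral_ofReal hi (ae_of_all _ fun w => sq_nonneg _)]

lemma NN_nonneg (p : Polynomial ℂ) : 0 ≤ NN p := integral_nonneg fun _ => sq_nonneg _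

lemma NN_pM (b : ℕ → ℂ) (M : ℕ) :
    NN (pM b M) = Real.pi * ∑ n ∈ Finset.range (M + 1), (n : ℝ) * ‖b n‖ ^ 2 := by
  set a : ℕ → ℂ := fun j => if j ∈ Finset.range (M + 1) then b j else 0 with ha
  have hH : Hol (fun w => (pM b M).eval w) a := by
    refine ⟨(pM b M).differentiable.differentiableOn, fun w _ => ?_⟩
    rw [ev]
    have h1 : (∑ n ∈ Finset.range (M + 1), b n * w ^ n) = ∑ n ∈ Finset.range (M + 1), a n * w ^ n := by
      refine Finset.sum_congr rfl fun n hn => ?_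
      rw [ha]
      simp only
      rw [if_pos hn]
    rw [h1]
    refine hasSum_sum_of_ne_finset_zero fun n hn => ?_
    rw [ha]
    simp only
    rw [if_neg hn, zero_mul]
  have hz : ∀ n ∉ Finset.range (M + 1), (n : ℝ) * ‖a n‖ ^ 2 = 0 := by
    intro n hn
    rw [ha]
    simp only
    rw [if_neg hn]
    simp
  have hs : Summable (fun n : ℕ => (n : ℝ) * ‖a n‖ ^ 2) := summable_of_ne_finset_zero hz
  have hl := RT.IDir.lint hH hs
  have hA : RT.Ar a = ∑ n ∈ Finset.range (M + 1), (n : ℝ) * ‖b n‖ ^ 2 := by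
    rw [RT.Ar, tsum_eq_sum hz]
    refine Finset.sum_congr rfl fun n hn => ?_
    rw [ha]
    simp only
    rw [if_pos hn]
  have hd : ∀ w : ℂ, deriv (fun w => (pM b M).eval w) w = (pM b M).derivative.eval w :=
    fun w => ((pM b M).hasDerivAt w).deriv
  simp only [hd] at hl
  rw [NN_lint, hA] at hl
  have h0 : 0 ≤ Real.pi * ∑ n ∈ Finset.range (M + 1), (n : ℝ) * ‖b n‖ ^ 2 :=
    mul_nonneg Real.pi_pos.le (Finset.sum_nonneg fun n _ => by positivity)
  have h1 := congrArg ENNReal.toReal hl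
  rwa [ENNReal.toReal_ofReal (NN_nonneg _), ENNReal.toReal_ofReal h0] at h1

/-- the pairing with the partial sums -/
lemma bal (hg : StGrn) {U₁ : ℂ → ℝ} {R' : ℝ} (hR : 1 < R') (hU : ContDiffOn ℝ 2 U₁ (Metric.ball 0 R')) {b : ℕ → ℂ}
    (hb : ∀ n : ℕ, 1 ≤ n → (∫ θ in (0 : ℝ)..(2 * Real.pi), (U₁ (pc 1 θ) : ℂ) * pc 1 θ ^ n) =
      Real.pi * (starRingEnd ℂ) (b n)) (M : ℕ) :
    (∫ w in Metric.ball (0 : ℂ) 1, fderiv ℝ U₁ w ((starRingEnd ℂ) ((pM b M).derivative.eval w))) = NN (pM b M) := by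
  rw [hg U₁ R' (pM b M) hR hU, NN_pM]
  have hcont : Continuous (fun θ : ℝ => U₁ (pc 1 θ)) := by
    have h1 : ContinuousOn U₁ (Metric.ball 0 R') := hU.continuousOn
    refine h1.comp_continuous (IArea.cont_pc 1) fun θ => ?_
    rw [mem_ball_zero_iff, IArea.norm_pc zero_le_one]
    exact hR
  have e1 : ∀ θ : ℝ, U₁ (pc 1 θ) * (pc 1 θ * (pM b M).derivative.eval (pc 1 θ)).re =
      Complex.reCLM (∑ n ∈ Finset.range (M + 1), (n : ℂ) * b n * ((U₁ (pc 1 θ) : ℂ) * pc 1 θ ^ n)) := by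
    intro θ
    rw [wdv]
    have e2 : (∑ n ∈ Finset.range (M + 1), (n : ℂ) * b n * ((U₁ (pc 1 θ) : ℂ) * pc 1 θ ^ n)) =
        (U₁ (pc 1 θ) : ℂ) * ∑ n ∈ Finset.range (M + 1), (n : ℂ) * b n * pc 1 θ ^ n := by
      rw [Finset.mul_sum]
      exact Finset.sum_congr rfl fun n _ => by ring
    rw [e2, Complex.reCLM_apply, Complex.re_ofReal_mul]
  have hci : ∀ n : ℕ, Continuous (fun θ : ℝ => (n : ℂ) * b n * ((U₁ (pc 1 θ) : ℂ) * pc 1 θ ^ n)) := fun n =>
    continuous_const.mul ((Complex.continuous_ofReal.comp hcont).mul ((IArea.cont_pc 1).pow n))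
  have hii : ∀ n ∈ Finset.range (M + 1), IntervalIntegrable
      (fun θ : ℝ => (n : ℂ) * b n * ((U₁ (pc 1 θ) : ℂ) * pc 1 θ ^ n)) volume 0 (2 * Real.pi) :=
    fun n _ => (hci n).intervalIntegrable _ _
  simp only [e1]
  rw [Complex.reCLM.intervalIntegral_comp_comm
    ((continuous_finsetSum _ fun n _ => hci n).intervalIntegrable _ _),
    intervalIntegral.integral_finsetSum hii, map_sum, Finset.mul_sum]
  refine Finset.sum_congr rfl fun n _ => ?_
  rw [intervalIntegral.integral_const_mul]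
  rcases Nat.eq_zero_or_pos n with rfl | hn
  · simp
  · rw [hb n hn]
    have e3 : (n : ℂ) * b n * ((Real.pi : ℂ) * (starRingEnd ℂ) (b n)) = ((Real.pi * (n * ‖b n‖ ^ 2) : ℝ) : ℂ) := by
      have h2 : b n * (starRingEnd ℂ) (b n) = ((‖b n‖ ^ 2 : ℝ) : ℂ) := by
        rw [Complex.mul_conj, Complex.normSq_eq_norm_sq]
      rw [Complex.ofReal_mul, Complex.ofReal_mul, ← h2]
      push_cast
      ring
    rw [e3, Complex.reCLM_apply, Complex.ofReal_re]

lemma NN_le {η : ℝ} {p : Polynomial ℂ} (h : NN p ≤ η * Real.sqrt (NN p)) : NN p ≤ η ^ 2 := by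
  have h1 := NN_nonneg p
  have h2 := Real.sq_sqrt h1
  have h3 := Real.sqrt_nonneg (NN p)
  rcases h3.eq_or_lt with h4 | h4
  · rw [← h2, ← h4]
    nlinarith
  · have h5 : Real.sqrt (NN p) ≤ η := by
      by_contra h6
      push Not at h6
      nlinarith
    rw [← h2]
    exact pow_le_pow_left₀ h3 h5 2

/-- the real part of a complex linear form -/
noncomputable def Dp (c : ℂ) : ℂ →L[ℝ] ℝ := Complex.reCLM.comp (c • (1 : ℂ →L[ℝ] ℂ))

lemma Dp_apply (c h : ℂ) : Dp c h = (c * h).re := by simp [Dp]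

lemma Dp_norm (c : ℂ) : ‖Dp c‖ ≤ ‖c‖ := by
  refine ContinuousLinearMap.opNorm_le_bound _ (norm_nonneg _) fun h => ?_
  rw [Dp_apply, ← norm_mul]
  exact Complex.abs_re_le_norm _

lemma hasp (p : Polynomial ℂ) (w : ℂ) : HasFDerivAt (fun w => (p.eval w).re) (Dp (p.derivative.eval w)) w :=
  Complex.reCLM.hasFDerivAt.comp w (p.hasDerivAt w).complexToReal_fderiv

/-- the cut-off function -/
noncomputable def chi (e : ℝ) (w : ℂ) : ℝ := Real.smoothTransition ((1 - e - ‖w‖ ^ 2) / e)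

lemma chi_cd (e : ℝ) : ContDiff ℝ 1 (chi e) := by
  unfold chi
  exact Real.smoothTransition.contDiff.comp ((contDiff_const.sub (contDiff_norm_sq ℝ)).div_const _)

lemma chi_one {e : ℝ} (he : 0 < e) {w : ℂ} (hw : ‖w‖ ^ 2 ≤ 1 - 2 * e) : chi e w = 1 := by
  unfold chi
  refine Real.smoothTransition.one_of_one_le ?_
  rw [le_div_iff₀ he]
  linarith

lemma chi_zero {e : ℝ} (he : 0 < e) {w : ℂ} (hw : 1 - e ≤ ‖w‖ ^ 2) : chi e w = 0 := by
  unfold chi
  refine Real.smoothTransition.zero_of_nonpos ?_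
  exact div_nonpos_of_nonpos_of_nonneg (by linarith) he.le

lemma chi_nonneg (e : ℝ) (w : ℂ) : 0 ≤ chi e w := Real.smoothTransition.nonneg _
lemma chi_le_one (e : ℝ) (w : ℂ) : chi e w ≤ 1 := Real.smoothTransition.le_one _

lemma st_bound : ∃ C : ℝ, 0 < C ∧ ∀ x, |deriv Real.smoothTransition x| ≤ C := by
  have hsm : ContDiff ℝ 1 Real.smoothTransition := Real.smoothTransition.contDiff
  have hc : Continuous (deriv Real.smoothTransition) := hsm.continuous_deriv le_rfl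
  obtain ⟨C, hC⟩ := (isCompact_Icc (a := (-1 : ℝ)) (b := 2)).exists_bound_of_continuousOn
    hc.continuousOn
  refine ⟨max C 1, by positivity, fun x => ?_⟩
  by_cases hx : x ∈ Set.Icc (-1 : ℝ) 2
  · exact (hC x hx).trans (le_max_left _ _)
  · have : deriv Real.smoothTransition x = 0 := by
      rw [Set.mem_Icc, not_and_or, not_le, not_le] at hx
      rcases hx with hx | hx
      · have : Real.smoothTransition =ᶠ[𝓝 x] fun _ => 0 := by
          filter_upwards [gt_mem_nhds (show x < 0 by linarith)] with y hy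
          exact Real.smoothTransition.zero_of_nonpos hy.le
        rw [this.deriv_eq, deriv_const]
      · have : Real.smoothTransition =ᶠ[𝓝 x] fun _ => 1 := by
          filter_upwards [lt_mem_nhds (show (1 : ℝ) < x by linarith)] with y hy
          exact Real.smoothTransition.one_of_one_le hy.le
        rw [this.deriv_eq, deriv_const]
    rw [this, abs_zero]
    positivity

lemma chi_has {e : ℝ} (w : ℂ) : HasFDerivAt (chi e)
    (deriv Real.smoothTransition ((1 - e - ‖w‖ ^ 2) / e) • (e⁻¹ • (-((2 : ℕ) • (innerSL ℝ w : ℂ →L[ℝ] ℝ))))) w := by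
  have h1 : HasFDerivAt (fun w : ℂ => ‖w‖ ^ 2) ((2 : ℕ) • (innerSL ℝ w : ℂ →L[ℝ] ℝ)) w :=
    (hasStrictFDerivAt_norm_sq w).hasFDerivAt
  have h2 : HasFDerivAt (fun w : ℂ => (1 - e - ‖w‖ ^ 2) / e)
      (e⁻¹ • (-((2 : ℕ) • (innerSL ℝ w : ℂ →L[ℝ] ℝ)))) w := by
    have h3 := (h1.const_sub (1 - e)).const_mul e⁻¹
    refine h3.congr_of_eventuallyEq (Eventually.of_forall fun z => ?_)
    show (1 - e - ‖z‖ ^ 2) / e = e⁻¹ * (1 - e - ‖z‖ ^ 2)
    rw [div_eq_inv_mul]
  have h4 : HasDerivAt Real.smoothTransition (deriv Real.smoothTransition ((1 - e - ‖w‖ ^ 2) / e))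
      ((1 - e - ‖w‖ ^ 2) / e) := by
    have hsm : ContDiff ℝ 1 Real.smoothTransition := Real.smoothTransition.contDiff
    exact (hsm.differentiable one_ne_zero _).hasDerivAt
  exact h4.comp_hasFDerivAt w h2

lemma chi_fd {C e : ℝ} (hC : ∀ x, |deriv Real.smoothTransition x| ≤ C) (he : 0 < e) {w : ℂ} (hw : ‖w‖ ≤ 1) :
    ‖fderiv ℝ (chi e) w‖ ≤ 2 * C / e := by
  rw [(chi_has w).fderiv, norm_smul, norm_smul, norm_neg, Real.norm_eq_abs, norm_inv, Real.norm_eq_abs, abs_of_pos he]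
  have h1 : ‖(2 : ℕ) • (innerSL ℝ w : ℂ →L[ℝ] ℝ)‖ ≤ 2 := by
    rw [← Nat.cast_smul_eq_nsmul ℝ, norm_smul, innerSL_apply_norm]
    simp
    exact hw
  have h2 := hC ((1 - e - ‖w‖ ^ 2) / e)
  have h3 : 0 ≤ C := (abs_nonneg _).trans h2
  calc |deriv Real.smoothTransition ((1 - e - ‖w‖ ^ 2) / e)| * (e⁻¹ * ‖(2 : ℕ) • (innerSL ℝ w : ℂ →L[ℝ] ℝ)‖)
      ≤ C * (e⁻¹ * 2) := by gcongr
    _ = 2 * C / e := by field_simp

lemma summ {b : ℕ → ℂ} (hb : Summable (fun n : ℕ => (n : ℝ) * ‖b n‖)) : Summable (fun n => ‖b n‖) := by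
  have h0 : Summable (fun n : ℕ => if n = 0 then ‖b 0‖ else 0) :=
    summable_of_ne_finset_zero (s := {0}) fun n hn => by
      rw [Finset.mem_singleton] at hn
      rw [if_neg hn]
  refine Summable.of_nonneg_of_le (fun n => norm_nonneg _) (fun n => ?_) (hb.add h0)
  rcases Nat.eq_zero_or_pos n with rfl | hn
  · simp
  · rw [if_neg (by omega), add_zero]
    have h1 : (1 : ℝ) ≤ n := by exact_mod_cast hn
    exact le_mul_of_one_le_left (norm_nonneg _) h1

lemma edge {U₁ : ℂ → ℝ} {b : ℕ → ℂ} (hb : Summable (fun n => ‖b n‖)) {θ : ℝ}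
    (hs : HasSum (fun n : ℕ => (b n * pc 1 θ ^ n).re) (U₁ (pc 1 θ))) (M : ℕ) :
    |U₁ (pc 1 θ) - ((pM b M).eval (pc 1 θ)).re| ≤ ∑' n, ‖b (n + (M + 1))‖ := by
  have h := (hasSum_nat_add_iff' (M + 1)).2 hs
  have h1 : ((pM b M).eval (pc 1 θ)).re = ∑ i ∈ Finset.range (M + 1), (b i * pc 1 θ ^ i).re := by
    rw [ev, Complex.re_sum]
  rw [h1, ← h.tsum_eq, ← Real.norm_eq_abs]
  refine tsum_of_norm_bounded (((summable_nat_add_iff (M + 1)).2 hb).hasSum) fun n => ?_
  rw [Real.norm_eq_abs]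
  refine (Complex.abs_re_le_norm _).trans ?_
  rw [norm_mul, norm_pow, IArea.norm_pc zero_le_one, one_pow, mul_one]

lemma gradb {U₁ : ℂ → ℝ} {R' : ℝ} (hR : 1 < R') (hU : ContDiffOn ℝ 2 U₁ (Metric.ball 0 R')) {b : ℕ → ℂ}
    (hb : Summable (fun n : ℕ => (n : ℝ) * ‖b n‖)) :
    ∃ L : ℝ, 0 ≤ L ∧ ∀ M : ℕ, ∀ w : ℂ, ‖w‖ ≤ 1 →
      ‖fderiv ℝ U₁ w - Dp ((pM b M).derivative.eval w)‖ ≤ L := by
  have hc : ContinuousOn (fderiv ℝ U₁) (Metric.closedBall 0 1) :=
    (hU.continuousOn_fderiv_of_isOpen Metric.isOpen_ball (by norm_num)).mono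
      (Metric.closedBall_subset_ball hR)
  obtain ⟨L0, hL0⟩ := (isCompact_closedBall (0 : ℂ) 1).exists_bound_of_continuousOn hc
  have hS : 0 ≤ ∑' n : ℕ, (n : ℝ) * ‖b n‖ := tsum_nonneg fun n => by positivity
  refine ⟨max L0 0 + ∑' n : ℕ, (n : ℝ) * ‖b n‖, by positivity, fun M w hw => ?_⟩
  refine (norm_sub_le _ _).trans (add_le_add ?_ ?_)
  · exact (hL0 w (mem_closedBall_zero_iff.2 hw)).trans (le_max_left _ _)
  · refine (Dp_norm _).trans ?_
    rw [dv]
    refine (norm_sum_le _ _).trans ?_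
    refine le_trans (Finset.sum_le_sum fun n _ => ?_) (hb.sum_le_tsum (Finset.range (M + 1)) fun n _ => by positivity)
    rw [norm_mul, norm_mul, norm_pow, Complex.norm_natCast]
    exact mul_le_of_le_one_right (by positivity) (pow_le_one₀ (norm_nonneg w) hw)

/-- values of `q = U₁ - Re p` near the circle -/
lemma near {q : ℂ → ℝ} {q' : ℂ → ℂ →L[ℝ] ℝ} {L δ : ℝ} (hL : 0 ≤ L) (hq : ∀ w : ℂ, ‖w‖ ≤ 1 → HasFDerivAt q (q' w) w)
    (hb : ∀ w : ℂ, ‖w‖ ≤ 1 → ‖q' w‖ ≤ L) (he : ∀ θ : ℝ, |q (pc 1 θ)| ≤ δ) {w : ℂ} (hw : ‖w‖ ≤ 1) :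
    |q w| ≤ δ + L * (1 - ‖w‖ ^ 2) := by
  set w0 := pc 1 (Complex.arg w) with hw0
  have h0 : (‖w‖ : ℂ) * w0 = w := by
    have h1 := Complex.norm_mul_exp_arg_mul_I w
    rw [hw0, pc, Complex.ofReal_one, one_mul, mul_comm Complex.I]
    exact h1
  have hn0 : ‖w0‖ = 1 := IArea.norm_pc zero_le_one _
  have h1 : ‖w - w0‖ ≤ 1 - ‖w‖ ^ 2 := by
    have h2 : w - w0 = ((‖w‖ - 1 : ℝ) : ℂ) * w0 := by
      rw [Complex.ofReal_sub, Complex.ofReal_one, sub_mul, h0, one_mul]
    rw [h2, norm_mul, hn0, mul_one, Complex.norm_real, Real.norm_eq_abs, abs_sub_comm, abs_of_nonneg (by linarith)]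
    nlinarith [norm_nonneg w]
  have h3 := (convex_closedBall (0 : ℂ) 1).norm_image_sub_le_of_norm_hasFDerivWithin_le (f := q) (f' := q') (C := L)
    (fun x hx => (hq x (mem_closedBall_zero_iff.1 hx)).hasFDerivWithinAt) (fun x hx => hb x (mem_closedBall_zero_iff.1 hx))
    (mem_closedBall_zero_iff.2 hn0.le) (mem_closedBall_zero_iff.2 hw)
  have h4 := he (Complex.arg w)
  rw [← hw0] at h4
  rw [Real.norm_eq_abs] at h3
  have h5 : |q w| ≤ |q w0| + |q w - q w0| := by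
    have := abs_add_le (q w0) (q w - q w0)
    rwa [add_sub_cancel] at this
  have h6 : L * ‖w - w0‖ ≤ L * (1 - ‖w‖ ^ 2) := mul_le_mul_of_nonneg_left h1 hL
  linarith

lemma volA {e : ℝ} (he : 0 < e) (he2 : e ≤ 1 / 4) :
    volume (Metric.ball (0 : ℂ) 1 \ Metric.ball (0 : ℂ) (Real.sqrt (1 - 2 * e))) ≤ ENNReal.ofReal (2 * Real.pi * e) := by
  have hr0 : 0 ≤ 1 - 2 * e := by linarith
  have hr1 : Real.sqrt (1 - 2 * e) ≤ 1 := Real.sqrt_le_one.2 (by linarith)
  rw [measure_sdiff (Metric.ball_subset_ball hr1) Metric.isOpen_ball.measurableSet.nullMeasurableSet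
    (measure_ball_lt_top).ne, Complex.volume_ball, Complex.volume_ball]
  have e1 : ENNReal.ofReal (Real.sqrt (1 - 2 * e)) ^ 2 = ENNReal.ofReal (1 - 2 * e) := by
    rw [← ENNReal.ofReal_pow (Real.sqrt_nonneg _), Real.sq_sqrt hr0]
  have e2 : ((NNReal.pi : NNReal) : ENNReal) = ENNReal.ofReal Real.pi := by
    rw [ENNReal.ofReal, ← NNReal.coe_real_pi, Real.toNNReal_coe]
  rw [e1, e2, ENNReal.ofReal_one, one_pow, one_mul, ← ENNReal.ofReal_mul hr0,
    ← ENNReal.ofReal_sub _ (mul_nonneg hr0 Real.pi_pos.le)]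
  refine ENNReal.ofReal_le_ofReal (le_of_eq (by ring))

/-- elementary inequality -/
lemma ptw {t x y : ℝ} (ht : 0 < t) : (x + y) ^ 2 ≤ (1 + t) * x ^ 2 + (1 + 1 / t) * y ^ 2 := by
  have h : (1 + t) * x ^ 2 + (1 + 1 / t) * y ^ 2 - (x + y) ^ 2 = (t * x - y) ^ 2 / t := by
    field_simp
    ring
  have h2 : 0 ≤ (t * x - y) ^ 2 / t := by positivity
  linarith

lemma lin2 {ℓ : ℂ →L[ℝ] ℝ} {K : ℝ} (h : ‖ℓ‖ ≤ K) : ℓ 1 ^ 2 + ℓ Complex.I ^ 2 ≤ 2 * K ^ 2 := by
  have h1 : |ℓ 1| ≤ K := by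
    have := ℓ.le_opNorm 1
    rw [norm_one, mul_one, Real.norm_eq_abs] at this
    exact this.trans h
  have h2 : |ℓ Complex.I| ≤ K := by
    have := ℓ.le_opNorm Complex.I
    rw [Complex.norm_I, mul_one, Real.norm_eq_abs] at this
    exact this.trans h
  have h3 : ℓ 1 ^ 2 ≤ K ^ 2 := by
    rw [← sq_abs]
    exact pow_le_pow_left₀ (abs_nonneg _) h1 2
  have h4 : ℓ Complex.I ^ 2 ≤ K ^ 2 := by
    rw [← sq_abs]
    exact pow_le_pow_left₀ (abs_nonneg _) h2 2
  linarith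

/-- the square of the norm of the gradient of a sum -/
lemma gsum {t K : ℝ} (ht : 0 < t) {H : ℂ → ℝ} {w c : ℂ} {ℓ : ℂ →L[ℝ] ℝ} (hH : HasFDerivAt H (Dp c + ℓ) w)
    (h : ‖ℓ‖ ≤ K) : gsq H w ≤ (1 + t) * ‖c‖ ^ 2 + (1 + 1 / t) * (2 * K ^ 2) := by
  unfold gsq
  rw [hH.fderiv]
  show (Dp c 1 + ℓ 1) ^ 2 + (Dp c Complex.I + ℓ Complex.I) ^ 2 ≤ _
  have h1 := ptw (x := Dp c 1) (y := ℓ 1) ht
  have h2 := ptw (x := Dp c Complex.I) (y := ℓ Complex.I) ht
  have h3 := lin2 h
  have h4 : Dp c 1 ^ 2 + Dp c Complex.I ^ 2 = ‖c‖ ^ 2 := by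
    rw [Dp_apply, Dp_apply, ← Complex.normSq_eq_norm_sq, Complex.normSq_apply]
    simp
    ring
  have h5 : 0 < 1 + 1 / t := by positivity
  have h6 := mul_le_mul_of_nonneg_left h3 h5.le
  rw [← h4]
  nlinarith

end IApx

open IApx in
theorem pr_Apx (h1 : StGrn) (h2 : StFou) : StApx := by
  intro U₁ R' η hR hη hU hp δ hδ
  obtain ⟨b, hb1, hb2, hb3⟩ := h2 U₁ R' hR hU
  have hNN : ∀ M, NN (pM b M) ≤ η ^ 2 := fun M => NN_le (by
    have h3 := hp (pM b M)
    rwa [bal h1 hR hU hb3] at h3)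
  obtain ⟨L, hL0, hL⟩ := gradb hR hU hb1
  obtain ⟨C, hC0, hC⟩ := st_bound
  set t := δ / (η + 1) with ht
  have ht0 : 0 < t := by positivity
  set K := L * (1 + 4 * C) + 1 with hK
  have hK1 : 1 ≤ K := by
    have : 0 ≤ L * (1 + 4 * C) := by positivity
    linarith
  set Q := (1 + 1 / t) * (2 * K ^ 2) with hQ
  have hQ0 : 0 < Q := by positivity
  set e := min (1 / 4) (δ ^ 2 / (2 * Real.pi * Q)) with he
  have hpi := Real.pi_pos
  have he0 : 0 < e := by
    rw [he]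
    exact lt_min (by norm_num) (by positivity)
  have he1 : e ≤ 1 / 4 := min_le_left _ _
  have he2 : Q * (2 * Real.pi * e) ≤ δ ^ 2 := by
    have h3 : e ≤ δ ^ 2 / (2 * Real.pi * Q) := min_le_right _ _
    rw [le_div_iff₀ (by positivity)] at h3
    linarith
  have htl := tendsto_sum_nat_add (fun n => ‖b n‖)
  obtain ⟨M0, hM0⟩ := (htl.eventually (gt_mem_nhds (show (0 : ℝ) < e / (2 * C) by positivity))).exists_forall_of_atTop
  have hM := hM0 (M0 + 1) (by omega)
  set p := pM b M0 with hpdef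
  set q : ℂ → ℝ := fun w => U₁ w - (p.eval w).re with hq
  have hUd : ∀ w : ℂ, ‖w‖ ≤ 1 → HasFDerivAt U₁ (fderiv ℝ U₁ w) w := by
    intro w hw
    have hw' : w ∈ Metric.ball (0 : ℂ) R' := mem_ball_zero_iff.2 (lt_of_le_of_lt hw hR)
    exact ((hU.differentiableOn (by norm_num)).differentiableAt (Metric.isOpen_ball.mem_nhds hw')).hasFDerivAt
  have hqd : ∀ w : ℂ, ‖w‖ ≤ 1 → HasFDerivAt q (fderiv ℝ U₁ w - Dp (p.derivative.eval w)) w :=
    fun w hw => (hUd w hw).sub (hasp p w)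
  have hedge : ∀ θ : ℝ, |q (pc 1 θ)| ≤ e / (2 * C) := fun θ => (edge (summ hb1) (hb2 θ) M0).trans hM.le
  set P : ℂ → ℝ := fun w => chi e w * q w with hP
  have hqc : ContDiffOn ℝ 1 q (Metric.ball 0 R') := by
    refine (hU.of_le (by norm_num)).sub ?_
    have : ContDiff ℝ 1 (fun w : ℂ => (p.eval w).re) := by
      have h3 : ContDiff ℂ 1 (fun w : ℂ => p.eval w) := p.differentiable.contDiff
      exact Complex.reCLM.contDiff.comp (h3.restrict_scalars ℝ)
    exact this.contDiffOn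
  have hsupp : Function.support P ⊆ {w : ℂ | ‖w‖ ^ 2 ≤ 1 - e} := by
    intro w hw
    by_contra h3
    refine hw ?_
    show chi e w * q w = 0
    rw [chi_zero he0 (not_le.1 h3).le, zero_mul]
  have hclosed : IsClosed {w : ℂ | ‖w‖ ^ 2 ≤ 1 - e} := isClosed_le (by fun_prop) continuous_const
  have hsub : {w : ℂ | ‖w‖ ^ 2 ≤ 1 - e} ⊆ Metric.ball (0 : ℂ) 1 := by
    intro w hw
    rw [mem_ball_zero_iff]
    have h3 : ‖w‖ ^ 2 ≤ 1 - e := hw
    by_contra h4
    push Not at h4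
    nlinarith
  refine ⟨P, ?_, ?_, ?_, ?_⟩
  · rw [contDiff_iff_contDiffAt]
    intro w
    by_cases hw : w ∈ Metric.ball (0 : ℂ) R'
    · exact (chi_cd e).contDiffAt.mul (hqc.contDiffAt (Metric.isOpen_ball.mem_nhds hw))
    · have h3 : w ∈ {w : ℂ | ‖w‖ ^ 2 ≤ 1 - e}ᶜ := fun h4 => hw (Metric.ball_subset_ball hR.le (hsub h4))
      have h5 : P =ᶠ[𝓝 w] fun _ => 0 := by
        filter_upwards [hclosed.isOpen_compl.mem_nhds h3] with z hz
        by_contra h6
        exact hz (hsupp h6)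
      exact contDiffAt_const.congr_of_eventuallyEq h5
  · refine HasCompactSupport.of_support_subset_isCompact (isCompact_closedBall (0 : ℂ) 1) ?_
    exact hsupp.trans (hsub.trans Metric.ball_subset_closedBall)
  · exact (closure_minimal hsupp hclosed).trans hsub
  · -- the estimate
    set A : Set ℂ := Metric.ball (0 : ℂ) 1 \ Metric.ball (0 : ℂ) (Real.sqrt (1 - 2 * e)) with hA
    have hAm : MeasurableSet A := Metric.isOpen_ball.measurableSet.diff Metric.isOpen_ball.measurableSet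
    have hder : ∀ w : ℂ, ‖w‖ ≤ 1 → HasFDerivAt (fun w => U₁ w - P w) (Dp (p.derivative.eval w) +
        ((1 - chi e w) • (fderiv ℝ U₁ w - Dp (p.derivative.eval w)) - q w • fderiv ℝ (chi e) w)) w := by
      intro w hw
      have h3 : HasFDerivAt (chi e) (fderiv ℝ (chi e) w) w := ((chi_cd e).differentiable one_ne_zero w).hasFDerivAt
      have h4 := (hUd w hw).sub (h3.mul (hqd w hw))
      refine h4.congr_fderiv ?_
      ext h
      simp only [ContinuousLinearMap.sub_apply, ContinuousLinearMap.add_apply, ContinuousLinearMap.smul_apply, smul_eq_mul]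
      ring
    have hpt : ∀ w ∈ Metric.ball (0 : ℂ) 1, ENNReal.ofReal (gsq (fun w => U₁ w - P w) w) ≤
        ENNReal.ofReal (1 + t) * ENNReal.ofReal (‖p.derivative.eval w‖ ^ 2) + A.indicator (fun _ => ENNReal.ofReal Q) w := by
      intro w hw
      have hw1 : ‖w‖ < 1 := mem_ball_zero_iff.1 hw
      have h3 := hder w hw1.le
      by_cases hwA : w ∈ A
      · rw [indicator_of_mem hwA, ← ENNReal.ofReal_mul (by positivity), ← ENNReal.ofReal_add (by positivity) hQ0.le]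
        refine ENNReal.ofReal_le_ofReal (gsum ht0 h3 ?_)
        have h4 : ‖w‖ ^ 2 ≥ 1 - 2 * e := by
          have h5 : ¬ ‖w‖ < Real.sqrt (1 - 2 * e) := fun h6 => hwA.2 (mem_ball_zero_iff.2 h6)
          have h6 := not_lt.1 h5
          have h7 : 0 ≤ 1 - 2 * e := by linarith
          have h8 := pow_le_pow_left₀ (Real.sqrt_nonneg _) h6 2
          rwa [Real.sq_sqrt h7] at h8
        have h5 : |q w| ≤ e / (2 * C) + L * (2 * e) := by
          have h6 := near hL0 hqd (fun w hw => hL M0 w hw) hedge hw1.le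
          have h7 : L * (1 - ‖w‖ ^ 2) ≤ L * (2 * e) := mul_le_mul_of_nonneg_left (by linarith) hL0
          linarith
        have h6 := chi_fd hC he0 hw1.le
        have h7 : ‖(1 - chi e w) • (fderiv ℝ U₁ w - Dp (p.derivative.eval w))‖ ≤ L := by
          rw [norm_smul, Real.norm_eq_abs]
          have h8 := chi_nonneg e w
          have h9 := chi_le_one e w
          rw [abs_of_nonneg (by linarith)]
          have h10 := hL M0 w hw1.le
          calc (1 - chi e w) * ‖fderiv ℝ U₁ w - Dp (p.derivative.eval w)‖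
              ≤ 1 * L := mul_le_mul (by linarith) h10 (norm_nonneg _) zero_le_one
            _ = L := one_mul L
        have h8 : ‖q w • fderiv ℝ (chi e) w‖ ≤ (e / (2 * C) + L * (2 * e)) * (2 * C / e) := by
          rw [norm_smul, Real.norm_eq_abs]
          exact mul_le_mul h5 h6 (norm_nonneg _) (by positivity)
        have h9 : (e / (2 * C) + L * (2 * e)) * (2 * C / e) = 1 + 4 * C * L := by
          field_simp
          ring
        refine (norm_sub_le _ _).trans ?_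
        rw [hK]
        nlinarith
      · rw [indicator_of_notMem hwA, add_zero, ← ENNReal.ofReal_mul (by positivity)]
        refine ENNReal.ofReal_le_ofReal ?_
        have h4 : ‖w‖ < Real.sqrt (1 - 2 * e) := by
          by_contra h5
          exact hwA ⟨hw, fun h6 => h5 (mem_ball_zero_iff.1 h6)⟩
        have hev : ∀ᶠ z in 𝓝 w, chi e z = 1 := by
          have hw2 : w ∈ Metric.ball (0 : ℂ) (Real.sqrt (1 - 2 * e)) := mem_ball_zero_iff.2 h4
          filter_upwards [Metric.isOpen_ball.mem_nhds hw2] with z hz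
          refine chi_one he0 ?_
          have h5 := mem_ball_zero_iff.1 hz
          have h7 : 0 ≤ 1 - 2 * e := by linarith
          have h8 := pow_le_pow_left₀ (norm_nonneg z) h5.le 2
          rwa [Real.sq_sqrt h7] at h8
        have h5 : chi e w = 1 := hev.self_of_nhds
        have h6 : fderiv ℝ (chi e) w = 0 := by
          have h7 : chi e =ᶠ[𝓝 w] fun _ => (1 : ℝ) := hev
          rw [h7.fderiv_eq]
          simp
        rw [h5, h6, sub_self, zero_smul, smul_zero, sub_zero] at h3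
        have h7 := gsum (K := 0) ht0 h3 (by simp)
        simpa using h7
    have hball : MeasurableSet (Metric.ball (0 : ℂ) 1) := Metric.isOpen_ball.measurableSet
    refine (setLIntegral_mono' hball hpt).trans ?_
    have hmeas : Measurable (fun w : ℂ => ENNReal.ofReal (‖p.derivative.eval w‖ ^ 2)) :=
      ENNReal.measurable_ofReal.comp ((p.derivative.continuous.norm).pow 2).measurable
    rw [lintegral_add_left (hmeas.const_mul _), lintegral_const_mul _ hmeas, NN_lint, lintegral_indicator_const hAm]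
    have h3 : (volume.restrict (Metric.ball (0 : ℂ) 1)) A ≤ ENNReal.ofReal (2 * Real.pi * e) :=
      (Measure.restrict_apply_le _ _).trans (volA he0 he1)
    calc ENNReal.ofReal (1 + t) * ENNReal.ofReal (NN p) + ENNReal.ofReal Q * (volume.restrict (Metric.ball (0 : ℂ) 1)) A
        ≤ ENNReal.ofReal (1 + t) * ENNReal.ofReal (η ^ 2) + ENNReal.ofReal Q * ENNReal.ofReal (2 * Real.pi * e) := by
          gcongr
          exact hNN M0
      _ = ENNReal.ofReal ((1 + t) * η ^ 2 + Q * (2 * Real.pi * e)) := by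
          rw [← ENNReal.ofReal_mul (by positivity), ← ENNReal.ofReal_mul hQ0.le,
            ← ENNReal.ofReal_add (by positivity) (by positivity)]
      _ ≤ ENNReal.ofReal ((η + δ) ^ 2) := by
          refine ENNReal.ofReal_le_ofReal ?_
          have h4 : t * η ^ 2 ≤ δ * η := by
            have h5 : t * (η + 1) = δ := by rw [ht]; field_simp
            have h6 : t * η ≤ δ := by nlinarith
            nlinarith
          nlinarith

end Pool.Agent.MFK.L1
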