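import Pool.Agent.Work.MP_8826fd_mp.L1.Stmts
import Mathlib.Analysis.Complex.BranchLogRoot

/-!
# MP_8826fd_mp, block L1, item Circ: circles around a point outside a simply connected domain meet the complement
-/

set_option autoImplicit false

namespace Pool.Agent.MFK.L1

open MeasureTheory Set Filter Topology Pool.Agent.MFK.NF Pool.Agent.MFK.CD

namespace ICirc

theorem branch_deriv {Ω : Set ℂ} {p₀ : ℂ} {L : ℂ → ℂ} (hO : IsOpen Ω) (hL : ContinuousOn L Ω)
    (he : EqOn (Complex.exp ∘ L) (fun z => z - p₀) Ω) {z : ℂ} (hz : z ∈ Ω) :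
    HasDerivAt L (z - p₀)⁻¹ z := by
  have hc : ContinuousAt L z := hL.continuousAt (hO.mem_nhds hz)
  have hez : Complex.exp (L z) = z - p₀ := he hz
  have h1 : HasDerivAt (fun w : ℂ => Complex.exp w + p₀) (z - p₀) (L z) := by
    have := (Complex.hasDerivAt_exp (L z)).add_const p₀
    rwa [hez] at this
  have hne : z - p₀ ≠ 0 := by
    rw [← hez]
    exact Complex.exp_ne_zero _
  refine HasDerivAt.of_local_left_inverse hc h1 hne ?_
  filter_upwards [hO.mem_nhds hz] with y hy
  have hey : Complex.exp (L y) = y - p₀ := he hy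
  rw [hey]
  ring

end ICirc

theorem pr_Circ : StCirc := by
  intro Ω p₀ r hO hS hp hr
  by_contra hcon
  push Not at hcon
  have hr0 : 0 < r := lt_of_le_of_lt (norm_nonneg _) hr
  have hsph : ∀ z ∈ Metric.sphere (0 : ℂ) r, z ∈ Ω := by
    intro z hz
    have hz' : z ∈ Metric.sphere (0 : ℂ) |r| := by rwa [abs_of_pos hr0]
    rw [← image_circleMap_Ioc] at hz'
    obtain ⟨θ, _, hθ⟩ := hz'
    have := hcon θ
    rw [← hθ]
    unfold pc at this
    unfold circleMap
    rw [zero_add, mul_comm (θ : ℂ) Complex.I]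
    exact this
  obtain ⟨L, hLc, hLe⟩ := Complex.exists_continuousOn_eqOn_exp_comp hS hO
    (g := fun z : ℂ => z - p₀) (by fun_prop) (by
      rintro ⟨z, hz, h0⟩
      exact hp (by rw [← sub_eq_zero.1 h0]; exact hz))
  have h0 : (∮ z in C(0, r), (z - p₀)⁻¹) = 0 := by
    refine circleIntegral.integral_eq_zero_of_hasDerivWithinAt (f := L) hr0.le ?_
    intro z hz
    exact (ICirc.branch_deriv hO hLc hLe (hsph z hz)).hasDerivWithinAt
  have h1 : (∮ z in C(0, r), (z - p₀)⁻¹) = 2 * Real.pi * Complex.I :=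
    circleIntegral.integral_sub_inv_of_mem_ball (by simpa using hr)
  rw [h0] at h1
  exact Complex.two_pi_I_ne_zero h1.symm

end Pool.Agent.MFK.L1
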