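import Pool.Agent.Work.MP_8826fd_mp.L1.Stmts

/-!
# MP_8826fd_mp, block L1, item Dil: dilations are continuous in the Dirichlet norm
-/

set_option autoImplicit false

namespace Pool.Agent.MFK.L1

open MeasureTheory Set Filter Topology Pool.Agent.MFK.NF Pool.Agent.MFK.CD

namespace IDil

/-- the ring between the radii `r` and `1` -/
def rg (r : ℝ) : Set ℂ := Metric.ball 0 1 \ Metric.ball 0 r

lemma rg_meas (r : ℝ) : MeasurableSet (rg r) :=
  Metric.isOpen_ball.measurableSet.diff Metric.isOpen_ball.measurableSet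

/-- the outer part of a finite integral is small -/
lemma outer (g : ℂ → ENNReal) (hg : ∫⁻ w in Metric.ball (0 : ℂ) 1, g w ≠ ⊤) (ε : ENNReal)
    (hε : ε ≠ 0) : ∃ r : ℝ, 0 < r ∧ r < 1 ∧ ∫⁻ w in rg r, g w ≤ ε := by
  obtain ⟨δ, hδ0, hδ⟩ := exists_pos_setLIntegral_lt_of_measure_lt hg hε
  have h1 : Tendsto (fun n : ℕ => volume (rg (1 - 1 / ((n : ℝ) + 2)))) atTop (𝓝 0) := by
    have h2 := tendsto_measure_iInter_atTop (μ := (volume : Measure ℂ))
      (s := fun n : ℕ => rg (1 - 1 / ((n : ℝ) + 2)))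
      (fun n => (rg_meas _).nullMeasurableSet)
      (fun a b hab => by
        refine diff_subset_diff_right (Metric.ball_subset_ball ?_)
        have h3 : (0 : ℝ) < (a : ℝ) + 2 := by positivity
        have h4 : (a : ℝ) ≤ b := by exact_mod_cast hab
        have h5 : 1 / ((b : ℝ) + 2) ≤ 1 / ((a : ℝ) + 2) :=
          one_div_le_one_div_of_le h3 (by linarith)
        linarith)
      ⟨0, ((measure_mono diff_subset).trans_lt measure_ball_lt_top).ne⟩
    have h6 : (⋂ n : ℕ, rg (1 - 1 / ((n : ℝ) + 2))) = ∅ := by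
      rw [eq_empty_iff_forall_notMem]
      intro w hw
      rw [mem_iInter] at hw
      have h7 : ‖w‖ < 1 := by simpa using (hw 0).1
      obtain ⟨n, hn⟩ := exists_nat_gt (1 / (1 - ‖w‖))
      have h8 := (hw n).2
      apply h8
      rw [mem_ball_zero_iff]
      have h9 : 0 < 1 - ‖w‖ := by linarith
      have h10 : 1 / ((n : ℝ) + 2) < 1 - ‖w‖ := by
        rw [div_lt_iff₀ h9] at hn
        rw [div_lt_iff₀ (by positivity)]
        nlinarith
      linarith
    rw [h6, measure_empty] at h2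
    exact h2
  have h2 : ∀ᶠ n : ℕ in atTop, volume (rg (1 - 1 / ((n : ℝ) + 2))) < δ :=
    h1.eventually (gt_mem_nhds hδ0)
  obtain ⟨n, hn⟩ := h2.exists
  refine ⟨1 - 1 / ((n : ℝ) + 2), ?_, ?_, ?_⟩
  · have : 1 / ((n : ℝ) + 2) < 1 := by
      rw [div_lt_one (by positivity)]
      have : (0 : ℝ) ≤ n := Nat.cast_nonneg n
      linarith
    linarith
  · have : 0 < 1 / ((n : ℝ) + 2) := by positivity
    linarith
  · have h3 := hδ (rg (1 - 1 / ((n : ℝ) + 2)))
      (lt_of_le_of_lt (Measure.restrict_apply_le _ _) hn)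
    rw [Measure.restrict_restrict (rg_meas _)] at h3
    have h4 : rg (1 - 1 / ((n : ℝ) + 2)) ∩ Metric.ball 0 1 = rg (1 - 1 / ((n : ℝ) + 2)) :=
      inter_eq_left.2 diff_subset
    rw [h4] at h3
    exact h3.le

/-- change of variables for a dilation -/
lemma scal (g : ℂ → ENNReal) (ρ : ℝ) (hρ : 0 < ρ) (A : Set ℂ) (hA : MeasurableSet A) :
    ∫⁻ w in A, ENNReal.ofReal (ρ ^ 2) * g (ρ * w) = ∫⁻ z in (fun w : ℂ => (ρ : ℂ) * w) '' A, g z := by
  have hD : ∀ w ∈ A, HasFDerivWithinAt (fun w : ℂ => (ρ : ℂ) * w)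
      ((ContinuousLinearMap.toSpanSingleton ℂ (ρ : ℂ)).restrictScalars ℝ : ℂ →L[ℝ] ℂ) A w := by
    intro w _
    have h1 : HasDerivAt (fun w : ℂ => (ρ : ℂ) * w) (ρ : ℂ) w := by
      simpa using (hasDerivAt_id w).const_mul (ρ : ℂ)
    exact (h1.hasFDerivAt.restrictScalars ℝ).hasFDerivWithinAt
  have hinj : InjOn (fun w : ℂ => (ρ : ℂ) * w) A := by
    intro a _ b _ hab
    have h2 : (ρ : ℂ) ≠ 0 := by exact_mod_cast hρ.ne'
    exact mul_left_cancel₀ h2 hab
  rw [lintegral_image_eq_lintegral_abs_det_fderiv_mul volume hA hD hinj]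
  refine lintegral_congr fun w => ?_
  rw [IPC.det_mul, abs_of_nonneg (by positivity)]
  congr 2
  rw [Complex.norm_real, Real.norm_eq_abs, sq_abs]

lemma sq_add_le (x y : ℂ) : ‖x - y‖ ^ 2 ≤ 2 * ‖x‖ ^ 2 + 2 * ‖y‖ ^ 2 := by
  have h1 := norm_sub_le x y
  have h2 := norm_nonneg (x - y)
  nlinarith [sq_nonneg (‖x‖ - ‖y‖)]

/-- dilations are strongly continuous (for one function) -/
lemma dil (K : ℂ → ℂ) (hK : ContinuousOn K (Metric.ball 0 1))
    (hfin : ∫⁻ w in Metric.ball (0 : ℂ) 1, ENNReal.ofReal (‖K w‖ ^ 2) ≠ ⊤) (δ : ℝ) (hδ : 0 < δ) :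
    ∃ ρ : ℝ, 0 < ρ ∧ ρ < 1 ∧
      ∫⁻ w in Metric.ball (0 : ℂ) 1, ENNReal.ofReal (‖K w - ρ * K (ρ * w)‖ ^ 2) ≤ ENNReal.ofReal δ := by
  obtain ⟨r, hr0, hr1, hr⟩ := outer _ hfin (ENNReal.ofReal (δ / 8))
    (by simp only [ne_eq, ENNReal.ofReal_eq_zero, not_le]; positivity)
  set r' : ℝ := (1 + r) / 2 with hr'
  have hrr' : r < r' := by rw [hr']; linarith
  have hr'1 : r' < 1 := by rw [hr']; linarith
  have hr'0 : 0 < r' := by linarith
  have hsub : Metric.closedBall (0 : ℂ) r' ⊆ Metric.ball 0 1 := Metric.closedBall_subset_ball hr'1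
  have hKc : ContinuousOn K (Metric.closedBall 0 r') := hK.mono hsub
  have hcpt : IsCompact (Metric.closedBall (0 : ℂ) r') := isCompact_closedBall _ _
  obtain ⟨M, hM⟩ := hcpt.exists_bound_of_continuousOn hKc
  set ε : ℝ := Real.sqrt (δ / (2 * Real.pi)) with hε
  have hε0 : 0 < ε := Real.sqrt_pos.2 (by positivity)
  have hε2 : ε ^ 2 * Real.pi = δ / 2 := by
    rw [hε, Real.sq_sqrt (by positivity)]
    field_simp
  obtain ⟨η, hη0, hη⟩ := Metric.uniformContinuousOn_iff.1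
    (hcpt.uniformContinuousOn_of_continuous hKc) (ε / 2) (by positivity)
  have hM0 : 0 ≤ M := (norm_nonneg _).trans (hM 0 (Metric.mem_closedBall_self hr'0.le))
  set ρ : ℝ := max (r / r') (max (1 - η / 2) (1 - ε / (2 * (M + 1)))) with hρ
  have hρ1 : r / r' ≤ ρ := le_max_left _ _
  have hρ2 : 1 - η / 2 ≤ ρ := (le_max_left _ _).trans (le_max_right _ _)
  have hρ3 : 1 - ε / (2 * (M + 1)) ≤ ρ := (le_max_right _ _).trans (le_max_right _ _)
  have hρ0 : 0 < ρ := lt_of_lt_of_le (by positivity) hρ1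
  have hρlt : ρ < 1 := by
    rw [hρ]
    refine max_lt ?_ (max_lt ?_ ?_)
    · rw [div_lt_one hr'0]; exact hrr'
    · linarith
    · have : 0 < ε / (2 * (M + 1)) := by positivity
      linarith
  refine ⟨ρ, hρ0, hρlt, ?_⟩
  have hρr : r ≤ ρ * r' := by
    rw [div_le_iff₀ hr'0] at hρ1
    exact hρ1
  have hnorm : ∀ w : ℂ, ‖(ρ : ℂ) * w‖ = ρ * ‖w‖ := fun w => by
    rw [norm_mul, Complex.norm_real, Real.norm_eq_abs, abs_of_pos hρ0]
  -- the inner part
  have hin : ∀ w ∈ Metric.ball (0 : ℂ) r', ENNReal.ofReal (‖K w - ρ * K (ρ * w)‖ ^ 2)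
      ≤ ENNReal.ofReal (ε ^ 2) := by
    intro w hw
    refine ENNReal.ofReal_le_ofReal ?_
    rw [mem_ball_zero_iff] at hw
    have hw1 : w ∈ Metric.closedBall (0 : ℂ) r' := by
      rw [mem_closedBall_zero_iff]; exact hw.le
    have hw2 : (ρ : ℂ) * w ∈ Metric.closedBall (0 : ℂ) r' := by
      rw [mem_closedBall_zero_iff, hnorm]
      have := norm_nonneg w
      nlinarith
    have h1 : dist w ((ρ : ℂ) * w) < η := by
      rw [dist_eq_norm]
      have h2 : w - (ρ : ℂ) * w = ((1 - ρ : ℝ) : ℂ) * w := by push_cast; ring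
      rw [h2, norm_mul, Complex.norm_real, Real.norm_eq_abs, abs_of_pos (by linarith)]
      have := norm_nonneg w
      nlinarith
    have h3 := hη w hw1 _ hw2 h1
    rw [dist_eq_norm] at h3
    have h4 := hM _ hw2
    have h5 : K w - ρ * K (ρ * w) = (K w - K (ρ * w)) + ((1 - ρ : ℝ) : ℂ) * K (ρ * w) := by
      push_cast; ring
    have h6 : ‖((1 - ρ : ℝ) : ℂ) * K (ρ * w)‖ ≤ ε / 2 := by
      rw [norm_mul, Complex.norm_real, Real.norm_eq_abs, abs_of_pos (by linarith)]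
      have h7 : 1 - ρ ≤ ε / (2 * (M + 1)) := by linarith
      calc (1 - ρ) * ‖K (ρ * w)‖ ≤ ε / (2 * (M + 1)) * (M + 1) :=
            mul_le_mul h7 (by linarith) (norm_nonneg _) (by positivity)
        _ = ε / 2 := by field_simp
    have h8 : ‖K w - ρ * K (ρ * w)‖ ≤ ε := by
      rw [h5]
      exact (norm_add_le _ _).trans (by linarith)
    exact pow_le_pow_left₀ (norm_nonneg _) h8 2
  have hI : ∫⁻ w in Metric.ball (0 : ℂ) r', ENNReal.ofReal (‖K w - ρ * K (ρ * w)‖ ^ 2)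
      ≤ ENNReal.ofReal (δ / 2) := by
    calc ∫⁻ w in Metric.ball (0 : ℂ) r', ENNReal.ofReal (‖K w - ρ * K (ρ * w)‖ ^ 2)
        ≤ ∫⁻ _w in Metric.ball (0 : ℂ) r', ENNReal.ofReal (ε ^ 2) :=
          setLIntegral_mono' Metric.isOpen_ball.measurableSet hin
      _ = ENNReal.ofReal (ε ^ 2) * volume (Metric.ball (0 : ℂ) r') := by
          rw [setLIntegral_const]
      _ ≤ ENNReal.ofReal (ε ^ 2) * volume (Metric.ball (0 : ℂ) 1) :=
          mul_le_mul_right (measure_mono (Metric.ball_subset_ball hr'1.le)) _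
      _ = ENNReal.ofReal (δ / 2) := by
          rw [Complex.volume_ball, ← hε2, ENNReal.ofReal_mul (by positivity)]
          congr 1
          rw [ENNReal.ofReal_one, one_pow, one_mul, ← NNReal.coe_real_pi, ENNReal.ofReal_coe_nnreal]
  -- the outer part
  have hA : MeasurableSet (rg r') := rg_meas r'
  have himg : (fun w : ℂ => (ρ : ℂ) * w) '' rg r' ⊆ rg r := by
    rintro _ ⟨w, hw, rfl⟩
    obtain ⟨hw1, hw2⟩ := hw
    rw [mem_ball_zero_iff] at hw1 hw2
    rw [not_lt] at hw2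
    refine ⟨?_, ?_⟩
    · rw [mem_ball_zero_iff]
      show ‖(ρ : ℂ) * w‖ < 1
      rw [hnorm]
      nlinarith [norm_nonneg w]
    · rw [mem_ball_zero_iff, not_lt]
      show r ≤ ‖(ρ : ℂ) * w‖
      rw [hnorm]
      nlinarith
  have hO1 : ∫⁻ w in rg r', ENNReal.ofReal (‖K w‖ ^ 2) ≤ ENNReal.ofReal (δ / 8) := by
    refine (lintegral_mono_set ?_).trans hr
    exact diff_subset_diff_right (Metric.ball_subset_ball hrr'.le)
  have hO2 : ∫⁻ w in rg r', ENNReal.ofReal (ρ ^ 2) * ENNReal.ofReal (‖K (ρ * w)‖ ^ 2)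
      ≤ ENNReal.ofReal (δ / 8) := by
    rw [scal (fun z => ENNReal.ofReal (‖K z‖ ^ 2)) ρ hρ0 (rg r') hA]
    exact (lintegral_mono_set himg).trans hr
  have hmeas : AEMeasurable (fun w => 2 * ENNReal.ofReal (‖K w‖ ^ 2)) (volume.restrict (rg r')) := by
    have h1 : ContinuousOn (fun w => ‖K w‖ ^ 2) (rg r') :=
      ((hK.mono diff_subset).norm.pow 2)
    exact (h1.aemeasurable hA).ennreal_ofReal.const_mul 2
  have hO : ∫⁻ w in rg r', ENNReal.ofReal (‖K w - ρ * K (ρ * w)‖ ^ 2) ≤ ENNReal.ofReal (δ / 2) := by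
    calc ∫⁻ w in rg r', ENNReal.ofReal (‖K w - ρ * K (ρ * w)‖ ^ 2)
        ≤ ∫⁻ w in rg r', (2 * ENNReal.ofReal (‖K w‖ ^ 2)
            + 2 * (ENNReal.ofReal (ρ ^ 2) * ENNReal.ofReal (‖K (ρ * w)‖ ^ 2))) := by
          refine lintegral_mono fun w => ?_
          have h1 := sq_add_le (K w) (ρ * K (ρ * w))
          have h2 : ‖(ρ : ℂ) * K (ρ * w)‖ ^ 2 = ρ ^ 2 * ‖K (ρ * w)‖ ^ 2 := by
            rw [hnorm]; ring
          rw [h2] at h1
          refine (ENNReal.ofReal_le_ofReal h1).trans (le_of_eq ?_)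
          rw [ENNReal.ofReal_add (by positivity) (by positivity), ENNReal.ofReal_mul (by norm_num),
            ENNReal.ofReal_mul (by norm_num), ENNReal.ofReal_mul (by positivity)]
          norm_num
      _ = 2 * (∫⁻ w in rg r', ENNReal.ofReal (‖K w‖ ^ 2))
            + 2 * ∫⁻ w in rg r', (ENNReal.ofReal (ρ ^ 2) * ENNReal.ofReal (‖K (ρ * w)‖ ^ 2)) := by
          rw [lintegral_add_left' hmeas, lintegral_const_mul' _ _ (by norm_num),
            lintegral_const_mul' _ _ (by norm_num)]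
      _ ≤ 2 * ENNReal.ofReal (δ / 8) + 2 * ENNReal.ofReal (δ / 8) := by
          gcongr
      _ = ENNReal.ofReal (δ / 2) := by
          have h3 : (2 : ENNReal) = ENNReal.ofReal 2 := by norm_num
          rw [h3, ← ENNReal.ofReal_mul (by norm_num), ← ENNReal.ofReal_add (by positivity)
            (by positivity)]
          congr 1
          ring
  have hsplit : Metric.ball (0 : ℂ) 1 ⊆ Metric.ball 0 r' ∪ rg r' := by
    intro w hw
    by_cases h : w ∈ Metric.ball (0 : ℂ) r'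
    · exact Or.inl h
    · exact Or.inr ⟨hw, h⟩
  calc ∫⁻ w in Metric.ball (0 : ℂ) 1, ENNReal.ofReal (‖K w - ρ * K (ρ * w)‖ ^ 2)
      ≤ ∫⁻ w in Metric.ball (0 : ℂ) r' ∪ rg r', ENNReal.ofReal (‖K w - ρ * K (ρ * w)‖ ^ 2) :=
        lintegral_mono_set hsplit
    _ ≤ (∫⁻ w in Metric.ball (0 : ℂ) r', ENNReal.ofReal (‖K w - ρ * K (ρ * w)‖ ^ 2))
        + ∫⁻ w in rg r', ENNReal.ofReal (‖K w - ρ * K (ρ * w)‖ ^ 2) := lintegral_union_le _ _ _
    _ ≤ ENNReal.ofReal (δ / 2) + ENNReal.ofReal (δ / 2) := add_le_add hI hO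
    _ = ENNReal.ofReal δ := by
        rw [← ENNReal.ofReal_add (by positivity) (by positivity)]
        congr 1
        ring

end IDil

open IDil in
theorem pr_Dil (h : StSm) : StDil := by
  intro B lam m Ω f F a hSp hC hvol δ hδ
  obtain ⟨_, hww, _, _, _, _, _, _, _, hF, K₀, hK₀, hb⟩ := h B lam m hSp
  obtain ⟨hU2, hUd⟩ := hF F hC.Fd
  set K : ℂ → ℂ := fun w => (ww B lam m (‖F w‖ ^ 2) : ℂ) * ((starRingEnd ℂ) (F w) * deriv F w) with hK
  have hFc : ContinuousOn F (Metric.ball 0 1) := hC.Fd.continuousOn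
  have hF'c : ContinuousOn (deriv F) (Metric.ball 0 1) :=
    (hC.Fd.deriv Metric.isOpen_ball).continuousOn
  have hKc : ContinuousOn K (Metric.ball 0 1) := by
    refine ContinuousOn.mul ?_ ((Complex.continuous_conj.comp_continuousOn hFc).mul hF'c)
    exact Complex.continuous_ofReal.comp_continuousOn
      (hww.continuous.comp_continuousOn (hFc.norm.pow 2))
  have hKb : ∀ w, ‖K w‖ ^ 2 ≤ K₀ ^ 2 * ‖deriv F w‖ ^ 2 := by
    intro w
    have h1 : ‖K w‖ = (|ww B lam m (‖F w‖ ^ 2)| * ‖F w‖) * ‖deriv F w‖ := by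
      rw [hK]
      simp only [norm_mul, Complex.norm_real, Real.norm_eq_abs, RCLike.norm_conj]
      ring
    have h2 := (hb (F w)).2
    rw [h1, mul_pow]
    refine mul_le_mul_of_nonneg_right ?_ (by positivity)
    exact pow_le_pow_left₀ (by positivity) h2 2
  have hinj : InjOn F (Metric.ball 0 1) := by
    intro x hx y hy hxy
    rw [← hC.fF x hx, ← hC.fF y hy, hxy]
  have hfin : ∫⁻ w in Metric.ball (0 : ℂ) 1, ENNReal.ofReal (‖K w‖ ^ 2) ≠ ⊤ := by
    have h1 : ∫⁻ w in Metric.ball (0 : ℂ) 1, ENNReal.ofReal (‖K w‖ ^ 2)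
        ≤ ENNReal.ofReal (K₀ ^ 2) * volume Ω := by
      calc ∫⁻ w in Metric.ball (0 : ℂ) 1, ENNReal.ofReal (‖K w‖ ^ 2)
          ≤ ∫⁻ w in Metric.ball (0 : ℂ) 1, ENNReal.ofReal (‖deriv F w‖ ^ 2)
              * ENNReal.ofReal (K₀ ^ 2) := by
            refine lintegral_mono fun w => ?_
            rw [← ENNReal.ofReal_mul (by positivity), mul_comm]
            exact ENNReal.ofReal_le_ofReal (hKb w)
        _ = ∫⁻ _z in F '' (Metric.ball 0 1), ENNReal.ofReal (K₀ ^ 2) :=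
            (IPC.cov hC.Fd hinj (fun _ => ENNReal.ofReal (K₀ ^ 2))).symm
        _ = ENNReal.ofReal (K₀ ^ 2) * volume (F '' (Metric.ball 0 1)) := by
            rw [setLIntegral_const]
        _ ≤ ENNReal.ofReal (K₀ ^ 2) * volume Ω :=
            mul_le_mul_right (measure_mono (image_subset_iff.2 hC.Fm)) _
    exact (h1.trans_lt (ENNReal.mul_lt_top ENNReal.ofReal_lt_top hvol.lt_top)).ne
  obtain ⟨ρ, hρ0, hρ1, hρ⟩ := dil K hKc hfin δ hδ
  refine ⟨ρ, hρ0, hρ1, le_trans (le_of_eq ?_) hρ⟩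
  refine setLIntegral_congr_fun Metric.isOpen_ball.measurableSet fun w hw => ?_
  have hw' : (ρ : ℂ) * w ∈ Metric.ball (0 : ℂ) 1 := by
    rw [mem_ball_zero_iff] at hw ⊢
    rw [norm_mul, Complex.norm_real, Real.norm_eq_abs, abs_of_pos hρ0]
    nlinarith [norm_nonneg w]
  have hUat : ∀ z ∈ Metric.ball (0 : ℂ) 1,
      DifferentiableAt ℝ (fun w => Ph B lam m (F w)) z := fun z hz =>
    (hU2.differentiableOn (by norm_num)).differentiableAt (Metric.isOpen_ball.mem_nhds hz)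
  have hlin : HasFDerivAt (fun w : ℂ => (ρ : ℂ) * w)
      ((ContinuousLinearMap.toSpanSingleton ℂ (ρ : ℂ)).restrictScalars ℝ : ℂ →L[ℝ] ℂ) w := by
    have h1 : HasDerivAt (fun w : ℂ => (ρ : ℂ) * w) (ρ : ℂ) w := by
      simpa using (hasDerivAt_id w).const_mul (ρ : ℂ)
    exact h1.hasFDerivAt.restrictScalars ℝ
  have hcomp : HasFDerivAt (fun w : ℂ => Ph B lam m (F (ρ * w)))
      ((fderiv ℝ (fun w => Ph B lam m (F w)) (ρ * w)).comp
        ((ContinuousLinearMap.toSpanSingleton ℂ (ρ : ℂ)).restrictScalars ℝ : ℂ →L[ℝ] ℂ)) w :=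
    HasFDerivAt.comp w (hUat _ hw').hasFDerivAt hlin
  have hsub := (hUat w hw).hasFDerivAt.sub hcomp
  have hfd : ∀ e : ℂ, fderiv ℝ (fun w => Ph B lam m (F w) - Ph B lam m (F (ρ * w))) w e
      = -((K w - ρ * K (ρ * w)) * e).re := by
    intro e
    have h0 : fderiv ℝ (fun w => Ph B lam m (F w) - Ph B lam m (F (ρ * w))) w
      = fderiv ℝ (fun w => Ph B lam m (F w)) w - (fderiv ℝ (fun w => Ph B lam m (F w)) (ρ * w)).comp
        ((ContinuousLinearMap.toSpanSingleton ℂ (ρ : ℂ)).restrictScalars ℝ : ℂ →L[ℝ] ℂ) :=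
      hsub.fderiv
    rw [h0]
    have h1 : (fderiv ℝ (fun w => Ph B lam m (F w)) w - (fderiv ℝ (fun w => Ph B lam m (F w)) (ρ * w)).comp
        ((ContinuousLinearMap.toSpanSingleton ℂ (ρ : ℂ)).restrictScalars ℝ : ℂ →L[ℝ] ℂ)) e
        = fderiv ℝ (fun w => Ph B lam m (F w)) w e
          - fderiv ℝ (fun w => Ph B lam m (F w)) (ρ * w) (e * ρ) := by
      simp [ContinuousLinearMap.toSpanSingleton_apply]
    rw [h1, hUd w hw e, hUd _ hw' (e * ρ)]
    simp only [hK]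
    simp only [Complex.mul_re, Complex.sub_re, Complex.mul_im, Complex.sub_im, Complex.ofReal_re,
      Complex.ofReal_im]
    ring
  have hg : gsq (fun w => Ph B lam m (F w) - Ph B lam m (F (ρ * w))) w = ‖K w - ρ * K (ρ * w)‖ ^ 2 := by
    unfold gsq
    rw [hfd 1, hfd Complex.I, ← Complex.normSq_eq_norm_sq, Complex.normSq_apply]
    simp only [mul_one, Complex.mul_re, Complex.I_re, Complex.I_im, mul_zero, zero_sub]
    ring
  rw [hg]

end Pool.Agent.MFK.L1
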