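import Pool.Agent.Work.MP_8826fd_mp.L1.Stmts

/-!
# MP_8826fd_mp, block L1, item En: energy of the test function (helper64)
-/

set_option autoImplicit false

namespace Pool.Agent.MFK.L1

open MeasureTheory Set Filter Topology Pool.Agent.MFK.NF Pool.Agent.MFK.CD

namespace IEn

/-- covariant derivative of `v e^{i t th}`, squared norm -/
theorem nsq (e D V : ℂ) (he : ‖e‖ = 1) (t b : ℝ) :
    ‖e * (D + Complex.I * ((t * b : ℝ) : ℂ) * V)‖ ^ 2
      = ‖D‖ ^ 2 + 2 * t * (b * ((starRingEnd ℂ) V * D).im) + t ^ 2 * (b ^ 2 * ‖V‖ ^ 2) := by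
  rw [norm_mul, he, one_mul]
  simp only [Complex.sq_norm, Complex.normSq_apply, Complex.add_re, Complex.add_im, Complex.mul_re,
    Complex.mul_im, Complex.I_re, Complex.I_im, Complex.ofReal_re, Complex.ofReal_im,
    Complex.conj_re, Complex.conj_im]
  ring

/-- sum over the two directions of the cross term -/
theorem cross (c z : ℂ) (W : ℝ) :
    (c * 1).im * (W * ((starRingEnd ℂ) z * 1).im)
      + (c * Complex.I).im * (W * ((starRingEnd ℂ) z * Complex.I).im) = W * (z * c).re := by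
  simp only [Complex.mul_re, Complex.mul_im, Complex.I_re, Complex.I_im, Complex.one_re,
    Complex.one_im, Complex.conj_re, Complex.conj_im]
  ring

theorem sqsum (c : ℂ) : (c * 1).im ^ 2 + (c * Complex.I).im ^ 2 = ‖c‖ ^ 2 := by
  simp only [Complex.sq_norm, Complex.normSq_apply, Complex.mul_im, Complex.I_re, Complex.I_im,
    Complex.one_re, Complex.one_im]
  ring

/-- the current of `z^m P(|z|²)` -/
theorem cur (m : ℕ) (P : ℝ → ℝ) (hP : Differentiable ℝ P) (z h : ℂ) :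
    ((starRingEnd ℂ) (vt m P z) * fderiv ℝ (vt m P) z h).im
      = (m : ℝ) * (‖z‖ ^ 2) ^ (m - 1) * P (‖z‖ ^ 2) ^ 2 * ((starRingEnd ℂ) z * h).im := by
  have h1 : HasFDerivAt (fun w : ℂ => w ^ m)
      ((ContinuousLinearMap.toSpanSingleton ℂ ((m : ℂ) * z ^ (m - 1))).restrictScalars ℝ :
        ℂ →L[ℝ] ℂ) z := by
    have := (hasDerivAt_pow m z).hasFDerivAt.restrictScalars ℝ
    exact this
  have h2 : DifferentiableAt ℝ (fun w : ℂ => P (‖w‖ ^ 2)) z := by
    have h3 : DifferentiableAt ℝ (fun w : ℂ => ‖w‖ ^ 2) z :=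
      ((contDiff_norm_sq ℝ (n := 1)).differentiable (by norm_num)) z
    exact (hP _).comp z h3
  have h4 : HasFDerivAt (fun w : ℂ => ((P (‖w‖ ^ 2) : ℝ) : ℂ))
      (Complex.ofRealCLM.comp (fderiv ℝ (fun w : ℂ => P (‖w‖ ^ 2)) z)) z :=
    Complex.ofRealCLM.hasFDerivAt.comp z h2.hasFDerivAt
  have h5 : HasFDerivAt (vt m P) _ z := h1.mul h4
  rw [h5.fderiv]
  set g : ℝ := fderiv ℝ (fun w : ℂ => P (‖w‖ ^ 2)) z h with hg
  set q : ℝ := P (‖z‖ ^ 2) with hq
  have e1 : vt m P z = z ^ m * (q : ℂ) := rfl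
  have e2 : (z ^ m • Complex.ofRealCLM.comp (fderiv ℝ (fun w : ℂ => P (‖w‖ ^ 2)) z) +
      ((P (‖z‖ ^ 2) : ℝ) : ℂ) • ((ContinuousLinearMap.toSpanSingleton ℂ
        ((m : ℂ) * z ^ (m - 1))).restrictScalars ℝ : ℂ →L[ℝ] ℂ)) h
      = z ^ m * (g : ℂ) + (q : ℂ) * (h * ((m : ℂ) * z ^ (m - 1))) := by
    simp [hg, hq]
  rw [e2, e1]
  have e3 : (starRingEnd ℂ) (z ^ m * (q : ℂ)) * (z ^ m * (g : ℂ) +
      (q : ℂ) * (h * ((m : ℂ) * z ^ (m - 1))))
      = ((Complex.normSq (z ^ m) * q * g : ℝ) : ℂ) +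
        ((starRingEnd ℂ) (z ^ m) * z ^ (m - 1) * h) * ((q ^ 2 * m : ℝ) : ℂ) := by
    rw [map_mul, Complex.conj_ofReal]
    have : (starRingEnd ℂ) (z ^ m) * z ^ m = (Complex.normSq (z ^ m) : ℂ) := by
      rw [mul_comm, Complex.mul_conj]
    push_cast
    linear_combination (q : ℂ) * (g : ℂ) * this
  rw [e3, Complex.add_im, Complex.ofReal_im, zero_add, Complex.im_mul_ofReal]
  rcases Nat.eq_zero_or_pos m with hm | hm
  · subst hm
    simp
  · have e4 : (starRingEnd ℂ) (z ^ m) * z ^ (m - 1) * h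
        = (((‖z‖ ^ 2) ^ (m - 1) : ℝ) : ℂ) * ((starRingEnd ℂ) z * h) := by
      have h6 : (starRingEnd ℂ) (z ^ m) = (starRingEnd ℂ) z ^ (m - 1) * (starRingEnd ℂ) z := by
        rw [map_pow, ← pow_succ]
        congr 1
        omega
      have h7 : (starRingEnd ℂ) z ^ (m - 1) * z ^ (m - 1) = (((‖z‖ ^ 2) ^ (m - 1) : ℝ) : ℂ) := by
        rw [← mul_pow, mul_comm ((starRingEnd ℂ) z) z, Complex.mul_conj, Complex.normSq_eq_norm_sq]
        push_cast
        rfl
      rw [h6]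
      linear_combination (starRingEnd ℂ) z * h * h7
    rw [e4, Complex.im_ofReal_mul]
    ring

/-- derivative of `p(f(z))` -/
noncomputable def Hd (f : ℂ → ℂ) (p : Polynomial ℂ) (z : ℂ) : ℂ :=
  p.derivative.eval (f z) * deriv f z

theorem hasH {Ω : Set ℂ} {f : ℂ → ℂ} (hf : DifferentiableOn ℂ f Ω) (hO : IsOpen Ω)
    (p : Polynomial ℂ) {z : ℂ} (hz : z ∈ Ω) :
    HasDerivAt (fun z => p.eval (f z)) (Hd f p z) z :=
  (p.hasDerivAt (f z)).comp z (hf.differentiableAt (hO.mem_nhds hz)).hasDerivAt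

/-- energy density of the test function -/
theorem den {B lam t : ℝ} {m : ℕ} {Ω : Set ℂ} {f : ℂ → ℂ} {p : Polynomial ℂ}
    (hf : DifferentiableOn ℂ f Ω) (hO : IsOpen Ω) (hP : ContDiff ℝ 2 (Pc B lam m))
    (hv : ContDiff ℝ 1 (v0 B lam m)) {z : ℂ} (hz : z ∈ Ω) :
    edC B (U1 B lam m f p t) z = edC B (v0 B lam m) z
      + 2 * t * (ww B lam m (‖z‖ ^ 2) * (z * Hd f p z).re)
      + t ^ 2 * (‖v0 B lam m z‖ ^ 2 * ‖Hd f p z‖ ^ 2) := by
  set c := Hd f p z with hc
  set V := v0 B lam m z with hV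
  set e : ℂ := Complex.exp (Complex.I * ((t * (p.eval (f z)).im : ℝ) : ℂ)) with he
  have hen : ‖e‖ = 1 := by rw [he, mul_comm, Complex.norm_exp_ofReal_mul_I]
  have hd1 : HasFDerivAt (v0 B lam m) (fderiv ℝ (v0 B lam m) z) z :=
    (hv.differentiable (by norm_num) z).hasFDerivAt
  -- derivative of the phase
  have hH : HasFDerivAt (fun z => p.eval (f z))
      ((ContinuousLinearMap.toSpanSingleton ℂ c).restrictScalars ℝ : ℂ →L[ℝ] ℂ) z :=
    (hasH hf hO p hz).hasFDerivAt.restrictScalars ℝ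
  have hth : HasFDerivAt (fun z => (p.eval (f z)).im)
      (Complex.imCLM.comp ((ContinuousLinearMap.toSpanSingleton ℂ c).restrictScalars ℝ)) z :=
    Complex.imCLM.hasFDerivAt.comp z hH
  have hph : HasFDerivAt (fun z => ((t * (p.eval (f z)).im : ℝ) : ℂ))
      (Complex.ofRealCLM.comp (t • (Complex.imCLM.comp
        ((ContinuousLinearMap.toSpanSingleton ℂ c).restrictScalars ℝ)))) z :=
    Complex.ofRealCLM.hasFDerivAt.comp z (hth.const_mul t)
  have hexp := (hph.const_mul Complex.I).cexp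
  have hU : HasFDerivAt (U1 B lam m f p t) _ z := hd1.mul hexp
  have hdir : ∀ h : ℂ, fderiv ℝ (U1 B lam m f p t) z h
      = e * (fderiv ℝ (v0 B lam m) z h + Complex.I * ((t * (c * h).im : ℝ) : ℂ) * V) := by
    intro h
    rw [hU.fderiv]
    simp only [add_apply, smul_apply,
      ContinuousLinearMap.comp_apply, ContinuousLinearMap.coe_restrictScalars',
      ContinuousLinearMap.toSpanSingleton_apply, Complex.imCLM_apply, Complex.ofRealCLM_apply,
      smul_eq_mul]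
    rw [← he, ← hV, mul_comm h c]
    ring
  have hUz : U1 B lam m f p t z = V * e := rfl
  have key : ∀ h : ℂ, ‖fderiv ℝ (U1 B lam m f p t) z h -
      Complex.I * ((B * AA z h : ℝ) : ℂ) * U1 B lam m f p t z‖ ^ 2
      = ‖fderiv ℝ (v0 B lam m) z h - Complex.I * ((B * AA z h : ℝ) : ℂ) * V‖ ^ 2
        + 2 * t * ((c * h).im * (ww B lam m (‖z‖ ^ 2) * ((starRingEnd ℂ) z * h).im))
        + t ^ 2 * ((c * h).im ^ 2 * ‖V‖ ^ 2) := by
    intro h
    have h1 : fderiv ℝ (U1 B lam m f p t) z h -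
        Complex.I * ((B * AA z h : ℝ) : ℂ) * U1 B lam m f p t z
        = e * ((fderiv ℝ (v0 B lam m) z h - Complex.I * ((B * AA z h : ℝ) : ℂ) * V)
          + Complex.I * ((t * (c * h).im : ℝ) : ℂ) * V) := by
      rw [hdir h, hUz]
      ring
    rw [h1, nsq _ _ _ hen]
    have h2 := cur m (Pc B lam m) (hP.differentiable (by norm_num)) z h
    have h3 : ((starRingEnd ℂ) V * (fderiv ℝ (v0 B lam m) z h -
        Complex.I * ((B * AA z h : ℝ) : ℂ) * V)).im
        = ww B lam m (‖z‖ ^ 2) * ((starRingEnd ℂ) z * h).im := by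
      have h4 : ((starRingEnd ℂ) V * (fderiv ℝ (v0 B lam m) z h -
          Complex.I * ((B * AA z h : ℝ) : ℂ) * V)).im
          = ((starRingEnd ℂ) V * fderiv ℝ (v0 B lam m) z h).im
            - B * AA z h * ‖V‖ ^ 2 := by
        rw [mul_sub, Complex.sub_im]
        congr 1
        have h5 : (starRingEnd ℂ) V * (Complex.I * ((B * AA z h : ℝ) : ℂ) * V)
            = Complex.I * ((B * AA z h * ‖V‖ ^ 2 : ℝ) : ℂ) := by
          have h6 : (starRingEnd ℂ) V * V = ((‖V‖ ^ 2 : ℝ) : ℂ) := by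
            rw [mul_comm, Complex.mul_conj, Complex.normSq_eq_norm_sq]
          push_cast at h6 ⊢
          linear_combination Complex.I * (B : ℂ) * (AA z h : ℂ) * h6
        rw [h5, Complex.I_mul_im, Complex.ofReal_re]
      have h7 : ‖V‖ ^ 2 = (‖z‖ ^ 2) ^ m * Pc B lam m (‖z‖ ^ 2) ^ 2 := by
        rw [hV]
        show ‖z ^ m * ((Pc B lam m (‖z‖ ^ 2) : ℝ) : ℂ)‖ ^ 2 = _
        rw [norm_mul, norm_pow, Complex.norm_real, Real.norm_eq_abs, mul_pow, sq_abs]
        ring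
      rw [h4]
      have h8 : ((starRingEnd ℂ) V * fderiv ℝ (v0 B lam m) z h).im
          = (m : ℝ) * (‖z‖ ^ 2) ^ (m - 1) * Pc B lam m (‖z‖ ^ 2) ^ 2 *
            ((starRingEnd ℂ) z * h).im := h2
      rw [h8, h7]
      unfold AA ww
      ring
    rw [h3]
  unfold edC
  rw [key 1, key Complex.I]
  have hc1 := cross c z (ww B lam m (‖z‖ ^ 2))
  have hc2 := sqsum c
  rw [← hc1, ← hc2]
  ring

/-- the image of the ball -/
theorem img {Ω : Set ℂ} {f F : ℂ → ℂ} {a : ℕ → ℂ} (hC : CMc Ω f F a) :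
    F '' (Metric.ball 0 1) = Ω := by
  ext z
  constructor
  · rintro ⟨w, hw, rfl⟩
    exact hC.Fm hw
  · intro hz
    exact ⟨f z, hC.fm hz, hC.Ff z hz⟩

theorem inj {Ω : Set ℂ} {f F : ℂ → ℂ} {a : ℕ → ℂ} (hC : CMc Ω f F a) :
    InjOn F (Metric.ball 0 1) := by
  intro w hw w' hw' hww
  rw [← hC.fF w hw, ← hC.fF w' hw', hww]

theorem hasF {Ω : Set ℂ} {f F : ℂ → ℂ} {a : ℕ → ℂ} (hC : CMc Ω f F a) :
    ∀ w ∈ Metric.ball (0 : ℂ) 1, HasFDerivWithinAt F
      ((ContinuousLinearMap.toSpanSingleton ℂ (deriv F w)).restrictScalars ℝ : ℂ →L[ℝ] ℂ)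
      (Metric.ball 0 1) w := by
  intro w hw
  have h1 : HasDerivAt F (deriv F w) w :=
    (hC.Fd.differentiableAt (Metric.isOpen_ball.mem_nhds hw)).hasDerivAt
  exact (h1.hasFDerivAt.restrictScalars ℝ).hasFDerivWithinAt

/-- change of variables for real functions -/
theorem covR {Ω : Set ℂ} {f F : ℂ → ℂ} {a : ℕ → ℂ} (hC : CMc Ω f F a) (g : ℂ → ℝ) :
    ∫ z in Ω, g z = ∫ w in Metric.ball (0 : ℂ) 1, ‖deriv F w‖ ^ 2 * g (F w) := by
  have h := integral_image_eq_integral_abs_det_fderiv_smul (volume : Measure ℂ)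
    Metric.isOpen_ball.measurableSet (hasF hC) (inj hC) g
  rw [img hC] at h
  rw [h]
  refine integral_congr_ae (Eventually.of_forall fun w => ?_)
  simp only
  rw [IPC.det_mul, abs_of_nonneg (by positivity), smul_eq_mul]

/-- integrability under the change of variables -/
theorem covI {Ω : Set ℂ} {f F : ℂ → ℂ} {a : ℕ → ℂ} (hC : CMc Ω f F a) (g : ℂ → ℝ)
    (hg : IntegrableOn (fun w => ‖deriv F w‖ ^ 2 * g (F w)) (Metric.ball (0 : ℂ) 1)) :
    IntegrableOn g Ω := by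
  have h := integrableOn_image_iff_integrableOn_abs_det_fderiv_smul (volume : Measure ℂ)
    Metric.isOpen_ball.measurableSet (hasF hC) (inj hC) g
  rw [img hC] at h
  rw [h]
  refine hg.congr_fun (fun w _ => ?_) Metric.isOpen_ball.measurableSet
  simp only
  rw [IPC.det_mul, abs_of_nonneg (by positivity), smul_eq_mul]

/-- derivatives of inverse maps -/
theorem dinv {Ω : Set ℂ} {f F : ℂ → ℂ} {a : ℕ → ℂ} (hC : CMc Ω f F a) {w : ℂ}
    (hw : w ∈ Metric.ball (0 : ℂ) 1) : deriv f (F w) * deriv F w = 1 := by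
  have h1 : HasDerivAt F (deriv F w) w :=
    (hC.Fd.differentiableAt (Metric.isOpen_ball.mem_nhds hw)).hasDerivAt
  have h2 : HasDerivAt f (deriv f (F w)) (F w) :=
    (hC.fd.differentiableAt (hC.opn.mem_nhds (hC.Fm hw))).hasDerivAt
  have h3 : HasDerivAt (fun w => f (F w)) (deriv f (F w) * deriv F w) w := h2.comp w h1
  have h4 : HasDerivAt (fun w => f (F w)) 1 w := by
    refine (hasDerivAt_id w).congr_of_eventuallyEq ?_
    filter_upwards [Metric.isOpen_ball.mem_nhds hw] with x hx using hC.fF x hx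
  exact h3.unique h4

end IEn

open IEn in
theorem pr_En (h1 : StSm) (h2 : StV0) : StEn := by
  intro B lam K t m Ω f F a p hS hC hfin hK
  obtain ⟨hP, hwc, -, -, hvs, -, -, -, -, -, K', hK'0, hK'⟩ := h1 B lam m hS
  obtain ⟨hed, ⟨K2, hK20, hK2⟩, -⟩ := h2 B lam m hS
  have hO := hC.opn
  have hK0 : 0 ≤ K := (norm_nonneg _).trans (hK 0)
  have hfc : ContDiffOn ℝ 1 f Ω := (hC.fd.contDiffOn hO).restrict_scalars ℝ
  have hpf : ContDiffOn ℂ 1 (fun z => p.eval (f z)) Ω := by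
    refine DifferentiableOn.contDiffOn ?_ hO
    exact fun z hz => (hasH hC.fd hO p hz).differentiableAt.differentiableWithinAt
  have hpfR : ContDiffOn ℝ 1 (fun z => p.eval (f z)) Ω := hpf.restrict_scalars ℝ
  have hU : ContDiffOn ℝ 1 (U1 B lam m f p t) Ω := by
    unfold U1
    refine hvs.contDiffOn.mul ?_
    refine ContDiffOn.cexp ?_
    refine contDiffOn_const.mul ?_
    refine Complex.ofRealCLM.contDiff.comp_contDiffOn (contDiffOn_const.mul ?_)
    exact Complex.imCLM.contDiff.comp_contDiffOn hpfR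
  have hnorm : ∀ z ∈ Ω, ‖U1 B lam m f p t z‖ = ‖v0 B lam m z‖ := by
    intro z _
    unfold U1
    rw [norm_mul, mul_comm Complex.I, Complex.norm_exp_ofReal_mul_I, mul_one]
  have hHc : ContinuousOn (Hd f p) Ω := by
    unfold Hd
    refine ContinuousOn.mul ?_ ?_
    · exact p.derivative.continuous.comp_continuousOn hC.fd.continuousOn
    · exact (hC.fd.deriv hO).continuousOn
  have hHF : ∀ w ∈ Metric.ball (0 : ℂ) 1, Hd f p (F w) * deriv F w = p.derivative.eval w := by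
    intro w hw
    unfold Hd
    rw [hC.fF w hw, mul_assoc, dinv hC hw, mul_one]
  have hHFn : ∀ w ∈ Metric.ball (0 : ℂ) 1,
      ‖deriv F w‖ ^ 2 * ‖Hd f p (F w)‖ ^ 2 = ‖p.derivative.eval w‖ ^ 2 := by
    intro w hw
    rw [← hHF w hw, norm_mul]
    ring
  have hpI : IntegrableOn (fun w : ℂ => ‖p.derivative.eval w‖ ^ 2) (Metric.ball (0 : ℂ) 1) := by
    have hc : Continuous (fun w : ℂ => ‖p.derivative.eval w‖ ^ 2) :=
      (p.derivative.continuous.norm).pow 2
    exact (hc.continuousOn.integrableOn_compact (isCompact_closedBall (0 : ℂ) 1)).mono_set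
      Metric.ball_subset_closedBall
  have hI2 : IntegrableOn (fun z => ‖Hd f p z‖ ^ 2) Ω := by
    refine covI hC _ (hpI.congr_fun (fun w hw => (hHFn w hw).symm)
      Metric.isOpen_ball.measurableSet)
  have hNN : ∫ z in Ω, ‖Hd f p z‖ ^ 2 = NN p := by
    rw [covR hC]
    exact setIntegral_congr_fun Metric.isOpen_ball.measurableSet (fun w hw => hHFn w hw)
  have hIV : IntegrableOn (fun z => ‖v0 B lam m z‖ ^ 2 * ‖Hd f p z‖ ^ 2) Ω := by
    refine (hI2.const_mul (K ^ 2)).mono' ?_ ?_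
    · exact ((hvs.continuous.norm.pow 2).continuousOn.mul (hHc.norm.pow 2)).aestronglyMeasurable
        hO.measurableSet
    · refine Eventually.of_forall fun z => ?_
      rw [Real.norm_eq_abs, abs_of_nonneg (by positivity)]
      exact mul_le_mul_of_nonneg_right (pow_le_pow_left₀ (norm_nonneg _) (hK z) 2) (by positivity)
  have hone : IntegrableOn (fun _ : ℂ => (1 : ℝ)) Ω := integrableOn_const hfin
  have hIW : IntegrableOn (fun z => ww B lam m (‖z‖ ^ 2) * (z * Hd f p z).re) Ω := by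
    refine ((hone.add hI2).const_mul K').mono' ?_ ?_
    · refine ContinuousOn.aestronglyMeasurable ?_ hO.measurableSet
      refine ContinuousOn.mul ?_ ?_
      · exact (hwc.continuous.comp (continuous_norm.pow 2)).continuousOn
      · exact Complex.continuous_re.comp_continuousOn (continuousOn_id.mul hHc)
    · refine Eventually.of_forall fun z => ?_
      have e1 : |ww B lam m (‖z‖ ^ 2)| * ‖z‖ ≤ K' := (hK' z).2
      have e2 : |(z * Hd f p z).re| ≤ ‖z‖ * ‖Hd f p z‖ := by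
        rw [← norm_mul]
        exact Complex.abs_re_le_norm _
      have e3 : ‖Hd f p z‖ ≤ 1 + ‖Hd f p z‖ ^ 2 := by
        nlinarith [norm_nonneg (Hd f p z), sq_nonneg (‖Hd f p z‖ - 1)]
      rw [Real.norm_eq_abs, abs_mul]
      calc |ww B lam m (‖z‖ ^ 2)| * |(z * Hd f p z).re|
          ≤ |ww B lam m (‖z‖ ^ 2)| * (‖z‖ * ‖Hd f p z‖) :=
            mul_le_mul_of_nonneg_left e2 (abs_nonneg _)
        _ = (|ww B lam m (‖z‖ ^ 2)| * ‖z‖) * ‖Hd f p z‖ := by ring
        _ ≤ K' * ‖Hd f p z‖ := mul_le_mul_of_nonneg_right e1 (norm_nonneg _)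
        _ ≤ K' * (1 + ‖Hd f p z‖ ^ 2) := mul_le_mul_of_nonneg_left e3 hK'0.le
  have hIE : IntegrableOn (fun z => edC B (v0 B lam m) z) Ω := by
    refine (hone.const_mul K2).mono' ?_ ?_
    · exact hed.aestronglyMeasurable.restrict
    · refine Eventually.of_forall fun z => ?_
      have h0 : 0 ≤ edC B (v0 B lam m) z := by unfold edC; positivity
      rw [Real.norm_eq_abs, abs_of_nonneg h0]
      simpa using (hK2 z).2
  have hLL : ∫ z in Ω, ww B lam m (‖z‖ ^ 2) * (z * Hd f p z).re = LL B lam m F p := by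
    rw [covR hC]
    refine setIntegral_congr_fun Metric.isOpen_ball.measurableSet (fun w hw => ?_)
    show ‖deriv F w‖ ^ 2 * (ww B lam m (‖F w‖ ^ 2) * (F w * Hd f p (F w)).re)
      = ww B lam m (‖F w‖ ^ 2) * (F w * (starRingEnd ℂ) (deriv F w) * p.derivative.eval w).re
    have e1 : ‖deriv F w‖ ^ 2 * (F w * Hd f p (F w)).re
        = (F w * (starRingEnd ℂ) (deriv F w) * p.derivative.eval w).re := by
      rw [← hHF w hw, ← Complex.re_ofReal_mul]
      congr 1
      have h6 : deriv F w * (starRingEnd ℂ) (deriv F w) = ((‖deriv F w‖ ^ 2 : ℝ) : ℂ) := by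
        rw [Complex.mul_conj, Complex.normSq_eq_norm_sq]
      rw [← h6]
      ring
    rw [← e1]
    ring
  have hsum : IntegrableOn (fun z => edC B (U1 B lam m f p t) z) Ω := by
    have h := (hIE.add (hIW.const_mul (2 * t))).add (hIV.const_mul (t ^ 2))
    exact IntegrableOn.congr_fun h (fun z hz => (den hC.fd hO hP hvs hz).symm) hO.measurableSet
  have hval : ∫ z in Ω, edC B (U1 B lam m f p t) z = (∫ z in Ω, edC B (v0 B lam m) z)
      + 2 * t * LL B lam m F p + t ^ 2 * ∫ z in Ω, ‖v0 B lam m z‖ ^ 2 * ‖Hd f p z‖ ^ 2 := by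
    have e1 := setIntegral_congr_fun (μ := (volume : Measure ℂ)) hO.measurableSet
      (fun z hz => den (B := B) (lam := lam) (t := t) (m := m) (p := p) hC.fd hO hP hvs hz)
    have e2 : ∫ z in Ω, (edC B (v0 B lam m) z
        + 2 * t * (ww B lam m (‖z‖ ^ 2) * (z * Hd f p z).re)
        + t ^ 2 * (‖v0 B lam m z‖ ^ 2 * ‖Hd f p z‖ ^ 2))
        = (∫ z in Ω, (edC B (v0 B lam m) z
          + 2 * t * (ww B lam m (‖z‖ ^ 2) * (z * Hd f p z).re)))
          + ∫ z in Ω, t ^ 2 * (‖v0 B lam m z‖ ^ 2 * ‖Hd f p z‖ ^ 2) :=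
      integral_add (hIE.add (hIW.const_mul (2 * t))) (hIV.const_mul (t ^ 2))
    have e3 : ∫ z in Ω, (edC B (v0 B lam m) z
          + 2 * t * (ww B lam m (‖z‖ ^ 2) * (z * Hd f p z).re))
        = (∫ z in Ω, edC B (v0 B lam m) z)
          + ∫ z in Ω, 2 * t * (ww B lam m (‖z‖ ^ 2) * (z * Hd f p z).re) :=
      integral_add hIE (hIW.const_mul (2 * t))
    rw [e1, e2, e3, integral_const_mul, integral_const_mul, hLL]
  have hle : ∫ z in Ω, ‖v0 B lam m z‖ ^ 2 * ‖Hd f p z‖ ^ 2 ≤ K ^ 2 * NN p := by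
    rw [← hNN, ← integral_const_mul]
    refine integral_mono hIV (hI2.const_mul _) fun z => ?_
    exact mul_le_mul_of_nonneg_right (pow_le_pow_left₀ (norm_nonneg _) (hK z) 2) (by positivity)
  have hnn : ∀ z, 0 ≤ edC B (U1 B lam m f p t) z := fun z => by unfold edC; positivity
  have hlin : (∫⁻ z in Ω, ENNReal.ofReal (edC B (U1 B lam m f p t) z))
      = ENNReal.ofReal (∫ z in Ω, edC B (U1 B lam m f p t) z) :=
    (ofReal_integral_eq_lintegral_ofReal hsum (Eventually.of_forall hnn)).symm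
  refine ⟨hU, hnorm, ?_, ?_⟩
  · rw [hlin]
    exact ENNReal.ofReal_ne_top
  · rw [hlin, ENNReal.toReal_ofReal (integral_nonneg hnn), hval]
    nlinarith [mul_le_mul_of_nonneg_left hle (sq_nonneg t)]

end Pool.Agent.MFK.L1
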