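import Pool.Agent.Work.MP_8826fd_mp.L1.Stmts
import Pool.Agent.Work.MP_8826fd_mp.NF.I_Fin
import Pool.Agent.Work.MP_8826fd_mp.CD.I_Fin

/-! # [8826fd L1] item FinL: scaling and translation of the theorem -/

set_option autoImplicit false

namespace Pool.Agent.MFK.L1

open MeasureTheory Set Filter Topology Pool.Agent.MFK.NF Pool.Agent.MFK.CD

namespace IFinL

/-- the centre in the plane -/
noncomputable def ctr (q₀ : ℝ × ℝ) (R : ℝ) (q : ℂ) : ℝ × ℝ := (q₀.1 + R * q.re, q₀.2 + R * q.im)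

theorem aff_ball (q₀ : ℝ × ℝ) {R : ℝ} (hR : 0 < R) (q : ℂ) :
    Sc.aff q₀ R '' toR (Metric.ball q 1) = edisc (ctr q₀ R q) R := by
  rw [Sc.aff_image hR]
  ext x
  show ((⟨R⁻¹ * (x.1 - q₀.1), R⁻¹ * (x.2 - q₀.2)⟩ : ℂ) ∈ Metric.ball q 1) ↔
    (x.1 - (q₀.1 + R * q.re)) ^ 2 + (x.2 - (q₀.2 + R * q.im)) ^ 2 < R ^ 2
  rw [mem_ball_iff_norm, CD.IFin.norm_sub_eq (R⁻¹ * (x.1 - q₀.1), R⁻¹ * (x.2 - q₀.2)) q,
    Real.sqrt_lt' one_pos]
  show (R⁻¹ * (x.1 - q₀.1) - q.re) ^ 2 + (R⁻¹ * (x.2 - q₀.2) - q.im) ^ 2 < 1 ^ 2 ↔ _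
  have h : (x.1 - (q₀.1 + R * q.re)) ^ 2 + (x.2 - (q₀.2 + R * q.im)) ^ 2 =
      R ^ 2 * ((R⁻¹ * (x.1 - q₀.1) - q.re) ^ 2 + (R⁻¹ * (x.2 - q₀.2) - q.im) ^ 2) := by
    field_simp
    ring
  rw [h]
  have h2 : (0 : ℝ) < R ^ 2 := by positivity
  constructor
  · intro h1
    nlinarith [pow_pos hR 2]
  · intro h1
    by_contra h3
    rw [not_lt, one_pow] at h3
    nlinarith

theorem int_eq (q₀ : ℝ × ℝ) {R : ℝ} (hR : 0 < R) (q : ℂ) {S : Set ℂ} (hS : IsOpen S) :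
    (∫ x in symmDiff (Sc.aff q₀ R '' toR S) (edisc (ctr q₀ R q) R),
      min |Real.sqrt ((x.1 - (ctr q₀ R q).1) ^ 2 + (x.2 - (ctr q₀ R q).2) ^ 2) - R| R)
      = R ^ 3 * dft q 1 S := by
  rw [← aff_ball q₀ hR q, ← Set.image_symmDiff (Sc.aff_inj hR q₀), ← CD.IFin.toR_symmDiff]
  have hm : MeasurableSet (toR (symmDiff S (Metric.ball q 1))) :=
    CD.IFin.meas_toR (hS.measurableSet.symmDiff Metric.isOpen_ball.measurableSet)
  rw [integral_image_eq_integral_abs_det_fderiv_smul (volume : Measure (ℝ × ℝ))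
    hm (fun x _ => Sc.hasFDeriv_aff q₀ R _ x) (Sc.aff_inj hR q₀).injOn]
  have h1 : ∀ y : ℝ × ℝ, |(R • ContinuousLinearMap.id ℝ (ℝ × ℝ)).det| •
      min |Real.sqrt (((Sc.aff q₀ R y).1 - (ctr q₀ R q).1) ^ 2 +
        ((Sc.aff q₀ R y).2 - (ctr q₀ R q).2) ^ 2) - R| R
      = R ^ 3 * (fun z : ℂ => min |‖z - q‖ - 1| 1) ⟨y.1, y.2⟩ := by
    intro y
    rw [Sc.det_aff R hR, smul_eq_mul]
    have h2 : Real.sqrt (((Sc.aff q₀ R y).1 - (ctr q₀ R q).1) ^ 2 +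
        ((Sc.aff q₀ R y).2 - (ctr q₀ R q).2) ^ 2) = R * ‖(⟨y.1, y.2⟩ : ℂ) - q‖ := by
      rw [CD.IFin.norm_sub_eq]
      have h3 : ((Sc.aff q₀ R y).1 - (ctr q₀ R q).1) ^ 2 +
          ((Sc.aff q₀ R y).2 - (ctr q₀ R q).2) ^ 2 =
          R ^ 2 * ((y.1 - q.re) ^ 2 + (y.2 - q.im) ^ 2) := by
        show (q₀.1 + R * y.1 - (q₀.1 + R * q.re)) ^ 2 +
          (q₀.2 + R * y.2 - (q₀.2 + R * q.im)) ^ 2 = _
        ring
      rw [h3, Real.sqrt_mul (by positivity), Real.sqrt_sq hR.le]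
    rw [h2, CD.IFin.scale hR]
    ring
  simp only [h1]
  rw [integral_const_mul]
  congr 1
  exact CD.IFin.int_toR (symmDiff S (Metric.ball q 1)) (fun z : ℂ => min |‖z - q‖ - 1| 1)

theorem meas_le (q₀ : ℝ × ℝ) {R : ℝ} (hR : 0 < R) (Ω : Set (ℝ × ℝ)) (hO : IsOpen (NF.IFin.nd q₀ R Ω))
    (e : ℝ) (h : volume (Ω \ edisc q₀ R) ≤ ENNReal.ofReal (R ^ 2 * e)) :
    volume (NF.IFin.nd q₀ R Ω \ Metric.ball 0 1) ≤ ENNReal.ofReal e := by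
  have e1 := NF.IFin.vol_aff q₀ hR (toR (NF.IFin.nd q₀ R Ω \ Metric.ball 0 1))
  have e2 : toR (NF.IFin.nd q₀ R Ω \ Metric.ball 0 1) = toR (NF.IFin.nd q₀ R Ω) \ disc := by
    rw [← NF.IFin.toR_ball]
    rfl
  have e3 : Sc.aff q₀ R '' toR (NF.IFin.nd q₀ R Ω \ Metric.ball 0 1) = Ω \ edisc q₀ R := by
    rw [e2, Set.image_sdiff (Sc.aff_inj hR q₀), NF.IFin.image_toR q₀ hR Ω, F2.edisc_image hR q₀]
  have e4 : volume (toR (NF.IFin.nd q₀ R Ω \ Metric.ball 0 1)) =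
      volume (NF.IFin.nd q₀ R Ω \ Metric.ball 0 1) := by
    have h1 : toR (NF.IFin.nd q₀ R Ω \ Metric.ball 0 1) =
        Complex.measurableEquivRealProd.symm ⁻¹' (NF.IFin.nd q₀ R Ω \ Metric.ball 0 1) := rfl
    rw [h1]
    exact (Complex.volume_preserving_equiv_real_prod.symm).measure_preimage
      (hO.measurableSet.diff Metric.isOpen_ball.measurableSet).nullMeasurableSet
  rw [e3, e4] at e1
  rw [e1, ENNReal.ofReal_mul (by positivity)] at h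
  have h0 : ENNReal.ofReal (R ^ 2) ≠ 0 := by
    rw [Ne, ENNReal.ofReal_eq_zero, not_le]
    positivity
  exact (ENNReal.mul_le_mul_iff_right h0 ENNReal.ofReal_ne_top).1 h

end IFinL

theorem pr_FinL (h1 : StMUL) : StFinL := by
  intro B R hB hR
  obtain ⟨ε, hε, c, hc, H⟩ := h1 (B * R ^ 2) (by positivity)
  refine ⟨R ^ 2 * ε, by positivity, c * ((R ^ 2)⁻¹ * (R ^ 3)⁻¹), by positivity,
    fun Ω q₀ hO hsc hvol hV => ?_⟩
  have hne := NF.IFin.nd_eq q₀ hR Ω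
  have hO' : IsOpen (NF.IFin.nd q₀ R Ω) := by
    rw [hne]
    exact hO.preimage (NF.IFin.hom q₀ hR).continuous
  have hsc' : IsSimplyConnected (NF.IFin.nd q₀ R Ω) := by
    rw [hne, Homeomorph.isSimplyConnected_preimage]
    exact hsc
  have himg := NF.IFin.image_toR q₀ hR Ω
  have hvol' : volume (NF.IFin.nd q₀ R Ω) = ENNReal.ofReal Real.pi := by
    have e1 := NF.IFin.vol_aff q₀ hR (toR (NF.IFin.nd q₀ R Ω))
    rw [himg, hvol, F3.vol_edisc 0 hR.le, NF.IFin.vol_toR hO', mul_comm Real.pi,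
      ENNReal.ofReal_mul (by positivity)] at e1
    have h0 : ENNReal.ofReal (R ^ 2) ≠ 0 := by
      rw [Ne, ENNReal.ofReal_eq_zero, not_le]
      positivity
    exact ((ENNReal.mul_right_inj h0 ENNReal.ofReal_ne_top).1 e1).symm
  have hV' := IFinL.meas_le q₀ hR Ω hO' ε hV
  obtain ⟨q, hle, heq⟩ := H (NF.IFin.nd q₀ R Ω) hO' hsc' hvol' hV'
  have s1 : lamN B Ω = (R ^ 2)⁻¹ * lamN (B * R ^ 2) (toR (NF.IFin.nd q₀ R Ω)) := by
    have h2 := sc B R q₀ (toR (NF.IFin.nd q₀ R Ω)) hR (NF.IFin.isOpen_toR hO')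
    rw [← h2]
    congr 1
    exact himg.symm
  have s2 : lamN B (edisc 0 R) = (R ^ 2)⁻¹ * lamN (B * R ^ 2) disc := by
    have h2 := sc B R 0 disc hR NF.IFin.isOpen_disc
    rw [← h2]
    congr 1
    exact F2.edisc_image hR 0
  have hR2 : (0 : ℝ) < (R ^ 2)⁻¹ := by positivity
  refine ⟨IFinL.ctr q₀ R q, ?_, fun he => ?_⟩
  · have h5 := IFinL.int_eq q₀ hR q hO'
    rw [himg] at h5
    rw [h5, s1, s2]
    have h6 : c * ((R ^ 2)⁻¹ * (R ^ 3)⁻¹) * (R ^ 3 * dft q 1 (NF.IFin.nd q₀ R Ω)) =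
        (R ^ 2)⁻¹ * (c * dft q 1 (NF.IFin.nd q₀ R Ω)) := by
      field_simp
    rw [h6, ← mul_sub]
    exact mul_le_mul_of_nonneg_left hle hR2.le
  · rw [s1, s2] at he
    have h3 := heq (mul_left_cancel₀ hR2.ne' he)
    rw [← IFinL.aff_ball q₀ hR q, ← h3]
    exact himg.symm

end Pool.Agent.MFK.L1
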