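import Pool.Agent.Work.MP_8826fd_mp.L1.Stmts
import Pool.Agent.Work.MP_8826fd_mp.CD.I_CMx

/-!
# MP_8826fd_mp, block L1, item Gap (assembly: domains which miss a point of the disc)
-/

set_option autoImplicit false

namespace Pool.Agent.MFK.L1

open MeasureTheory Set Filter Topology Pool.Agent.MFK.NF Pool.Agent.MFK.CD

namespace IGap

theorem vol_ball : volume (Metric.ball (0 : ℂ) 1) = ENNReal.ofReal Real.pi := by
  rw [Complex.volume_ball]
  simp only [ENNReal.ofReal_one, one_pow, one_mul]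
  rw [← NNReal.coe_real_pi, ENNReal.ofReal_coe_nnreal]

theorem diff_eq {A D : Set ℂ} (hA : MeasurableSet A) (hD : MeasurableSet D)
    (h : volume A = volume D) (hf : volume D ≠ ⊤) : volume (D \ A) = volume (A \ D) := by
  have h1 := measure_inter_add_sdiff (μ := volume) A hD
  have h2 := measure_inter_add_sdiff (μ := volume) D hA
  rw [inter_comm] at h2
  have h3 : volume (A ∩ D) ≠ ⊤ := ne_top_of_le_ne_top hf (measure_mono inter_subset_right)
  rw [h, ← h2] at h1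
  exact ((ENNReal.add_right_inj h3).1 h1).symm

theorem intg {G : ℂ → ℝ} {C : ℝ} (hGc : Continuous G) (hC : ∀ z, |G z| ≤ C) {A : Set ℂ}
    (hf : volume A ≠ ⊤) : IntegrableOn G A := by
  refine Measure.integrableOn_of_bounded hf hGc.aestronglyMeasurable (M := C) ?_
  exact Eventually.of_forall fun z => by rw [Real.norm_eq_abs]; exact hC z

theorem key {A D : Set ℂ} {G : ℂ → ℝ} {C ε : ℝ} (hGc : Continuous G) (hC : ∀ z, |G z| ≤ C)
    (hA : MeasurableSet A) (hD : MeasurableSet D) (h : volume A = volume D) (hf : volume D ≠ ⊤)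
    (hε : 0 ≤ ε) (hd : volume (A \ D) ≤ ENNReal.ofReal ε) (h0 : (∫ z in D, G z) = 0) :
    (∫ z in A, G z) ≤ 2 * (C * ε) := by
  have hfA : volume A ≠ ⊤ := by rw [h]; exact hf
  have hC0 : 0 ≤ C := (abs_nonneg _).trans (hC 0)
  have hd2 : volume (D \ A) ≤ ENNReal.ofReal ε := by rw [diff_eq hA hD h hf]; exact hd
  have e1 := integral_inter_add_sdiff hD (intg hGc hC hfA)
  have e2 := integral_inter_add_sdiff hA (intg hGc hC hf)
  rw [inter_comm, h0] at e2
  have b : ∀ S : Set ℂ, volume S ≤ ENNReal.ofReal ε → |∫ z in S, G z| ≤ C * ε := by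
    intro S hS
    have h1 : volume S < ⊤ := hS.trans_lt ENNReal.ofReal_lt_top
    have h2 := norm_setIntegral_le_of_norm_le_const (f := G) (C := C) h1
      (fun z _ => by rw [Real.norm_eq_abs]; exact hC z)
    rw [Real.norm_eq_abs] at h2
    refine h2.trans (mul_le_mul_of_nonneg_left ?_ hC0)
    rw [measureReal_def]
    exact ENNReal.toReal_le_of_le_ofReal hε hS
  have b1 := (abs_le.1 (b _ hd)).2
  have b2 := (abs_le.1 (b _ hd2)).1
  linarith

theorem v0_cont {B lam : ℝ} {m : ℕ} (S : Sp B lam m) : Continuous (v0 B lam m) := by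
  have h1 : Continuous (FK B lam (m : ℤ)) := (gk_rad S.hB S.lam_lt m).smooth.continuous
  have h2 : Continuous (fun z : ℂ => ‖z‖ ^ 2) := continuous_norm.pow 2
  have h3 : Continuous (fun z : ℂ => Pc B lam m (‖z‖ ^ 2)) :=
    (h1.comp h2).mul (Real.smoothTransition.continuous.comp (continuous_const.sub h2))
  exact (continuous_id.pow m).mul (Complex.continuous_ofReal.comp h3)

end IGap

open IGap in
theorem pr_Gap (h1 : StV0) (h2 : StEn) (h3 : StLow) : StGap := by
  intro B lam h m S hh0 hh1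
  obtain ⟨hcont, ⟨K, hK, hb⟩, hzero⟩ := h1 B lam m S
  obtain ⟨η, hη, ε₀, hε₀, hlow⟩ := h3 B lam h m S hh0 hh1
  have hlam := S.lam_pos
  have hpi := Real.pi_pos
  set v := v0 B lam m with hv
  set C : ℝ := K + lam * K ^ 2 with hCdef
  have hC0 : 0 < C := by positivity
  have hed0 : ∀ z, 0 ≤ edC B v z := fun z => by unfold edC; positivity
  refine ⟨min ε₀ (η ^ 2 / (4 * C * K ^ 2)), by positivity, η ^ 2 / (2 * K ^ 4 * Real.pi),
    by positivity, ?_⟩
  intro Ω hO hsc hvol hdiff hp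
  set ε : ℝ := min ε₀ (η ^ 2 / (4 * C * K ^ 2)) with hεdef
  have hε0 : 0 ≤ ε := by positivity
  have hmΩ : MeasurableSet Ω := hO.measurableSet
  have hmD : MeasurableSet (Metric.ball (0 : ℂ) 1) := Metric.isOpen_ball.measurableSet
  have hfin : volume Ω ≠ ⊤ := by rw [hvol]; exact ENNReal.ofReal_ne_top
  have hne : Ω ≠ univ := by
    intro h'
    rw [h', CD.ICMx.vol_univ] at hvol
    exact ENNReal.ofReal_ne_top hvol.symm
  have hnon : Ω.Nonempty := by
    rw [nonempty_iff_ne_empty]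
    intro h'
    rw [h', measure_empty] at hvol
    have : 0 < ENNReal.ofReal Real.pi := ENNReal.ofReal_pos.2 hpi
    rw [← hvol] at this
    exact lt_irrefl _ this
  obtain ⟨q, hq⟩ := hnon
  obtain ⟨f, F, hf, hF, hfm, hFm, hfF, hFf, _⟩ := pr_C1p Ω q hO hsc hne hq
  have hCM : CMc Ω f F (fun j : ℕ => (j.factorial : ℂ)⁻¹ * iteratedDeriv j F 0) :=
    ⟨⟨hF, IC2.taylor hF⟩, hO, hf, hfm, hFm, hfF, hFf⟩
  have hveq : volume Ω = volume (Metric.ball (0 : ℂ) 1) := by rw [hvol, vol_ball]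
  have hfinD : volume (Metric.ball (0 : ℂ) 1) ≠ ⊤ := by rw [← hveq]; exact hfin
  have hdiff2 : volume (Metric.ball (0 : ℂ) 1 \ Ω) ≤ ENNReal.ofReal ε₀ := by
    rw [diff_eq hmΩ hmD hveq hfinD]
    exact hdiff.trans (ENNReal.ofReal_le_ofReal (min_le_left _ _))
  obtain ⟨p, hp1, hp2⟩ := hlow Ω f F _ hCM hsc hfin hdiff2 hp
  set t : ℝ := -(η / K ^ 2) with ht
  obtain ⟨hU, hUn, hUf, hUe⟩ := h2 B lam K t m Ω f F _ p S hCM hfin (fun z => (hb z).1)
  have hcv : Continuous v := v0_cont S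
  have hvc : Continuous (fun z => ‖v z‖ ^ 2) := hcv.norm.pow 2
  have hvb : ∀ z, |‖v z‖ ^ 2| ≤ K ^ 2 := by
    intro z
    rw [abs_of_nonneg (by positivity)]
    exact pow_le_pow_left₀ (norm_nonneg _) (hb z).1 2
  have hi1 : IntegrableOn (fun z => ‖v z‖ ^ 2) Ω := intg hvc hvb hfin
  have hi2 : IntegrableOn (fun z => edC B v z) Ω :=
    intg hcont (fun z => by rw [abs_of_nonneg (hed0 z)]; exact (hb z).2) hfin
  set U := U1 B lam m f p t with hUdef
  -- the mass
  have hM : (∫⁻ z in Ω, ENNReal.ofReal (‖U z‖ ^ 2)) = ENNReal.ofReal (∫ z in Ω, ‖v z‖ ^ 2) := by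
    rw [ofReal_integral_eq_lintegral_ofReal hi1 (Eventually.of_forall fun z => by positivity)]
    exact setLIntegral_congr_fun hmΩ (fun z hz => by simp only [hUn z hz]; rfl)
  have hM0 : 0 ≤ ∫ z in Ω, ‖v z‖ ^ 2 := integral_nonneg fun z => by positivity
  set M : ℝ := ∫ z in Ω, ‖v z‖ ^ 2 with hMdef
  have hMle : M ≤ K ^ 2 * Real.pi := by
    have h4 := norm_setIntegral_le_of_norm_le_const (f := fun z => ‖v z‖ ^ 2) (C := K ^ 2)
      (lt_top_iff_ne_top.2 hfin) (fun z _ => by rw [Real.norm_eq_abs]; exact hvb z)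
    rw [measureReal_def, hvol, ENNReal.toReal_ofReal hpi.le] at h4
    exact (le_abs_self _).trans h4
  -- the energy
  have hG : Continuous (fun z => edC B v z - lam * ‖v z‖ ^ 2) :=
    hcont.sub (continuous_const.mul hvc)
  have hGb : ∀ z, |edC B v z - lam * ‖v z‖ ^ 2| ≤ C := by
    intro z
    refine (abs_sub _ _).trans ?_
    rw [abs_of_nonneg (hed0 z), abs_mul, abs_of_pos hlam]
    exact add_le_add (hb z).2 (mul_le_mul_of_nonneg_left (hvb z) hlam.le)
  have hk := key hG hGb hmΩ hmD hveq hfinD hε0 hdiff hzero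
  have hsplit : (∫ z in Ω, (edC B v z - lam * ‖v z‖ ^ 2)) = (∫ z in Ω, edC B v z) - lam * M := by
    rw [integral_sub hi2 (hi1.const_mul lam), integral_const_mul]
  rw [hsplit] at hk
  have hε1 : 2 * (C * ε) ≤ η ^ 2 / (2 * K ^ 2) := by
    have h4 : ε ≤ η ^ 2 / (4 * C * K ^ 2) := min_le_right _ _
    have h5 : C * ε ≤ C * (η ^ 2 / (4 * C * K ^ 2)) := mul_le_mul_of_nonneg_left h4 hC0.le
    have h6 : C * (η ^ 2 / (4 * C * K ^ 2)) = η ^ 2 / (4 * K ^ 2) := by
      field_simp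
    have h7 : 2 * (η ^ 2 / (4 * K ^ 2)) = η ^ 2 / (2 * K ^ 2) := by
      field_simp
      ring
    linarith
  have hgain : 2 * t * LL B lam m F p + t ^ 2 * K ^ 2 * NN p ≤ -(η ^ 2 / K ^ 2) := by
    have h4 : t ^ 2 * K ^ 2 = η ^ 2 / K ^ 2 := by
      rw [ht]
      field_simp
    have h5 : 2 * t * LL B lam m F p ≤ 2 * t * η := by
      have : t ≤ 0 := by
        rw [ht]
        have : 0 < η / K ^ 2 := by positivity
        linarith
      nlinarith
    have h6 : 2 * t * η = -(2 * (η ^ 2 / K ^ 2)) := by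
      rw [ht]
      ring
    have h7 : t ^ 2 * K ^ 2 * NN p ≤ t ^ 2 * K ^ 2 * 1 :=
      mul_le_mul_of_nonneg_left hp1 (by positivity)
    rw [mul_one, h4] at h7
    rw [h6] at h5
    rw [← h4] at *
    linarith
  have hhalf : η ^ 2 / (2 * K ^ 2) = η ^ 2 / K ^ 2 / 2 := by
    field_simp
  have hE : (∫⁻ z in Ω, ENNReal.ofReal (edC B U z)).toReal ≤ lam * M - η ^ 2 / (2 * K ^ 2) := by
    linarith
  have hEn : 0 ≤ (∫⁻ z in Ω, ENNReal.ofReal (edC B U z)).toReal := ENNReal.toReal_nonneg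
  have hpos : 0 < η ^ 2 / (2 * K ^ 2) := by positivity
  have hMpos : 0 < M := by
    by_contra h'
    have : lam * M ≤ 0 := mul_nonpos_of_nonneg_of_nonpos hlam.le (not_lt.1 h')
    linarith
  refine pr_Ray B (lam - η ^ 2 / (2 * K ^ 4 * Real.pi)) Ω U hO hU hUf ?_ ?_ ?_
  · rw [hM]; exact ENNReal.ofReal_ne_top
  · rw [hM]
    exact (ENNReal.ofReal_pos.2 hMpos).ne'
  · rw [hM, ENNReal.toReal_ofReal hM0]
    have h4 : η ^ 2 / (2 * K ^ 4 * Real.pi) * M ≤ η ^ 2 / (2 * K ^ 4 * Real.pi) * (K ^ 2 * Real.pi) :=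
      mul_le_mul_of_nonneg_left hMle (by positivity)
    have h5 : η ^ 2 / (2 * K ^ 4 * Real.pi) * (K ^ 2 * Real.pi) = η ^ 2 / (2 * K ^ 2) := by
      field_simp
    rw [sub_mul]
    linarith

end Pool.Agent.MFK.L1
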