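import Pool.Agent.Work.MP_8826fd_mp.L1.Stmts

/-! MP_8826fd_mp, block L1, item Grn (helper28): Green's identity on the disc. -/

set_option autoImplicit false

namespace Pool.Agent.MFK.L1

open MeasureTheory Set Filter Topology Pool.Agent.MFK.NF Pool.Agent.MFK.CD

namespace IGrn

/-- unit vector -/
noncomputable def E (θ : ℝ) : ℂ := Complex.exp (Complex.I * θ)

theorem pcE (r θ : ℝ) : pc r θ = (r : ℂ) * E θ := rfl

theorem norm_E (θ : ℝ) : ‖E θ‖ = 1 := by
  unfold E
  rw [mul_comm]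
  exact Complex.norm_exp_ofReal_mul_I θ

/-- the polar map -/
noncomputable def P (x : ℝ × ℝ) : ℂ := pc x.1 x.2

/-- its derivative -/
noncomputable def P' (x : ℝ × ℝ) : ℝ × ℝ →L[ℝ] ℂ :=
  (ContinuousLinearMap.fst ℝ ℝ ℝ).smulRight (E x.2) + (ContinuousLinearMap.snd ℝ ℝ ℝ).smulRight (Complex.I * P x)

/-- derivative of the unit vector -/
noncomputable def E' (x : ℝ × ℝ) : ℝ × ℝ →L[ℝ] ℂ :=
  (ContinuousLinearMap.snd ℝ ℝ ℝ).smulRight (Complex.I * E x.2)

theorem hasE (θ : ℝ) : HasDerivAt E (Complex.I * E θ) θ := by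
  unfold E
  have h1 : HasDerivAt (fun θ : ℝ => Complex.I * (θ : ℂ)) (Complex.I * 1) θ :=
    (Complex.ofRealCLM.hasDerivAt (x := θ)).const_mul Complex.I
  have h2 := h1.cexp
  rw [mul_one, mul_comm (Complex.exp _)] at h2
  exact h2

theorem hasE' (x : ℝ × ℝ) : HasFDerivAt (fun x : ℝ × ℝ => E x.2) (E' x) x := by
  have h1 := (hasE x.2).hasFDerivAt.comp x (hasFDerivAt_snd (𝕜 := ℝ) (E := ℝ) (F := ℝ) (p := x))
  refine h1.congr_fderiv ?_
  ext <;> simp [E']

theorem hasP (x : ℝ × ℝ) : HasFDerivAt P (P' x) x := by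
  have h0 : HasFDerivAt (fun x : ℝ × ℝ => (x.1 : ℂ)) (Complex.ofRealCLM.comp (ContinuousLinearMap.fst ℝ ℝ ℝ)) x :=
    (Complex.ofRealCLM.comp (ContinuousLinearMap.fst ℝ ℝ ℝ)).hasFDerivAt
  have h1 := h0.mul (hasE' x)
  refine h1.congr_fderiv ?_
  ext <;> simp [E', P', P, pcE] <;> ring

theorem P1 (x : ℝ × ℝ) : P' x (1, 0) = E x.2 := by simp [P']

theorem P2 (x : ℝ × ℝ) : P' x (0, 1) = Complex.I * P x := by simp [P']

theorem E1 (x : ℝ × ℝ) : E' x (1, 0) = 0 := by simp [E']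

theorem E2 (x : ℝ × ℝ) : E' x (0, 1) = Complex.I * E x.2 := by simp [E']

theorem conjE (θ : ℝ) : E θ * (starRingEnd ℂ) (E θ) = 1 := by
  rw [Complex.mul_conj, Complex.normSq_eq_norm_sq, norm_E]
  simp

/-- decomposition of the gradient of `Re p` -/
theorem dec (θ : ℝ) (c : ℂ) : (starRingEnd ℂ) c = ((E θ * c).re : ℝ) • E θ - ((E θ * c).im : ℝ) • (Complex.I * E θ) := by
  have h1 : (starRingEnd ℂ) c = E θ * (starRingEnd ℂ) (E θ * c) := by
    rw [map_mul, ← mul_assoc, conjE, one_mul]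
  rw [h1]
  generalize E θ = e
  generalize e * c = d
  have h2 : (starRingEnd ℂ) d = (d.re : ℂ) - (d.im : ℂ) * Complex.I := by
    apply Complex.ext <;> simp
  rw [h2, Complex.real_smul, Complex.real_smul]
  ring

theorem P_norm (x : ℝ × ℝ) : ‖P x‖ = |x.1| := by
  show ‖(x.1 : ℂ) * E x.2‖ = _
  rw [norm_mul, norm_E, mul_one, Complex.norm_real, Real.norm_eq_abs]

theorem contE : Continuous E := by
  unfold E
  fun_prop

theorem contP : Continuous P := by
  show Continuous (fun x : ℝ × ℝ => (x.1 : ℂ) * E x.2)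
  exact (Complex.continuous_ofReal.comp continuous_fst).mul (contE.comp continuous_snd)

/-- first component of the vector field -/
noncomputable def fa (U : ℂ → ℝ) (q : Polynomial ℂ) (x : ℝ × ℝ) : ℝ := U (P x) * (P x * q.eval (P x)).re

/-- second component -/
noncomputable def fb (U : ℂ → ℝ) (q : Polynomial ℂ) (x : ℝ × ℝ) : ℝ := -(U (P x) * (E x.2 * q.eval (P x)).im)

/-- the derivative of the polynomial along `P` -/
theorem hasq (q : Polynomial ℂ) (x : ℝ × ℝ) :
    HasFDerivAt (fun x => q.eval (P x)) ((q.derivative.eval (P x)) • P' x) x := by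
  have h1 : HasFDerivAt (fun w : ℂ => q.eval w)
      ((ContinuousLinearMap.toSpanSingleton ℂ (q.derivative.eval (P x))).restrictScalars ℝ : ℂ →L[ℝ] ℂ) (P x) :=
    ((q.hasDerivAt (P x)).hasFDerivAt).restrictScalars ℝ
  have h2 := h1.comp x (hasP x)
  refine h2.congr_fderiv ?_
  ext <;> simp [mul_comm]

theorem has_re {f : ℝ × ℝ → ℂ} {f' : ℝ × ℝ →L[ℝ] ℂ} {x : ℝ × ℝ} (h : HasFDerivAt f f' x) :
    HasFDerivAt (fun x => (f x).re) (Complex.reCLM.comp f') x :=
  Complex.reCLM.hasFDerivAt.comp x h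

theorem has_im {f : ℝ × ℝ → ℂ} {f' : ℝ × ℝ →L[ℝ] ℂ} {x : ℝ × ℝ} (h : HasFDerivAt f f' x) :
    HasFDerivAt (fun x => (f x).im) (Complex.imCLM.comp f') x :=
  Complex.imCLM.hasFDerivAt.comp x h

/-- derivative of the first component -/
noncomputable def fa' (U : ℂ → ℝ) (q : Polynomial ℂ) (x : ℝ × ℝ) : ℝ × ℝ →L[ℝ] ℝ :=
  U (P x) • Complex.reCLM.comp (P x • ((q.derivative.eval (P x)) • P' x) + q.eval (P x) • P' x)
    + (P x * q.eval (P x)).re • (fderiv ℝ U (P x)).comp (P' x)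

/-- derivative of the second component -/
noncomputable def fb' (U : ℂ → ℝ) (q : Polynomial ℂ) (x : ℝ × ℝ) : ℝ × ℝ →L[ℝ] ℝ :=
  -(U (P x) • Complex.imCLM.comp (E x.2 • ((q.derivative.eval (P x)) • P' x) + q.eval (P x) • E' x)
    + (E x.2 * q.eval (P x)).im • (fderiv ℝ U (P x)).comp (P' x))

theorem hasfa {U : ℂ → ℝ} {q : Polynomial ℂ} {x : ℝ × ℝ} (hU : DifferentiableAt ℝ U (P x)) :
    HasFDerivAt (fa U q) (fa' U q x) x :=
  (hU.hasFDerivAt.comp x (hasP x)).mul (has_re ((hasP x).mul (hasq q x)))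

theorem hasfb {U : ℂ → ℝ} {q : Polynomial ℂ} {x : ℝ × ℝ} (hU : DifferentiableAt ℝ U (P x)) :
    HasFDerivAt (fb U q) (fb' U q x) x :=
  ((hU.hasFDerivAt.comp x (hasP x)).mul (has_im ((hasE' x).mul (hasq q x)))).neg

/-- the divergence -/
theorem div_eq (U : ℂ → ℝ) (q : Polynomial ℂ) (x : ℝ × ℝ) :
    fa' U q x (1, 0) + fb' U q x (0, 1) = x.1 * fderiv ℝ U (P x) ((starRingEnd ℂ) (q.eval (P x))) := by
  have hP : P x = (x.1 : ℂ) * E x.2 := rfl
  have hIP : Complex.I * P x = (x.1 : ℝ) • (Complex.I * E x.2) := by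
    rw [Complex.real_smul, hP]
    ring
  rw [dec x.2 (q.eval (P x)), map_sub, map_smul, map_smul]
  simp only [fa', fb', add_apply, neg_apply, smul_apply,
    ContinuousLinearMap.comp_apply, P1, P2, E2, smul_eq_mul, Complex.reCLM_apply, Complex.imCLM_apply]
  rw [hIP, map_smul]
  have e1 : (P x * q.eval (P x)).re = x.1 * (E x.2 * q.eval (P x)).re := by
    rw [hP, mul_assoc, Complex.re_ofReal_mul]
  rw [e1]
  have e2 : (P x * (q.derivative.eval (P x) * E x.2) + q.eval (P x) * E x.2).re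
      = (E x.2 * (q.derivative.eval (P x) * x.1 • (Complex.I * E x.2)) + q.eval (P x) * (Complex.I * E x.2)).im := by
    have : E x.2 * (q.derivative.eval (P x) * x.1 • (Complex.I * E x.2)) + q.eval (P x) * (Complex.I * E x.2)
        = Complex.I * (P x * (q.derivative.eval (P x) * E x.2) + q.eval (P x) * E x.2) := by
      rw [Complex.real_smul]
      nth_rewrite 3 [hP]
      ring
    rw [this, Complex.I_mul_im]
  rw [e2, smul_eq_mul]
  ring

/-- polar coordinates for continuous functions -/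
theorem pol (h : ℂ → ℝ) (hc : ContinuousOn h (Metric.closedBall 0 1)) :
    (∫ w in Metric.ball (0 : ℂ) 1, h w) = ∫ r in (0 : ℝ)..1, ∫ θ in (-Real.pi)..Real.pi, r * h (pc r θ) := by
  have hb : MeasurableSet (Metric.ball (0 : ℂ) 1) := Metric.isOpen_ball.measurableSet
  have hpi : -Real.pi ≤ Real.pi := by linarith [Real.pi_pos]
  rw [← integral_indicator hb, ← Complex.integral_comp_polarCoord_symm]
  have hS : MeasurableSet ((Ioo (0 : ℝ) 1) ×ˢ (Ioo (-Real.pi) Real.pi)) := measurableSet_Ioo.prod measurableSet_Ioo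
  have h1 : (∫ p in polarCoord.target, p.1 • (Metric.ball (0 : ℂ) 1).indicator h (Complex.polarCoord.symm p))
      = ∫ p in (Ioo (0 : ℝ) 1) ×ˢ (Ioo (-Real.pi) Real.pi), p.1 * h (pc p.1 p.2) := by
    rw [← integral_indicator hS, ← integral_indicator polarCoord.open_target.measurableSet]
    congr 1
    funext p
    rw [polarCoord_target]
    by_cases hp : p ∈ Ioi (0 : ℝ) ×ˢ Ioo (-Real.pi) Real.pi
    · rw [indicator_of_mem hp]
      by_cases h2 : p.1 < 1
      · rw [indicator_of_mem (show p ∈ (Ioo (0 : ℝ) 1) ×ˢ (Ioo (-Real.pi) Real.pi) from ⟨⟨hp.1, h2⟩, hp.2⟩),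
          indicator_of_mem, ← IPC.pc_eq, smul_eq_mul]
        rw [← IPC.pc_eq, mem_ball_zero_iff, IPC.pc_norm (le_of_lt hp.1)]
        exact h2
      · rw [indicator_of_notMem (show p ∉ (Ioo (0 : ℝ) 1) ×ˢ (Ioo (-Real.pi) Real.pi) from fun hh => h2 hh.1.2),
          indicator_of_notMem, smul_zero]
        rw [← IPC.pc_eq, mem_ball_zero_iff, IPC.pc_norm (le_of_lt hp.1)]
        exact h2
    · rw [indicator_of_notMem hp, indicator_of_notMem]
      intro hh
      exact hp ⟨hh.1.1, hh.2⟩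
  rw [h1]
  have hcP : ContinuousOn (fun p : ℝ × ℝ => p.1 * h (pc p.1 p.2)) (Icc (0 : ℝ) 1 ×ˢ Icc (-Real.pi) Real.pi) := by
    refine continuousOn_fst.mul (hc.comp contP.continuousOn ?_)
    rintro p ⟨hp1, -⟩
    show P p ∈ Metric.closedBall (0 : ℂ) 1
    rw [mem_closedBall_zero_iff, P_norm, abs_of_nonneg hp1.1]
    exact hp1.2
  have hint : IntegrableOn (fun p : ℝ × ℝ => p.1 * h (pc p.1 p.2)) ((Ioo (0 : ℝ) 1) ×ˢ (Ioo (-Real.pi) Real.pi)) := by
    refine (hcP.integrableOn_compact (isCompact_Icc.prod isCompact_Icc)).mono_set ?_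
    exact prod_mono Ioo_subset_Icc_self Ioo_subset_Icc_self
  rw [Measure.volume_eq_prod] at hint ⊢
  rw [setIntegral_prod _ hint, intervalIntegral.integral_of_le zero_le_one, integral_Ioc_eq_integral_Ioo]
  refine setIntegral_congr_fun measurableSet_Ioo (fun r hr => ?_)
  simp only
  rw [intervalIntegral.integral_of_le hpi, integral_Ioc_eq_integral_Ioo]

end IGrn

open IGrn in
/-- Item Grn. -/
theorem pr_Grn : StGrn := by
  intro U₁ R' p hR hU
  have hpi : -Real.pi ≤ Real.pi := by linarith [Real.pi_pos]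
  have hsub : Metric.closedBall (0 : ℂ) 1 ⊆ Metric.ball 0 R' := Metric.closedBall_subset_ball hR
  have hdc : ContinuousOn (fderiv ℝ U₁) (Metric.ball 0 R') := hU.continuousOn_fderiv_of_isOpen Metric.isOpen_ball (by norm_num)
  set q := p.derivative with hq
  have hhc : ContinuousOn (fun w => fderiv ℝ U₁ w ((starRingEnd ℂ) (q.eval w))) (Metric.closedBall 0 1) := by
    refine (hdc.mono hsub).clm_apply ?_
    exact (Complex.continuous_conj.comp q.continuous).continuousOn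
  rw [pol _ hhc]
  have hmem : ∀ x : ℝ × ℝ, x ∈ uIcc (0 : ℝ) 1 ×ˢ uIcc (-Real.pi) Real.pi → P x ∈ Metric.closedBall (0 : ℂ) 1 := by
    rintro x ⟨hx, -⟩
    rw [uIcc_of_le zero_le_one] at hx
    rw [mem_closedBall_zero_iff, P_norm, abs_of_nonneg hx.1]
    exact hx.2
  have hdiff : ∀ x : ℝ × ℝ, x ∈ Ioo (min (0 : ℝ) 1) (max 0 1) ×ˢ Ioo (min (-Real.pi) Real.pi) (max (-Real.pi) Real.pi) →
      DifferentiableAt ℝ U₁ (P x) := by
    rintro x ⟨hx, -⟩
    rw [min_eq_left zero_le_one, max_eq_right zero_le_one] at hx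
    refine (hU.differentiableOn (by norm_num)).differentiableAt (Metric.isOpen_ball.mem_nhds (hsub ?_))
    rw [mem_closedBall_zero_iff, P_norm, abs_of_nonneg hx.1.le]
    exact hx.2.le
  have hUc : ContinuousOn U₁ (Metric.closedBall 0 1) := hU.continuousOn.mono hsub
  have hUP : ContinuousOn (fun x => U₁ (P x)) (uIcc (0 : ℝ) 1 ×ˢ uIcc (-Real.pi) Real.pi) :=
    hUc.comp contP.continuousOn hmem
  have hdv := MeasureTheory.integral2_divergence_prod_of_hasFDerivAt_off_countable (fa U₁ q) (fb U₁ q) (fa' U₁ q) (fb' U₁ q)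
    (0 : ℝ) (-Real.pi) 1 Real.pi ∅ countable_empty
    (hUP.mul (Complex.continuous_re.comp (contP.mul (q.continuous.comp contP))).continuousOn)
    (hUP.mul (Complex.continuous_im.comp ((contE.comp continuous_snd).mul (q.continuous.comp contP))).continuousOn).neg
    (fun x hx => hasfa (hdiff x hx.1)) (fun x hx => hasfb (hdiff x hx.1)) (by
      simp only [div_eq]
      refine ContinuousOn.integrableOn_compact (isCompact_uIcc.prod isCompact_uIcc) ?_
      exact continuousOn_fst.mul (hhc.comp contP.continuousOn hmem))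
  simp only [div_eq] at hdv
  have e1 : (∫ r in (0 : ℝ)..1, ∫ θ in (-Real.pi)..Real.pi, r * fderiv ℝ U₁ (pc r θ) ((starRingEnd ℂ) (q.eval (pc r θ))))
      = ∫ x in (0 : ℝ)..1, ∫ y in (-Real.pi)..Real.pi, x * fderiv ℝ U₁ (P (x, y)) ((starRingEnd ℂ) (q.eval (P (x, y)))) := rfl
  rw [e1, hdv]
  have hper : ∀ r : ℝ, fb U₁ q (r, Real.pi) = fb U₁ q (r, -Real.pi) := by
    intro r
    have h3 : E Real.pi = E (-Real.pi) := by
      have h4 : pc 1 (-Real.pi + 2 * Real.pi) = pc 1 (-Real.pi) := IPC.pc_per 1 (-Real.pi)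
      rw [pcE, pcE, show -Real.pi + 2 * Real.pi = Real.pi by ring] at h4
      simpa using h4
    unfold fb
    simp only [P, pcE, h3]
  simp only [hper, sub_self, zero_add]
  have h0 : ∀ y : ℝ, fa U₁ q (0, y) = 0 := by
    intro y
    simp [fa, P, pcE]
  simp only [h0, intervalIntegral.integral_zero, sub_zero]
  have hpf : Function.Periodic (fun y : ℝ => fa U₁ q (1, y)) (2 * Real.pi) := by
    intro y
    simp only [fa, P]
    rw [IPC.pc_per]
  have h5 := hpf.intervalIntegral_add_eq (-Real.pi) 0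
  rw [show -Real.pi + 2 * Real.pi = Real.pi by ring, zero_add] at h5
  rw [h5]
  rfl

end Pool.Agent.MFK.L1
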