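import Pool.Agent.Work.MP_8826fd_mp.L1.Stmts

/-!
# MP_8826fd_mp, block L1, item Inv: conformal invariance of the Dirichlet integral (helper51)
-/

set_option autoImplicit false

namespace Pool.Agent.MFK.L1

open MeasureTheory Set Filter Topology Pool.Agent.MFK.NF Pool.Agent.MFK.CD

namespace IInv

theorem lin (D : ℂ →L[ℝ] ℝ) (c : ℂ) : D c = c.re * D 1 + c.im * D Complex.I := by
  have h : c = c.re • (1 : ℂ) + c.im • Complex.I := by
    apply Complex.ext <;> simp
  conv_lhs => rw [h]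
  rw [map_add, map_smul, map_smul, smul_eq_mul, smul_eq_mul]

theorem gsq_comp {F : ℂ → ℂ} {H : ℂ → ℝ} {w : ℂ} (hF : DifferentiableAt ℂ F w)
    (hH : DifferentiableAt ℝ H (F w)) :
    gsq (fun w => H (F w)) w = ‖deriv F w‖ ^ 2 * gsq H (F w) := by
  have h1 : HasDerivAt F (deriv F w) w := hF.hasDerivAt
  have h2 : HasFDerivAt F
      ((ContinuousLinearMap.toSpanSingleton ℂ (deriv F w)).restrictScalars ℝ : ℂ →L[ℝ] ℂ) w :=
    h1.hasFDerivAt.restrictScalars ℝ
  have h3 : HasFDerivAt (fun w => H (F w)) ((fderiv ℝ H (F w)).comp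
      ((ContinuousLinearMap.toSpanSingleton ℂ (deriv F w)).restrictScalars ℝ : ℂ →L[ℝ] ℂ)) w :=
    hH.hasFDerivAt.comp w h2
  have e1 : fderiv ℝ (fun w => H (F w)) w 1 = fderiv ℝ H (F w) (deriv F w) := by
    rw [h3.fderiv]
    simp
  have e2 : fderiv ℝ (fun w => H (F w)) w Complex.I
      = fderiv ℝ H (F w) (Complex.I * deriv F w) := by
    rw [h3.fderiv]
    simp
  unfold gsq
  rw [e1, e2, lin _ (deriv F w), lin _ (Complex.I * deriv F w), Complex.sq_norm,
    Complex.normSq_apply]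
  simp only [Complex.mul_re, Complex.mul_im, Complex.I_re, Complex.I_im]
  ring

end IInv

theorem pr_Inv : StInv := by
  intro Ω f F a H hC hH
  have hinj : InjOn F (Metric.ball 0 1) := by
    intro w hw w' hw' hww
    rw [← hC.fF w hw, ← hC.fF w' hw', hww]
  have himg : F '' (Metric.ball 0 1) = Ω := by
    ext z
    constructor
    · rintro ⟨w, hw, rfl⟩
      exact hC.Fm hw
    · intro hz
      exact ⟨f z, hC.fm hz, hC.Ff z hz⟩
  have h0 : (∫⁻ z in Ω, ENNReal.ofReal (gsq H z))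
      = ∫⁻ z in F '' (Metric.ball 0 1), ENNReal.ofReal (gsq H z) := by rw [himg]
  rw [h0, IPC.cov hC.Fd hinj]
  refine setLIntegral_congr_fun Metric.isOpen_ball.measurableSet (fun w hw => ?_)
  show ENNReal.ofReal (‖deriv F w‖ ^ 2) * ENNReal.ofReal (gsq H (F w))
    = ENNReal.ofReal (gsq (fun w => H (F w)) w)
  rw [← ENNReal.ofReal_mul (sq_nonneg _), IInv.gsq_comp
    (hC.Fd.differentiableAt (Metric.isOpen_ball.mem_nhds hw)) (hH _ (hC.Fm hw))]

end Pool.Agent.MFK.L1
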