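import Pool.Agent.Work.MP_8826fd_mp.L1.Stmts

/-!
# MP_8826fd_mp, block L1, item Low (assembly)

If `-LL p ≤ η √NN(p)` for all polynomials, `StPrj` gives a compactly supported `G` that is too close to `Φ`, which
contradicts `StSlit`.  The remaining polynomial is normalised (no need to show `NN p > 0`: if `NN p = 0` it is scaled by a
large constant).
-/

set_option autoImplicit false

namespace Pool.Agent.MFK.L1

open MeasureTheory Set Filter Topology Pool.Agent.MFK.NF Pool.Agent.MFK.CD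

namespace ILow

theorem NN_smul (p : Polynomial ℂ) (c : ℝ) : NN (Polynomial.C (c : ℂ) * p) = c ^ 2 * NN p := by
  unfold NN
  rw [← integral_const_mul]
  refine integral_congr_ae (Eventually.of_forall fun w => ?_)
  simp only [Polynomial.derivative_C_mul, Polynomial.eval_mul, Polynomial.eval_C, norm_mul,
    Complex.norm_real, Real.norm_eq_abs, mul_pow, sq_abs]

theorem LL_smul (B lam : ℝ) (m : ℕ) (F : ℂ → ℂ) (p : Polynomial ℂ) (c : ℝ) :
    LL B lam m F (Polynomial.C (c : ℂ) * p) = c * LL B lam m F p := by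
  unfold LL
  rw [← integral_const_mul]
  refine integral_congr_ae (Eventually.of_forall fun w => ?_)
  simp only [Polynomial.derivative_C_mul, Polynomial.eval_mul, Polynomial.eval_C]
  have e : F w * (starRingEnd ℂ) (deriv F w) * ((c : ℂ) * p.derivative.eval w)
      = (c : ℂ) * (F w * (starRingEnd ℂ) (deriv F w) * p.derivative.eval w) := by ring
  rw [e, Complex.re_ofReal_mul]
  ring

theorem NN_nonneg (p : Polynomial ℂ) : 0 ≤ NN p := by
  unfold NN
  exact integral_nonneg fun w => by positivity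

end ILow

theorem pr_Low (h1 : StPrj) (h2 : StSlit) (h3 : StCirc) : StLow := by
  intro B lam h m hS hh0 hh1
  obtain ⟨κ, hκ, ε, hε, H⟩ := h2 B lam h m hS hh0 hh1
  have hsq : 0 < Real.sqrt κ := Real.sqrt_pos.2 hκ
  refine ⟨Real.sqrt κ / 2, by positivity, ε, hε, ?_⟩
  intro Ω f F a hC hsc hvol hvol2 hp₀
  obtain ⟨p₀, hp₀, hpn⟩ := hp₀
  have hcirc : ∀ r ∈ Ioo (1 - h) 1, ∃ θ : ℝ, pc r θ ∉ Ω := by
    intro r hr
    exact h3 Ω p₀ r hC.opn hsc hp₀ (lt_of_le_of_lt hpn hr.1)
  have hH := H Ω hC.opn hvol2 hcirc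
  by_cases hall : ∀ p : Polynomial ℂ, -LL B lam m F p ≤ Real.sqrt κ / 2 * Real.sqrt (NN p)
  · exfalso
    obtain ⟨G, hG1, hG2, hG3, hG4⟩ := h1 B lam (Real.sqrt κ / 2) m Ω f F a hS hC hvol (by positivity) hall
      (Real.sqrt κ / 4) (by positivity)
    have h5 := le_trans (hH G hG1 hG2 hG3) hG4
    have h6 : κ ≤ (Real.sqrt κ / 2 + Real.sqrt κ / 4) ^ 2 :=
      (ENNReal.ofReal_le_ofReal_iff (by positivity)).1 h5
    have h7 : Real.sqrt κ ^ 2 = κ := Real.sq_sqrt hκ.le
    nlinarith [h6, h7, hκ]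
  · push Not at hall
    obtain ⟨p, hp⟩ := hall
    have hN := ILow.NN_nonneg p
    rcases hN.eq_or_lt with h0 | hpos
    · -- scale by a large constant
      rw [← h0, Real.sqrt_zero, mul_zero] at hp
      refine ⟨Polynomial.C ((-(Real.sqrt κ / 2 / (-LL B lam m F p)) : ℝ) : ℂ) * p, ?_, ?_⟩
      · rw [ILow.NN_smul, ← h0, mul_zero]
        exact zero_le_one
      · rw [ILow.LL_smul]
        have e : -(Real.sqrt κ / 2 / (-LL B lam m F p)) * LL B lam m F p
            = Real.sqrt κ / 2 / (-LL B lam m F p) * (-LL B lam m F p) := by ring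
        rw [e, div_mul_cancel₀ _ hp.ne']
    · have hs : 0 < Real.sqrt (NN p) := Real.sqrt_pos.2 hpos
      refine ⟨Polynomial.C ((-(1 / Real.sqrt (NN p)) : ℝ) : ℂ) * p, ?_, ?_⟩
      · rw [ILow.NN_smul, neg_sq, div_pow, one_pow, Real.sq_sqrt hN, one_div, inv_mul_cancel₀ hpos.ne']
      · rw [ILow.LL_smul]
        have e : -(1 / Real.sqrt (NN p)) * LL B lam m F p = (-LL B lam m F p) / Real.sqrt (NN p) := by ring
        rw [e, le_div_iff₀ hs]
        exact hp.le

end Pool.Agent.MFK.L1
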