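import Pool.Agent.Work.MP_8826fd_mp.L1.Stmts

/-!
# MP_8826fd_mp, block L1, item MUL: assembly
-/

set_option autoImplicit false

namespace Pool.Agent.MFK.L1

open MeasureTheory Set Filter Topology Pool.Agent.MFK.NF Pool.Agent.MFK.CD

namespace IMUL

theorem dft_nonneg (q : ℂ) (Ω : Set ℂ) : 0 ≤ dft q 1 Ω := by
  unfold dft
  exact integral_nonneg fun z => le_min (abs_nonneg _) zero_le_one

theorem dft_le (Ω : Set ℂ) (hV : volume Ω = ENNReal.ofReal Real.pi) :
    dft 0 1 Ω ≤ 2 * Real.pi := by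
  have hpi := Real.pi_pos
  have hball : volume (Metric.ball (0 : ℂ) 1) = ENNReal.ofReal Real.pi := by
    rw [Complex.volume_ball, ENNReal.ofReal_one, one_pow, one_mul, ← NNReal.coe_real_pi,
      ENNReal.ofReal_coe_nnreal]
  have hle : volume (symmDiff Ω (Metric.ball (0 : ℂ) 1)) ≤ ENNReal.ofReal (2 * Real.pi) := by
    calc volume (symmDiff Ω (Metric.ball (0 : ℂ) 1)) ≤ volume (Ω ∪ Metric.ball (0 : ℂ) 1) := by
          apply measure_mono
          intro x hx
          rcases hx with hx | hx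
          · exact Or.inl hx.1
          · exact Or.inr hx.1
      _ ≤ volume Ω + volume (Metric.ball (0 : ℂ) 1) := measure_union_le _ _
      _ = ENNReal.ofReal (2 * Real.pi) := by
          rw [hV, hball, ← ENNReal.ofReal_add hpi.le hpi.le]
          congr 1; ring
  have hlt : volume (symmDiff Ω (Metric.ball (0 : ℂ) 1)) < ⊤ :=
    hle.trans_lt ENNReal.ofReal_lt_top
  have h1 := norm_setIntegral_le_of_norm_le_const (μ := volume)
    (f := fun z : ℂ => min |‖z - 0‖ - 1| (1 : ℝ)) (C := 1) hlt (fun z _ => by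
      rw [Real.norm_eq_abs, abs_of_nonneg (le_min (abs_nonneg _) zero_le_one)]
      exact min_le_right _ _)
  have h2 : (volume (symmDiff Ω (Metric.ball (0 : ℂ) 1))).toReal ≤ 2 * Real.pi := by
    have := ENNReal.toReal_mono ENNReal.ofReal_ne_top hle
    rwa [ENNReal.toReal_ofReal (by positivity)] at this
  rw [one_mul] at h1
  unfold dft
  exact (le_abs_self _).trans (h1.trans h2)

end IMUL

/-- ITEM MUL. -/
theorem pr_MUL (h1 : StGap) (h2 : CD.StMU) (h3 : CD.StSp2) : StMUL := by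
  intro B hB
  obtain ⟨ε₁, hε₁, c₁, hc₁, hMU⟩ := h2 B hB
  obtain ⟨lam, m, hSp, _, _⟩ := h3 B hB
  have hh0 : 0 < min ε₁ (1 / 2) := lt_min hε₁ (by norm_num)
  have hh1 : min ε₁ (1 / 2) < 1 := (min_le_right _ _).trans_lt (by norm_num)
  have hh2 : min ε₁ (1 / 2) ≤ ε₁ := min_le_left _ _
  obtain ⟨ε₂, hε₂, c₂, hc₂, hGap⟩ := h1 B lam (min ε₁ (1 / 2)) m hSp hh0 hh1
  generalize min ε₁ (1 / 2) = h at hh0 hh1 hh2 hGap
  have hpi := Real.pi_pos
  have hc3 : 0 < c₂ / (2 * Real.pi) := by positivity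
  refine ⟨ε₂, hε₂, min c₁ (c₂ / (2 * Real.pi)), lt_min hc₁ hc3, fun Ω hO hS hV hD => ?_⟩
  by_cases hb : Metric.ball (0 : ℂ) (1 - h) ⊆ Ω
  · have hd : ∀ w : ℂ, HasDerivAt (fun w : ℂ => ((1 - h : ℝ) : ℂ) * w) ((1 - h : ℝ) : ℂ) w := fun w => by
      simpa using (hasDerivAt_id w).const_mul ((1 - h : ℝ) : ℂ)
    obtain ⟨q, hq1, hq2⟩ := hMU Ω (fun w => ((1 - h : ℝ) : ℂ) * w) hO hS hV
      (fun w _ => (hd w).differentiableAt.differentiableWithinAt)
      (fun w hw => hb (by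
        rw [mem_ball_zero_iff] at hw ⊢
        rw [norm_mul, Complex.norm_real, Real.norm_eq_abs, abs_of_pos (by linarith)]
        nlinarith [norm_nonneg w]))
      (by
        rw [(hd 0).deriv, Complex.norm_real, Real.norm_eq_abs, abs_of_pos (by linarith)]
        linarith)
    refine ⟨q, ?_, hq2⟩
    have h4 := IMUL.dft_nonneg q Ω
    have h5 : min c₁ (c₂ / (2 * Real.pi)) * dft q 1 Ω ≤ c₁ * dft q 1 Ω :=
      mul_le_mul_of_nonneg_right (min_le_left _ _) h4
    linarith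
  · obtain ⟨p₀, hp1, hp2⟩ := Set.not_subset.mp hb
    rw [mem_ball_zero_iff] at hp1
    have h4 := hGap Ω hO hS hV hD ⟨p₀, hp2, hp1.le⟩
    have h5 := hSp.lb
    have h6 := IMUL.dft_le Ω hV
    have h7 := IMUL.dft_nonneg 0 Ω
    have h8 : min c₁ (c₂ / (2 * Real.pi)) * dft 0 1 Ω ≤ c₂ := by
      calc min c₁ (c₂ / (2 * Real.pi)) * dft 0 1 Ω ≤ c₂ / (2 * Real.pi) * dft 0 1 Ω :=
            mul_le_mul_of_nonneg_right (min_le_right _ _) h7
        _ ≤ c₂ / (2 * Real.pi) * (2 * Real.pi) := mul_le_mul_of_nonneg_left h6 hc3.le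
        _ = c₂ := by field_simp
    refine ⟨0, by linarith, fun he => ?_⟩
    exfalso
    linarith

end Pool.Agent.MFK.L1
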