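import Pool.Agent.Work.MP_8826fd_mp.L1.Stmts

/-!
# Item Prj: the projection
-/

set_option autoImplicit false

namespace Pool.Agent.MFK.L1

open MeasureTheory Set Filter Topology Pool.Agent.MFK.NF Pool.Agent.MFK.CD

namespace IPrj

lemma gsq_nonneg (G : ℂ → ℝ) (z : ℂ) : 0 ≤ gsq G z := by
  unfold gsq
  positivity

lemma lin (L : ℂ →L[ℝ] ℝ) (h : ℂ) : L h = h.re * L 1 + h.im * L Complex.I := by
  have e : h = (h.re : ℝ) • (1 : ℂ) + (h.im : ℝ) • Complex.I := by
    rw [Complex.real_smul, Complex.real_smul, mul_one]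
    exact (Complex.re_add_im h).symm
  conv_lhs => rw [e]
  rw [map_add, map_smul, map_smul, smul_eq_mul, smul_eq_mul]

lemma lin_le (L : ℂ →L[ℝ] ℝ) (h : ℂ) :
    |L h| ≤ Real.sqrt (L 1 ^ 2 + L Complex.I ^ 2) * ‖h‖ := by
  rw [lin, Complex.norm_eq_sqrt_sq_add_sq, ← Real.sqrt_mul (by positivity), ← Real.sqrt_sq_eq_abs]
  apply Real.sqrt_le_sqrt
  nlinarith [sq_nonneg (h.re * L Complex.I - h.im * L 1)]

lemma gsq_sub {f g : ℂ → ℝ} {z : ℂ} (hf : DifferentiableAt ℝ f z) (hg : DifferentiableAt ℝ g z) :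
    gsq (fun w => f w - g w) z =
      (fderiv ℝ f z 1 - fderiv ℝ g z 1) ^ 2 +
        (fderiv ℝ f z Complex.I - fderiv ℝ g z Complex.I) ^ 2 := by
  have h : fderiv ℝ (fun w => f w - g w) z = fderiv ℝ f z - fderiv ℝ g z := fderiv_fun_sub hf hg
  unfold gsq
  rw [h]
  rfl

lemma sub_le {f g : ℂ → ℝ} {z : ℂ} (hf : DifferentiableAt ℝ f z) (hg : DifferentiableAt ℝ g z)
    (h : ℂ) : |fderiv ℝ f z h - fderiv ℝ g z h| ≤
      Real.sqrt (gsq (fun w => f w - g w) z) * ‖h‖ := by
  have h1 := lin_le (fderiv ℝ f z - fderiv ℝ g z) h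
  rw [gsq_sub hf hg]
  exact h1

lemma cs {μ : Measure ℂ} (a b : ℂ → ℝ) (ha : ∀ z, 0 ≤ a z) (hb : ∀ z, 0 ≤ b z)
    (hai : Integrable (fun z => a z ^ 2) μ) (hbi : Integrable (fun z => b z ^ 2) μ)
    (ham : AEStronglyMeasurable a μ) (hbm : AEStronglyMeasurable b μ) :
    Integrable (fun z => a z * b z) μ ∧
      ∫ z, a z * b z ∂μ ≤ Real.sqrt (∫ z, a z ^ 2 ∂μ) * Real.sqrt (∫ z, b z ^ 2 ∂μ) := by
  have h1 : MemLp a 2 μ := (memLp_two_iff_integrable_sq ham).2 hai
  have h2 : MemLp b 2 μ := (memLp_two_iff_integrable_sq hbm).2 hbi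
  refine ⟨h1.integrable_mul h2, ?_⟩
  have e : (ENNReal.ofReal (2 : ℝ)) = 2 := by norm_num
  have h3 := integral_mul_le_Lp_mul_Lq_of_nonneg (μ := μ) (p := 2) (q := 2)
    Real.HolderConjugate.two_two (f := a) (g := b) (Eventually.of_forall ha)
    (Eventually.of_forall hb) (by rw [e]; exact h1) (by rw [e]; exact h2)
  simp only [Real.rpow_two, ← Real.sqrt_eq_rpow] at h3
  exact h3

/-- the estimate of the first step -/
lemma step1 {U U₁ : ℂ → ℝ} {R' δ : ℝ} (hR : 1 < R') (hδ : 0 ≤ δ)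
    (hU : ContDiffOn ℝ 2 U (Metric.ball 0 1)) (hU₁ : ContDiffOn ℝ 2 U₁ (Metric.ball 0 R'))
    (hd : (∫⁻ w in Metric.ball (0 : ℂ) 1, ENNReal.ofReal (gsq (fun w => U w - U₁ w) w)) ≤
      ENNReal.ofReal (δ ^ 2)) (p : Polynomial ℂ) :
    (∫ w in Metric.ball (0 : ℂ) 1, fderiv ℝ U₁ w ((starRingEnd ℂ) (p.derivative.eval w))) ≤
      (∫ w in Metric.ball (0 : ℂ) 1, fderiv ℝ U w ((starRingEnd ℂ) (p.derivative.eval w))) +
        δ * Real.sqrt (NN p) := by
  have hb : MeasurableSet (Metric.ball (0 : ℂ) 1) := Metric.isOpen_ball.measurableSet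
  have hbR : Metric.ball (0 : ℂ) 1 ⊆ Metric.ball 0 R' := Metric.ball_subset_ball hR.le
  have hcb : Metric.closedBall (0 : ℂ) 1 ⊆ Metric.ball 0 R' := Metric.closedBall_subset_ball hR
  have cU : ContinuousOn (fderiv ℝ U) (Metric.ball 0 1) :=
    hU.continuousOn_fderiv_of_isOpen Metric.isOpen_ball (by norm_num)
  have cU₁ : ContinuousOn (fderiv ℝ U₁) (Metric.ball 0 R') :=
    hU₁.continuousOn_fderiv_of_isOpen Metric.isOpen_ball (by norm_num)
  have dU : ∀ w ∈ Metric.ball (0 : ℂ) 1, DifferentiableAt ℝ U w := fun w hw =>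
    (hU.contDiffAt (Metric.isOpen_ball.mem_nhds hw)).differentiableAt (by norm_num)
  have dU₁ : ∀ w ∈ Metric.ball (0 : ℂ) 1, DifferentiableAt ℝ U₁ w := fun w hw =>
    (hU₁.contDiffAt (Metric.isOpen_ball.mem_nhds (hbR hw))).differentiableAt (by norm_num)
  have cq : Continuous fun w : ℂ => (starRingEnd ℂ) (p.derivative.eval w) :=
    Complex.continuous_conj.comp p.derivative.continuous
  -- the gradient of the difference
  have cg : ContinuousOn (gsq (fun w => U w - U₁ w)) (Metric.ball 0 1) := by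
    have h1 : ContinuousOn (fun w => (fderiv ℝ U w 1 - fderiv ℝ U₁ w 1) ^ 2 +
        (fderiv ℝ U w Complex.I - fderiv ℝ U₁ w Complex.I) ^ 2) (Metric.ball (0 : ℂ) 1) := by
      have c1 := cU₁.mono hbR
      exact (((cU.clm_apply continuousOn_const).sub (c1.clm_apply continuousOn_const)).pow 2).add
        (((cU.clm_apply continuousOn_const).sub (c1.clm_apply continuousOn_const)).pow 2)
    exact h1.congr fun w hw => gsq_sub (dU w hw) (dU₁ w hw)
  have mg : AEStronglyMeasurable (gsq (fun w => U w - U₁ w))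
      (volume.restrict (Metric.ball (0 : ℂ) 1)) := cg.aestronglyMeasurable hb
  have ig : Integrable (gsq (fun w => U w - U₁ w)) (volume.restrict (Metric.ball (0 : ℂ) 1)) :=
    (lintegral_ofReal_ne_top_iff_integrable mg (Eventually.of_forall (gsq_nonneg _))).1
      (ne_top_of_le_ne_top ENNReal.ofReal_ne_top hd)
  have vg : (∫ w in Metric.ball (0 : ℂ) 1, gsq (fun w => U w - U₁ w) w) ≤ δ ^ 2 := by
    rw [integral_eq_lintegral_of_nonneg_ae (Eventually.of_forall (gsq_nonneg _)) mg]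
    exact ENNReal.toReal_le_of_le_ofReal (by positivity) hd
  -- Cauchy and Schwarz
  have ic : ∀ f : ℂ → ℝ, Continuous f → IntegrableOn f (Metric.ball (0 : ℂ) 1) := fun f hf =>
    (hf.continuousOn.integrableOn_compact (isCompact_closedBall (0 : ℂ) 1)).mono_set
      Metric.ball_subset_closedBall
  have hcs := cs (μ := volume.restrict (Metric.ball (0 : ℂ) 1))
    (fun w => Real.sqrt (gsq (fun w => U w - U₁ w) w)) (fun w => ‖p.derivative.eval w‖)
    (fun z => Real.sqrt_nonneg _) (fun z => norm_nonneg _)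
    (by simpa only [Real.sq_sqrt (gsq_nonneg _ _)] using ig)
    (ic _ (p.derivative.continuous.norm.pow 2))
    (Real.continuous_sqrt.comp_aestronglyMeasurable mg)
    (p.derivative.continuous.norm.aestronglyMeasurable)
  obtain ⟨hi, hle⟩ := hcs
  simp only [Real.sq_sqrt (gsq_nonneg _ _)] at hle
  have hle2 : (∫ w in Metric.ball (0 : ℂ) 1,
      Real.sqrt (gsq (fun w => U w - U₁ w) w) * ‖p.derivative.eval w‖) ≤
      δ * Real.sqrt (NN p) := by
    refine hle.trans ?_
    refine mul_le_mul_of_nonneg_right ?_ (Real.sqrt_nonneg _)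
    exact (Real.sqrt_le_sqrt vg).trans (by rw [Real.sqrt_sq hδ])
  -- integrability
  have i1 : IntegrableOn (fun w => fderiv ℝ U₁ w ((starRingEnd ℂ) (p.derivative.eval w)))
      (Metric.ball (0 : ℂ) 1) := by
    have : ContinuousOn (fun w => fderiv ℝ U₁ w ((starRingEnd ℂ) (p.derivative.eval w)))
        (Metric.closedBall (0 : ℂ) 1) := (cU₁.mono hcb).clm_apply cq.continuousOn
    exact (this.integrableOn_compact (isCompact_closedBall (0 : ℂ) 1)).mono_set
      Metric.ball_subset_closedBall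
  have hpt : ∀ w ∈ Metric.ball (0 : ℂ) 1,
      ‖fderiv ℝ U w ((starRingEnd ℂ) (p.derivative.eval w)) -
        fderiv ℝ U₁ w ((starRingEnd ℂ) (p.derivative.eval w))‖ ≤
      Real.sqrt (gsq (fun w => U w - U₁ w) w) * ‖p.derivative.eval w‖ := by
    intro w hw
    have h1 := sub_le (dU w hw) (dU₁ w hw) ((starRingEnd ℂ) (p.derivative.eval w))
    rw [RCLike.norm_conj] at h1
    exact h1
  have hae : ∀ᵐ w ∂(volume.restrict (Metric.ball (0 : ℂ) 1)),
      ‖fderiv ℝ U w ((starRingEnd ℂ) (p.derivative.eval w)) -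
        fderiv ℝ U₁ w ((starRingEnd ℂ) (p.derivative.eval w))‖ ≤
      Real.sqrt (gsq (fun w => U w - U₁ w) w) * ‖p.derivative.eval w‖ :=
    (ae_restrict_iff' hb).2 (Eventually.of_forall hpt)
  have id' : IntegrableOn (fun w => fderiv ℝ U w ((starRingEnd ℂ) (p.derivative.eval w)) -
      fderiv ℝ U₁ w ((starRingEnd ℂ) (p.derivative.eval w))) (Metric.ball (0 : ℂ) 1) := by
    refine hi.mono' ?_ hae
    exact ((cU.clm_apply cq.continuousOn).sub
      ((cU₁.mono hbR).clm_apply cq.continuousOn)).aestronglyMeasurable hb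
  have i0 : IntegrableOn (fun w => fderiv ℝ U w ((starRingEnd ℂ) (p.derivative.eval w)))
      (Metric.ball (0 : ℂ) 1) := by
    have := id'.add i1
    refine this.congr_fun (fun w _ => ?_) hb
    show fderiv ℝ U w ((starRingEnd ℂ) (p.derivative.eval w)) -
      fderiv ℝ U₁ w ((starRingEnd ℂ) (p.derivative.eval w)) +
      fderiv ℝ U₁ w ((starRingEnd ℂ) (p.derivative.eval w)) = _
    ring
  have hdiff : (∫ w in Metric.ball (0 : ℂ) 1,
      (fderiv ℝ U w ((starRingEnd ℂ) (p.derivative.eval w)) -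
      fderiv ℝ U₁ w ((starRingEnd ℂ) (p.derivative.eval w)))) =
      (∫ w in Metric.ball (0 : ℂ) 1, fderiv ℝ U w ((starRingEnd ℂ) (p.derivative.eval w))) -
      ∫ w in Metric.ball (0 : ℂ) 1, fderiv ℝ U₁ w ((starRingEnd ℂ) (p.derivative.eval w)) :=
    integral_sub i0 i1
  have hn := norm_integral_le_of_norm_le hi hae
  rw [hdiff, Real.norm_eq_abs] at hn
  have := neg_abs_le ((∫ w in Metric.ball (0 : ℂ) 1,
    fderiv ℝ U w ((starRingEnd ℂ) (p.derivative.eval w))) -
      ∫ w in Metric.ball (0 : ℂ) 1, fderiv ℝ U₁ w ((starRingEnd ℂ) (p.derivative.eval w)))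
  linarith

/-- Minkowski -/
lemma mink {U V P : ℂ → ℝ} {x y : ℝ} (hx : 0 < x) (hy : 0 < y)
    (hU : ContDiffOn ℝ 1 U (Metric.ball 0 1)) (hV : ContDiffOn ℝ 1 V (Metric.ball 0 1))
    (hP : ContDiffOn ℝ 1 P (Metric.ball 0 1))
    (h1 : (∫⁻ w in Metric.ball (0 : ℂ) 1, ENNReal.ofReal (gsq (fun w => U w - V w) w)) ≤
      ENNReal.ofReal (x ^ 2))
    (h2 : (∫⁻ w in Metric.ball (0 : ℂ) 1, ENNReal.ofReal (gsq (fun w => V w - P w) w)) ≤
      ENNReal.ofReal (y ^ 2)) :
    (∫⁻ w in Metric.ball (0 : ℂ) 1, ENNReal.ofReal (gsq (fun w => U w - P w) w)) ≤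
      ENNReal.ofReal ((x + y) ^ 2) := by
  have hb : MeasurableSet (Metric.ball (0 : ℂ) 1) := Metric.isOpen_ball.measurableSet
  have df : ∀ f : ℂ → ℝ, ContDiffOn ℝ 1 f (Metric.ball 0 1) →
      ∀ w ∈ Metric.ball (0 : ℂ) 1, DifferentiableAt ℝ f w := fun f hf w hw =>
    (hf.contDiffAt (Metric.isOpen_ball.mem_nhds hw)).differentiableAt (by norm_num)
  have cf : ∀ f : ℂ → ℝ, ContDiffOn ℝ 1 f (Metric.ball 0 1) →
      ContinuousOn (fderiv ℝ f) (Metric.ball 0 1) := fun f hf =>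
    hf.continuousOn_fderiv_of_isOpen Metric.isOpen_ball (by norm_num)
  have cg : ContinuousOn (gsq (fun w => U w - V w)) (Metric.ball 0 1) := by
    have h1 : ContinuousOn (fun w => (fderiv ℝ U w 1 - fderiv ℝ V w 1) ^ 2 +
        (fderiv ℝ U w Complex.I - fderiv ℝ V w Complex.I) ^ 2) (Metric.ball (0 : ℂ) 1) := by
      have c0 := cf U hU
      have c1 := cf V hV
      exact (((c0.clm_apply continuousOn_const).sub (c1.clm_apply continuousOn_const)).pow 2).add
        (((c0.clm_apply continuousOn_const).sub (c1.clm_apply continuousOn_const)).pow 2)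
    exact h1.congr fun w hw => gsq_sub (df U hU w hw) (df V hV w hw)
  have mg : AEMeasurable (fun w => ENNReal.ofReal (1 + y / x) *
      ENNReal.ofReal (gsq (fun w => U w - V w) w)) (volume.restrict (Metric.ball (0 : ℂ) 1)) :=
    (cg.aemeasurable hb).ennreal_ofReal.const_mul _
  have hpt : ∀ w ∈ Metric.ball (0 : ℂ) 1, ENNReal.ofReal (gsq (fun w => U w - P w) w) ≤
      ENNReal.ofReal (1 + y / x) * ENNReal.ofReal (gsq (fun w => U w - V w) w) +
      ENNReal.ofReal (1 + x / y) * ENNReal.ofReal (gsq (fun w => V w - P w) w) := by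
    intro w hw
    have k1 : 0 ≤ 1 + y / x := by positivity
    have k2 : 0 ≤ 1 + x / y := by positivity
    rw [← ENNReal.ofReal_mul k1, ← ENNReal.ofReal_mul k2,
      ← ENNReal.ofReal_add (mul_nonneg k1 (gsq_nonneg _ _)) (mul_nonneg k2 (gsq_nonneg _ _))]
    refine ENNReal.ofReal_le_ofReal ?_
    rw [gsq_sub (df U hU w hw) (df P hP w hw), gsq_sub (df U hU w hw) (df V hV w hw),
      gsq_sub (df V hV w hw) (df P hP w hw)]
    have key : ∀ s t : ℝ, (s + t) ^ 2 ≤ (1 + y / x) * s ^ 2 + (1 + x / y) * t ^ 2 := by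
      intro s t
      have e : (1 + y / x) * s ^ 2 + (1 + x / y) * t ^ 2 - (s + t) ^ 2 =
          (y * s - x * t) ^ 2 / (x * y) := by
        field_simp
        ring
      have e2 : 0 ≤ (y * s - x * t) ^ 2 / (x * y) := by positivity
      linarith
    have a1 := key (fderiv ℝ U w 1 - fderiv ℝ V w 1) (fderiv ℝ V w 1 - fderiv ℝ P w 1)
    have a2 := key (fderiv ℝ U w Complex.I - fderiv ℝ V w Complex.I)
      (fderiv ℝ V w Complex.I - fderiv ℝ P w Complex.I)
    have b1 : fderiv ℝ U w 1 - fderiv ℝ V w 1 + (fderiv ℝ V w 1 - fderiv ℝ P w 1) =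
      fderiv ℝ U w 1 - fderiv ℝ P w 1 := by ring
    have b2 : fderiv ℝ U w Complex.I - fderiv ℝ V w Complex.I +
      (fderiv ℝ V w Complex.I - fderiv ℝ P w Complex.I) =
      fderiv ℝ U w Complex.I - fderiv ℝ P w Complex.I := by ring
    rw [b1] at a1
    rw [b2] at a2
    linarith
  calc (∫⁻ w in Metric.ball (0 : ℂ) 1, ENNReal.ofReal (gsq (fun w => U w - P w) w))
      ≤ ∫⁻ w in Metric.ball (0 : ℂ) 1,
        (ENNReal.ofReal (1 + y / x) * ENNReal.ofReal (gsq (fun w => U w - V w) w) +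
        ENNReal.ofReal (1 + x / y) * ENNReal.ofReal (gsq (fun w => V w - P w) w)) :=
        setLIntegral_mono' hb hpt
    _ = ENNReal.ofReal (1 + y / x) *
          (∫⁻ w in Metric.ball (0 : ℂ) 1, ENNReal.ofReal (gsq (fun w => U w - V w) w)) +
        ENNReal.ofReal (1 + x / y) *
          ∫⁻ w in Metric.ball (0 : ℂ) 1, ENNReal.ofReal (gsq (fun w => V w - P w) w) := by
        rw [lintegral_add_left' mg, lintegral_const_mul' _ _ ENNReal.ofReal_ne_top,
          lintegral_const_mul' _ _ ENNReal.ofReal_ne_top]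
    _ ≤ ENNReal.ofReal (1 + y / x) * ENNReal.ofReal (x ^ 2) +
        ENNReal.ofReal (1 + x / y) * ENNReal.ofReal (y ^ 2) :=
        add_le_add (mul_le_mul_right h1 _) (mul_le_mul_right h2 _)
    _ = ENNReal.ofReal ((x + y) ^ 2) := by
        rw [← ENNReal.ofReal_mul (by positivity), ← ENNReal.ofReal_mul (by positivity),
          ← ENNReal.ofReal_add (by positivity) (by positivity)]
        congr 1
        field_simp
        ring

end IPrj

open IPrj in
theorem pr_Prj (h1 : StSm) (h2 : StDil) (h3 : StApx) (h4 : StInv) : StPrj := by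
  classical
  intro B lam η m Ω f F a hsp hCM hvol hη hLL δ hδ
  obtain ⟨-, -, -, hPh, -, -, -, -, -, hF, -⟩ := h1 B lam m hsp
  obtain ⟨hU, hUd⟩ := hF F hCM.Fd
  set U : ℂ → ℝ := fun w => Ph B lam m (F w) with hUdef
  obtain ⟨ρ, hρ0, hρ1, hρ⟩ := h2 B lam m Ω f F a hsp hCM hvol ((δ / 4) ^ 2) (by positivity)
  set U₁ : ℂ → ℝ := fun w => Ph B lam m (F (ρ * w)) with hU₁def
  have hR : 1 < 1 / ρ := by
    rw [lt_div_iff₀ hρ0]
    linarith
  have hU₁ : ContDiffOn ℝ 2 U₁ (Metric.ball 0 (1 / ρ)) := by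
    have h5 : ContDiffOn ℝ 2 (fun w : ℂ => (ρ : ℂ) * w) (Metric.ball 0 (1 / ρ)) :=
      (contDiff_const.mul contDiff_id).contDiffOn
    refine hU.comp h5 ?_
    intro w hw
    rw [mem_ball_zero_iff] at hw ⊢
    rw [norm_mul, Complex.norm_real, Real.norm_eq_abs, abs_of_pos hρ0]
    rw [lt_div_iff₀ hρ0] at hw
    linarith
  have hdil : (∫⁻ w in Metric.ball (0 : ℂ) 1, ENNReal.ofReal (gsq (fun w => U w - U₁ w) w)) ≤
      ENNReal.ofReal ((δ / 4) ^ 2) := hρ
  have hint : ∀ p : Polynomial ℂ,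
      (∫ w in Metric.ball (0 : ℂ) 1, fderiv ℝ U₁ w ((starRingEnd ℂ) (p.derivative.eval w))) ≤
        (η + δ / 4) * Real.sqrt (NN p) := by
    intro p
    have h5 := step1 hR (by positivity) hU hU₁ hdil p
    have h6 : (∫ w in Metric.ball (0 : ℂ) 1,
        fderiv ℝ U w ((starRingEnd ℂ) (p.derivative.eval w))) = -LL B lam m F p := by
      unfold LL
      rw [← integral_neg]
      refine setIntegral_congr_fun Metric.isOpen_ball.measurableSet fun w hw => ?_
      show fderiv ℝ U w ((starRingEnd ℂ) (p.derivative.eval w)) = _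
      rw [hUd w hw]
      congr 2
      simp only [Complex.mul_re, Complex.mul_im, Complex.conj_re, Complex.conj_im]
      ring
    have h7 := hLL p
    rw [← h6] at h7
    nlinarith
  obtain ⟨P, hP, hPc, hPs, hPi⟩ := h3 U₁ (1 / ρ) (η + δ / 4) hR (by positivity) hU₁ hint (δ / 4)
    (by positivity)
  -- the function on Ω
  set S : Set ℂ := F '' tsupport P with hS
  have hSc : IsCompact S := hPc.isCompact.image_of_continuousOn
    (hCM.Fd.continuousOn.mono hPs)
  have hSΩ : S ⊆ Ω := by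
    rintro _ ⟨w, hw, rfl⟩
    exact hCM.Fm (hPs hw)
  set G : ℂ → ℝ := fun z => if z ∈ Ω then P (f z) else 0 with hG
  have hG0 : ∀ z, z ∉ S → G z = 0 := by
    intro z hz
    show (if z ∈ Ω then P (f z) else 0) = 0
    split_ifs with hzΩ
    · have : f z ∉ tsupport P := fun h => hz ⟨f z, h, hCM.Ff z hzΩ⟩
      exact image_eq_zero_of_notMem_tsupport this
    · rfl
  have hGs : tsupport G ⊆ S := by
    refine closure_minimal ?_ hSc.isClosed
    intro z hz
    by_contra h
    exact hz (hG0 z h)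
  have hGC : ContDiff ℝ 1 G := by
    rw [contDiff_iff_contDiffAt]
    intro z
    by_cases hz : z ∈ Ω
    · have h5 : ContDiffAt ℝ 1 (fun z => P (f z)) z := by
        have h6 : ContDiffAt ℝ 1 f z :=
          ((hCM.fd.contDiffOn (n := 1) hCM.opn).contDiffAt (hCM.opn.mem_nhds hz)).restrict_scalars ℝ
        exact hP.contDiffAt.comp z h6
      refine h5.congr_of_eventuallyEq ?_
      filter_upwards [hCM.opn.mem_nhds hz] with y hy
      exact if_pos hy
    · have hzS : z ∉ S := fun h => hz (hSΩ h)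
      have h5 : ContDiffAt ℝ 1 (fun _ : ℂ => (0 : ℝ)) z := contDiffAt_const
      refine h5.congr_of_eventuallyEq ?_
      filter_upwards [hSc.isClosed.isOpen_compl.mem_nhds hzS] with y hy
      exact hG0 y hy
  refine ⟨G, hGC, HasCompactSupport.intro hSc hG0, hGs.trans hSΩ, ?_⟩
  rw [h4 Ω f F a (fun z => Ph B lam m z - G z) hCM fun z _ =>
    (hPh.differentiable (by norm_num) z).sub (hGC.differentiable (by norm_num) z)]
  have h8 : (∫⁻ w in Metric.ball (0 : ℂ) 1, ENNReal.ofReal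
      (gsq (fun w => (fun z => Ph B lam m z - G z) (F w)) w)) =
      ∫⁻ w in Metric.ball (0 : ℂ) 1, ENNReal.ofReal (gsq (fun w => U w - P w) w) := by
    refine setLIntegral_congr_fun Metric.isOpen_ball.measurableSet fun w hw => ?_
    have h9 : (fun w => (fun z => Ph B lam m z - G z) (F w)) =ᶠ[𝓝 w] fun w => U w - P w := by
      filter_upwards [Metric.isOpen_ball.mem_nhds hw] with y hy
      show Ph B lam m (F y) - (if F y ∈ Ω then P (f (F y)) else 0) = Ph B lam m (F y) - P y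
      rw [if_pos (hCM.Fm hy), hCM.fF y hy]
    show ENNReal.ofReal (gsq _ w) = ENNReal.ofReal (gsq _ w)
    unfold gsq
    rw [h9.fderiv_eq]
  rw [h8]
  have h10 := mink (x := δ / 4) (y := η + δ / 4 + δ / 4) (by positivity) (by positivity)
    (hU.of_le (by norm_num))
    ((hU₁.of_le (by norm_num)).mono (Metric.ball_subset_ball hR.le)) hP.contDiffOn hdil hPi
  refine h10.trans (ENNReal.ofReal_le_ofReal ?_)
  have h11 : δ / 4 + (η + δ / 4 + δ / 4) ≤ η + δ := by linarith
  exact pow_le_pow_left₀ (by positivity) h11 2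

end Pool.Agent.MFK.L1
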