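import Pool.Agent.Work.MP_8826fd_mp.L1.Stmts

/-! MP_8826fd_mp, block L1, item Slit (helper70): a function that vanishes at a point of each circle is far from the stream function. -/

set_option autoImplicit false

namespace Pool.Agent.MFK.L1

open MeasureTheory Set Filter Topology Pool.Agent.MFK.NF Pool.Agent.MFK.CD

namespace ISlit

/-- the derivative of `pc` in the radius. -/
theorem pc_r (r θ : ℝ) :
    HasDerivAt (fun r : ℝ => pc r θ) (Complex.exp (Complex.I * θ)) r := by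
  unfold pc
  simpa using (Complex.ofRealCLM.hasDerivAt (x := r)).mul_const (Complex.exp (Complex.I * θ))

/-- the derivative of `pc` in the angle. -/
theorem pc_t (r θ : ℝ) : HasDerivAt (fun θ : ℝ => pc r θ) (Complex.I * pc r θ) θ := by
  unfold pc
  have h1 : HasDerivAt (fun t : ℝ => Complex.I * (t : ℂ)) Complex.I θ := by
    simpa using (Complex.ofRealCLM.hasDerivAt (x := θ)).const_mul Complex.I
  have h2 := (h1.cexp).const_mul (r : ℂ)
  have e : Complex.I * ((r : ℂ) * Complex.exp (Complex.I * θ)) =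
      (r : ℂ) * (Complex.exp (Complex.I * θ) * Complex.I) := by
    ring
  rw [e]
  exact h2

/-- the Cauchy-Schwarz inequality. -/
theorem cs (L : ℂ →L[ℝ] ℝ) (h : ℂ) :
    |L h| ≤ Real.sqrt (L 1 ^ 2 + L Complex.I ^ 2) * ‖h‖ := by
  have h1 : L h = h.re * L 1 + h.im * L Complex.I := by
    have e : h = h.re • (1 : ℂ) + h.im • Complex.I := by
      simp [Complex.re_add_im]
    conv_lhs => rw [e]
    rw [map_add, map_smul, map_smul, smul_eq_mul, smul_eq_mul]
  have h2 : ‖h‖ = Real.sqrt (h.re ^ 2 + h.im ^ 2) := by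
    rw [Complex.norm_eq_sqrt_sq_add_sq]
  rw [h2, ← Real.sqrt_mul (by positivity)]
  apply Real.abs_le_sqrt
  rw [h1]
  nlinarith [sq_nonneg (h.re * L Complex.I - h.im * L 1)]

/-- the weight. -/
noncomputable def UU (Ω : Set ℂ) (H : ℂ → ℝ) (z : ℂ) : ENNReal :=
  Ω.indicator (fun z => ENNReal.ofReal (Real.sqrt (gsq H z))) z

theorem gsq_cont {H : ℂ → ℝ} (hH : ContDiff ℝ 1 H) : Continuous (gsq H) := by
  have h1 : Continuous (fderiv ℝ H) := hH.continuous_fderiv one_ne_zero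
  unfold gsq
  exact ((h1.clm_apply continuous_const).pow 2).add ((h1.clm_apply continuous_const).pow 2)

theorem UU_meas {Ω : Set ℂ} (hO : IsOpen Ω) {H : ℂ → ℝ} (hH : ContDiff ℝ 1 H) :
    Measurable (UU Ω H) := by
  unfold UU
  exact (ENNReal.continuous_ofReal.comp (Real.continuous_sqrt.comp (gsq_cont hH))).measurable.indicator
    hO.measurableSet

theorem off {G : ℂ → ℝ} {Ω : Set ℂ} (hs : tsupport G ⊆ Ω) {z : ℂ} (hz : z ∉ Ω) :
    G z = 0 ∧ fderiv ℝ G z = 0 := by
  have h1 : z ∉ tsupport G := fun h => hz (hs h)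
  refine ⟨image_eq_zero_of_notMem_tsupport h1, ?_⟩
  by_contra h
  exact h1 (support_fderiv_subset ℝ (f := G) h)

/-- estimate along a circle. -/
theorem tang {Φ G : ℂ → ℝ} (hΦ : ContDiff ℝ 1 Φ) (hG : ContDiff ℝ 1 G) {Ω : Set ℂ}
    (hs : tsupport G ⊆ Ω) (hrot : ∀ z : ℂ, fderiv ℝ Φ z (Complex.I * z) = 0) {r : ℝ}
    (hr : 0 ≤ r) (hc : ∃ θ : ℝ, pc r θ ∉ Ω) (θ : ℝ) :
    ‖G (pc r θ)‖ₑ ≤ ∫⁻ t in Ioo (0 : ℝ) (2 * Real.pi),
      ENNReal.ofReal r * UU Ω (fun z => Φ z - G z) (pc r t) := by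
  obtain ⟨θ₀, h0⟩ := hc
  have hT : (0 : ℝ) < 2 * Real.pi := by positivity
  have hp : Function.Periodic (fun t => pc r t) (2 * Real.pi) := fun t => IPC.pc_per r t
  obtain ⟨y, hy, hy2⟩ := hp.exists_mem_Ioc hT θ θ₀
  rw [hy2]
  have hd : ∀ t : ℝ, HasDerivAt (fun t : ℝ => G (pc r t))
      (fderiv ℝ G (pc r t) (Complex.I * pc r t)) t := by
    intro t
    exact ((hG.differentiable one_ne_zero) (pc r t)).hasFDerivAt.comp_hasDerivAt t (pc_t r t)
  have hpc : Continuous (fun t : ℝ => pc r t) := by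
    unfold pc
    fun_prop
  have hcont : Continuous (fun t : ℝ => fderiv ℝ G (pc r t) (Complex.I * pc r t)) :=
    ((hG.continuous_fderiv one_ne_zero).comp hpc).clm_apply (continuous_const.mul hpc)
  have h1 : ∫ t in θ₀..y, fderiv ℝ G (pc r t) (Complex.I * pc r t) =
      G (pc r y) - G (pc r θ₀) :=
    intervalIntegral.integral_eq_sub_of_hasDerivAt (fun t _ => hd t)
      (hcont.intervalIntegrable _ _)
  rw [(off hs h0).1, sub_zero] at h1
  rw [← h1, intervalIntegral.integral_of_le hy.1.le]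
  refine (enorm_integral_le_lintegral_enorm _).trans ?_
  have h2 : ∀ t : ℝ, ‖fderiv ℝ G (pc r t) (Complex.I * pc r t)‖ₑ ≤
      ENNReal.ofReal r * UU Ω (fun z => Φ z - G z) (pc r t) := by
    intro t
    by_cases ht : pc r t ∈ Ω
    · have e1 : fderiv ℝ (fun z => Φ z - G z) (pc r t) (Complex.I * pc r t) =
          -fderiv ℝ G (pc r t) (Complex.I * pc r t) := by
        rw [fderiv_fun_sub (hΦ.differentiable one_ne_zero _) (hG.differentiable one_ne_zero _)]
        simp [hrot]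
      have e2 := cs (fderiv ℝ (fun z => Φ z - G z) (pc r t)) (Complex.I * pc r t)
      rw [e1, abs_neg, norm_mul, Complex.norm_I, one_mul, IPC.pc_norm hr] at e2
      unfold UU
      rw [indicator_of_mem ht, Real.enorm_eq_ofReal_abs, ← ENNReal.ofReal_mul hr]
      apply ENNReal.ofReal_le_ofReal
      rw [mul_comm r]
      exact e2
    · rw [(off hs ht).2]
      simp
  refine (lintegral_mono h2).trans ?_
  refine (lintegral_mono_set (Ioc_subset_Ioc_right hy.2)).trans ?_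
  have h3 := (isAddFundamentalDomain_Ioc hT θ₀ volume).setLIntegral_eq
    (isAddFundamentalDomain_Ioc hT 0 volume)
    (fun t => ENNReal.ofReal r * UU Ω (fun z => Φ z - G z) (pc r t)) (by
      rintro ⟨g, hg⟩ x
      obtain ⟨n, rfl⟩ := AddSubgroup.mem_zmultiples_iff.1 hg
      show ENNReal.ofReal r * UU Ω (fun z => Φ z - G z) (pc r (n • (2 * Real.pi) + x)) = _
      rw [add_comm]
      have h5 : pc r (x + n • (2 * Real.pi)) = pc r x := (hp.zsmul n) x
      rw [h5])
  rw [h3, zero_add, setLIntegral_congr Ioo_ae_eq_Ioc]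

/-- the second weight. -/
noncomputable def WW2 (Ω : Set ℂ) (H : ℂ → ℝ) (K : ℝ) (z : ℂ) : ENNReal :=
  UU Ω H z + ENNReal.ofReal K * Ωᶜ.indicator (fun _ => (1 : ENNReal)) z

theorem WW2_meas {Ω : Set ℂ} (hO : IsOpen Ω) {H : ℂ → ℝ} (hH : ContDiff ℝ 1 H) (K : ℝ) :
    Measurable (WW2 Ω H K) := by
  unfold WW2
  exact (UU_meas hO hH).add ((measurable_const.indicator hO.measurableSet.compl).const_mul _)

/-- estimate along a ray. -/
theorem radial {Φ G : ℂ → ℝ} (hΦ : ContDiff ℝ 1 Φ) (hG : ContDiff ℝ 1 G) {Ω : Set ℂ}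
    (hs : tsupport G ⊆ Ω) {K : ℝ} (hb : ∀ z h : ℂ, |fderiv ℝ Φ z h| ≤ K * ‖h‖) {a b : ℝ}
    (hab : a ≤ b) (θ : ℝ) :
    ‖(Φ (pc b θ) - G (pc b θ)) - (Φ (pc a θ) - G (pc a θ))‖ₑ ≤
      ∫⁻ r in Ioc a b, WW2 Ω (fun z => Φ z - G z) K (pc r θ) := by
  have hH : ContDiff ℝ 1 (fun z => Φ z - G z) := hΦ.sub hG
  have hd : ∀ t : ℝ, HasDerivAt (fun t : ℝ => Φ (pc t θ) - G (pc t θ))
      (fderiv ℝ (fun z => Φ z - G z) (pc t θ) (Complex.exp (Complex.I * θ))) t := by
    intro t
    exact ((hH.differentiable one_ne_zero) (pc t θ)).hasFDerivAt.comp_hasDerivAt t (pc_r t θ)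
  have hpc : Continuous (fun t : ℝ => pc t θ) := by
    unfold pc
    fun_prop
  have hcont : Continuous (fun t : ℝ =>
      fderiv ℝ (fun z => Φ z - G z) (pc t θ) (Complex.exp (Complex.I * θ))) :=
    ((hH.continuous_fderiv one_ne_zero).comp hpc).clm_apply continuous_const
  have h1 := intervalIntegral.integral_eq_sub_of_hasDerivAt (a := a) (b := b) (fun t _ => hd t)
      (hcont.intervalIntegrable _ _)
  have hn : ‖Complex.exp (Complex.I * θ)‖ = 1 := by
    rw [mul_comm]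
    exact Complex.norm_exp_ofReal_mul_I θ
  rw [← h1, intervalIntegral.integral_of_le hab]
  refine (enorm_integral_le_lintegral_enorm _).trans ?_
  refine lintegral_mono (fun t => ?_)
  by_cases ht : pc t θ ∈ Ω
  · have e2 := cs (fderiv ℝ (fun z => Φ z - G z) (pc t θ)) (Complex.exp (Complex.I * θ))
    rw [hn, mul_one] at e2
    simp only [WW2, UU]
    rw [indicator_of_mem ht, Real.enorm_eq_ofReal_abs]
    exact (ENNReal.ofReal_le_ofReal e2).trans le_self_add
  · have e1 : fderiv ℝ (fun z => Φ z - G z) (pc t θ) (Complex.exp (Complex.I * θ)) =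
        fderiv ℝ Φ (pc t θ) (Complex.exp (Complex.I * θ)) := by
      rw [fderiv_fun_sub (hΦ.differentiable one_ne_zero _) (hG.differentiable one_ne_zero _),
        (off hs ht).2]
      simp
    have e2 := hb (pc t θ) (Complex.exp (Complex.I * θ))
    rw [hn, mul_one] at e2
    simp only [WW2]
    rw [e1, indicator_of_mem (show pc t θ ∈ Ωᶜ from ht), Real.enorm_eq_ofReal_abs, mul_one]
    exact (ENNReal.ofReal_le_ofReal e2).trans le_add_self

/-- a radius with a small value. -/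
theorem pick {V : ℝ → ENNReal} {x L p q : ℝ} (hL : 0 < L) (hx : 0 < x) (hpq : q - p = L)
    (h0 : 0 ≤ p) (h1 : q ≤ 1) (hV : ∫⁻ r in Ioo (0 : ℝ) 1, V r < ENNReal.ofReal x) :
    ∃ a ∈ Ioo p q, V a ≤ ENNReal.ofReal (x / L) := by
  by_contra hc
  have hc' : ∀ a ∈ Ioo p q, ENNReal.ofReal (x / L) ≤ V a := by
    intro a ha
    by_contra h
    exact hc ⟨a, ha, le_of_lt (not_le.1 h)⟩
  have h2 : ENNReal.ofReal x ≤ ∫⁻ r in Ioo p q, V r := by
    have h3 : ∫⁻ _ in Ioo p q, ENNReal.ofReal (x / L) = ENNReal.ofReal x := by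
      rw [setLIntegral_const, Real.volume_Ioo, hpq, ← ENNReal.ofReal_mul (by positivity)]
      congr 1
      field_simp
    rw [← h3]
    exact setLIntegral_mono' measurableSet_Ioo hc'
  have h4 : ∫⁻ r in Ioo p q, V r ≤ ∫⁻ r in Ioo (0 : ℝ) 1, V r :=
    lintegral_mono_set (Ioo_subset_Ioo h0 h1)
  exact absurd (h2.trans h4) (not_le.2 hV)

/-- the double integral. -/
theorem dbl {W : ℂ → ENNReal} (hW : Measurable W) {p q : ℝ} (hp : 0 < p) (hq : q ≤ 1) :
    ∫⁻ θ in Ioo (0 : ℝ) (2 * Real.pi), ∫⁻ r in Ioo p q, W (pc r θ) ≤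
      ENNReal.ofReal (1 / p) * ∫⁻ z in Metric.ball (0 : ℂ) 1, W z := by
  have hm : Measurable (fun x : ℝ × ℝ => ENNReal.ofReal x.2 * W (pc x.2 x.1)) :=
    (ENNReal.measurable_ofReal.comp measurable_snd).mul
      (hW.comp (IPC.pc_meas.comp (measurable_snd.prodMk measurable_fst)))
  rw [IPC.polar_m hW]
  rw [← lintegral_lintegral_swap (μ := volume.restrict (Ioo (0 : ℝ) (2 * Real.pi)))
    (ν := volume.restrict (Ioo (0 : ℝ) 1)) (f := fun θ r => ENNReal.ofReal r * W (pc r θ))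
    hm.aemeasurable]
  rw [← lintegral_const_mul' _ _ ENNReal.ofReal_ne_top]
  refine lintegral_mono (fun θ => ?_)
  rw [← lintegral_const_mul' _ _ ENNReal.ofReal_ne_top]
  refine le_trans ?_ (lintegral_mono_set (Ioo_subset_Ioo hp.le hq))
  refine setLIntegral_mono' measurableSet_Ioo (fun r hr => ?_)
  rw [← mul_assoc, ← ENNReal.ofReal_mul (by positivity)]
  have h1 : (1 : ℝ) ≤ 1 / p * r := by
    rw [one_div, ← div_eq_inv_mul, one_le_div hp]
    exact hr.1.le
  have h2 : (1 : ENNReal) ≤ ENNReal.ofReal (1 / p * r) := by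
    rw [← ENNReal.ofReal_one]
    exact ENNReal.ofReal_le_ofReal h1
  calc W (pc r θ) = 1 * W (pc r θ) := (one_mul _).symm
    _ ≤ _ := mul_le_mul_left h2 _

/-- the integral of the second weight. -/
theorem intW {Ω : Set ℂ} (hO : IsOpen Ω) {H : ℂ → ℝ} (hH : ContDiff ℝ 1 H) (K : ℝ) :
    ∫⁻ z in Metric.ball (0 : ℂ) 1, WW2 Ω H K z =
      (∫⁻ z in Metric.ball (0 : ℂ) 1, UU Ω H z) +
        ENNReal.ofReal K * volume (Metric.ball (0 : ℂ) 1 \ Ω) := by
  unfold WW2
  rw [lintegral_add_left (UU_meas hO hH), lintegral_const_mul' _ _ ENNReal.ofReal_ne_top]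
  congr 2
  rw [lintegral_indicator hO.measurableSet.compl, lintegral_const, one_mul,
    Measure.restrict_restrict hO.measurableSet.compl, Measure.restrict_apply MeasurableSet.univ,
    univ_inter, inter_comm, sdiff_eq]

/-- the main estimate. -/
theorem core {Φ G : ℂ → ℝ} (hΦ : ContDiff ℝ 1 Φ) (hG : ContDiff ℝ 1 G) {Ω : Set ℂ}
    (hO : IsOpen Ω) (hs : tsupport G ⊆ Ω) (hrot : ∀ z : ℂ, fderiv ℝ Φ z (Complex.I * z) = 0)
    {K : ℝ} (hK : 0 < K) (hb : ∀ z h : ℂ, |fderiv ℝ Φ z h| ≤ K * ‖h‖)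
    {p q L c x ε : ℝ} (hL : 0 < L) (hp : 0 < p) (hpq : p + L ≤ q - L) (hq : q ≤ 1)
    (hx : 0 < x) (hε : 0 < ε)
    (hc : ∀ a ∈ Ioo p (p + L), ∀ b ∈ Ioo (q - L) q, ∀ θ : ℝ, c ≤ Φ (pc b θ) - Φ (pc a θ))
    (hcirc : ∀ r ∈ Ioo p q, ∃ θ : ℝ, pc r θ ∉ Ω)
    (hvol : volume (Metric.ball (0 : ℂ) 1 \ Ω) ≤ ENNReal.ofReal ε)
    (hX : ∫⁻ z in Metric.ball (0 : ℂ) 1, UU Ω (fun z => Φ z - G z) z < ENNReal.ofReal x) :
    c * (2 * Real.pi) ≤ 2 * (x / L) * (2 * Real.pi) + 1 / p * (x + K * ε) := by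
  have hH : ContDiff ℝ 1 (fun z => Φ z - G z) := hΦ.sub hG
  have hT : (0 : ℝ) < 2 * Real.pi := by positivity
  have hX' := hX
  rw [IPC.polar_m (UU_meas hO hH)] at hX'
  obtain ⟨a, ha, hVa⟩ := pick (p := p) (q := p + L) hL hx (by ring) hp.le (by linarith) hX'
  obtain ⟨b, hb', hVb⟩ := pick (p := q - L) (q := q) hL hx (by ring) (by linarith) hq hX'
  have hab : a < b := by
    have := ha.2
    have := hb'.1
    linarith
  have haq : a ∈ Ioo p q := ⟨ha.1, by linarith [hb'.2]⟩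
  have hbq : b ∈ Ioo p q := ⟨by linarith [ha.1], hb'.2⟩
  have hpt : ∀ θ : ℝ, ENNReal.ofReal c ≤ ENNReal.ofReal (2 * (x / L)) +
      ∫⁻ r in Ioo p q, WW2 Ω (fun z => Φ z - G z) K (pc r θ) := by
    intro θ
    have e1 := (tang hΦ hG hs hrot (by linarith [ha.1] : (0 : ℝ) ≤ a) (hcirc a haq) θ).trans hVa
    have e2 := (tang hΦ hG hs hrot (by linarith [ha.1] : (0 : ℝ) ≤ b) (hcirc b hbq) θ).trans hVb
    have e3 := radial hΦ hG hs hb hab.le θ
    have e4 : ∫⁻ r in Ioc a b, WW2 Ω (fun z => Φ z - G z) K (pc r θ) ≤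
        ∫⁻ r in Ioo p q, WW2 Ω (fun z => Φ z - G z) K (pc r θ) :=
      lintegral_mono_set (fun r hr => ⟨lt_trans ha.1 hr.1, lt_of_le_of_lt hr.2 hb'.2⟩)
    rw [Real.enorm_eq_ofReal_abs] at e1 e2 e3
    have e5 : c ≤ |G (pc a θ)| + |G (pc b θ)| +
        |(Φ (pc b θ) - G (pc b θ)) - (Φ (pc a θ) - G (pc a θ))| := by
      have f1 := hc a ha b hb' θ
      have f2 := le_abs_self ((Φ (pc b θ) - G (pc b θ)) - (Φ (pc a θ) - G (pc a θ)))
      have f3 := neg_abs_le (G (pc a θ))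
      have f4 := le_abs_self (G (pc b θ))
      linarith
    calc ENNReal.ofReal c ≤ ENNReal.ofReal (|G (pc a θ)| + |G (pc b θ)| +
          |(Φ (pc b θ) - G (pc b θ)) - (Φ (pc a θ) - G (pc a θ))|) := ENNReal.ofReal_le_ofReal e5
      _ = ENNReal.ofReal |G (pc a θ)| + ENNReal.ofReal |G (pc b θ)| + ENNReal.ofReal
          |(Φ (pc b θ) - G (pc b θ)) - (Φ (pc a θ) - G (pc a θ))| := by
          rw [ENNReal.ofReal_add (by positivity) (abs_nonneg _),
            ENNReal.ofReal_add (abs_nonneg _) (abs_nonneg _)]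
      _ ≤ ENNReal.ofReal (x / L) + ENNReal.ofReal (x / L) +
          ∫⁻ r in Ioo p q, WW2 Ω (fun z => Φ z - G z) K (pc r θ) :=
          add_le_add (add_le_add e1 e2) (e3.trans e4)
      _ = _ := by
          rw [← ENNReal.ofReal_add (by positivity) (by positivity)]
          congr 2
          ring
  have h1 : ∫⁻ _ in Ioo (0 : ℝ) (2 * Real.pi), ENNReal.ofReal c ≤
      ∫⁻ θ in Ioo (0 : ℝ) (2 * Real.pi), (ENNReal.ofReal (2 * (x / L)) +
      ∫⁻ r in Ioo p q, WW2 Ω (fun z => Φ z - G z) K (pc r θ)) := lintegral_mono hpt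
  rw [setLIntegral_const, Real.volume_Ioo, sub_zero, lintegral_add_left measurable_const,
    setLIntegral_const, Real.volume_Ioo, sub_zero] at h1
  have h2 := dbl (WW2_meas hO hH K) hp hq
  rw [intW hO hH K] at h2
  have h3 : ENNReal.ofReal (1 / p) * ((∫⁻ z in Metric.ball (0 : ℂ) 1,
      UU Ω (fun z => Φ z - G z) z) + ENNReal.ofReal K * volume (Metric.ball (0 : ℂ) 1 \ Ω)) ≤
      ENNReal.ofReal (1 / p) * (ENNReal.ofReal x + ENNReal.ofReal K * ENNReal.ofReal ε) := by
    gcongr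
  have h4 := h1.trans (add_le_add_right (h2.trans h3) _)
  rw [← ENNReal.ofReal_mul hK.le, ← ENNReal.ofReal_add hx.le (by positivity),
    ← ENNReal.ofReal_mul' hT.le, ← ENNReal.ofReal_mul' hT.le,
    ← ENNReal.ofReal_mul (by positivity),
    ← ENNReal.ofReal_add (by positivity) (by positivity)] at h4
  exact (ENNReal.ofReal_le_ofReal_iff (by positivity)).1 h4

/-- the weight and the Dirichlet integral. -/
theorem small {Ω : Set ℂ} (hO : IsOpen Ω) (H : ℂ → ℝ) {x : ℝ} (hx : 0 < x)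
    (hD : ∫⁻ z in Ω, ENNReal.ofReal (gsq H z) < ENNReal.ofReal (x / 8 * (x / 2))) :
    ∫⁻ z in Metric.ball (0 : ℂ) 1, UU Ω H z < ENNReal.ofReal x := by
  have hpt : ∀ z : ℂ, UU Ω H z ≤ ENNReal.ofReal (x / 8) +
      ENNReal.ofReal (1 / (x / 8)) * Ω.indicator (fun z => ENNReal.ofReal (gsq H z)) z := by
    intro z
    unfold UU
    by_cases hz : z ∈ Ω
    · have hg : 0 ≤ gsq H z := by
        unfold gsq
        positivity
      rw [indicator_of_mem hz, indicator_of_mem hz, ← ENNReal.ofReal_mul (by positivity),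
        ← ENNReal.ofReal_add (by positivity) (by positivity)]
      apply ENNReal.ofReal_le_ofReal
      have h1 := Real.sq_sqrt hg
      have h2 := Real.sqrt_nonneg (gsq H z)
      rw [← h1, Real.sqrt_sq h2]
      set s := Real.sqrt (gsq H z)
      have h3 : 1 / (x / 8) * s ^ 2 = s ^ 2 / (x / 8) := by
        field_simp
      rw [h3]
      have h5 : (0 : ℝ) < x / 8 := by positivity
      rw [← sub_le_iff_le_add', le_div_iff₀ h5]
      nlinarith [sq_nonneg (s - x / 8), mul_nonneg h2 h5.le]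
    · rw [indicator_of_notMem hz]
      exact zero_le
  have h1 : ∫⁻ z in Metric.ball (0 : ℂ) 1, UU Ω H z ≤ ENNReal.ofReal (x / 8 * Real.pi) +
      ENNReal.ofReal (1 / (x / 8)) * ∫⁻ z in Ω, ENNReal.ofReal (gsq H z) := by
    refine (lintegral_mono hpt).trans ?_
    rw [lintegral_add_left measurable_const, setLIntegral_const,
      lintegral_const_mul' _ _ ENNReal.ofReal_ne_top]
    refine add_le_add ?_ ?_
    · rw [Complex.volume_ball, ENNReal.ofReal_one, one_pow, one_mul,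
        ENNReal.ofReal_mul (by positivity)]
      gcongr
      rw [ENNReal.ofReal, NNReal.pi]
      apply le_of_eq
      congr 1
      exact (Real.toNNReal_of_nonneg Real.pi_pos.le).symm
    · refine mul_le_mul_right ?_ _
      rw [← lintegral_indicator hO.measurableSet]
      exact setLIntegral_le_lintegral _ _
  have h2 : ENNReal.ofReal (1 / (x / 8)) * ∫⁻ z in Ω, ENNReal.ofReal (gsq H z) <
      ENNReal.ofReal (1 / (x / 8)) * ENNReal.ofReal (x / 8 * (x / 2)) := by
    rw [ENNReal.mul_lt_mul_iff_right _ ENNReal.ofReal_ne_top]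
    · exact hD
    · rw [Ne, ENNReal.ofReal_eq_zero, not_le]
      positivity
  rw [← ENNReal.ofReal_mul (by positivity)] at h2
  have h3 : 1 / (x / 8) * (x / 8 * (x / 2)) = x / 2 := by
    field_simp
  rw [h3] at h2
  refine lt_of_le_of_lt h1 ?_
  refine lt_of_lt_of_le (ENNReal.add_lt_add_left ENNReal.ofReal_ne_top h2) ?_
  rw [← ENNReal.ofReal_add (by positivity) (by positivity)]
  apply ENNReal.ofReal_le_ofReal
  nlinarith [Real.pi_lt_four]

end ISlit

theorem pr_Slit (h : StSm) : StSlit := by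
  intro B lam h' m hS hh0 hh1
  obtain ⟨-, hw, -, hPh, -, -, -, hneg, hfd, -, K, hK, hKb⟩ := h B lam m hS
  have hΦ : ContDiff ℝ 1 (Ph B lam m) := hPh.of_le (by norm_num)
  have hB := hS.hB
  have hp := hS.hp
  -- the first radius
  have hq1 : 2 * (m : ℝ) / B < 1 := by
    rw [div_lt_one hB]
    linarith
  have hq0 : 0 ≤ 2 * (m : ℝ) / B := by positivity
  set ρ : ℝ := max (1 - h') (Real.sqrt (2 * m / B)) with hρ
  have hρ1 : ρ < 1 := by
    rw [hρ, max_lt_iff]
    refine ⟨by linarith, ?_⟩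
    rw [Real.sqrt_lt' one_pos]
    simpa using hq1
  have hρ0 : 0 < ρ := lt_of_lt_of_le (by linarith : 0 < 1 - h') (le_max_left _ _)
  have hρh : 1 - h' ≤ ρ := le_max_left _ _
  have hρm : 2 * (m : ℝ) / B ≤ ρ ^ 2 := by
    rw [← Real.sqrt_le_left hρ0.le]
    exact le_max_right _ _
  obtain ⟨L, hLdef⟩ : ∃ L : ℝ, L = (1 - ρ) / 5 := ⟨_, rfl⟩
  have hL : 0 < L := by
    rw [hLdef]
    linarith
  -- monotonicity of the stream function
  have hmon : ∀ s t : ℝ, 2 * (m : ℝ) / B < s → s < t → t ≤ 1 → ph B lam m s < ph B lam m t := by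
    intro s t hs hst ht
    have hwc : Continuous (ww B lam m) := hw.continuous
    have h1 : ∫ u in (1 : ℝ)..t, ww B lam m u =
        (∫ u in (1 : ℝ)..s, ww B lam m u) + ∫ u in s..t, ww B lam m u :=
      (intervalIntegral.integral_add_adjacent_intervals (hwc.intervalIntegrable _ _)
        (hwc.intervalIntegrable _ _)).symm
    have h2 : 0 < ∫ u in s..t, -ww B lam m u :=
      intervalIntegral.intervalIntegral_pos_of_pos_on (hwc.neg.intervalIntegrable _ _)
        (fun u hu => by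
          have := hneg u (lt_trans hs hu.1) (le_trans hu.2.le ht)
          linarith) hst
    rw [intervalIntegral.integral_neg] at h2
    unfold ph
    rw [h1]
    linarith
  set c : ℝ := ph B lam m ((ρ + 3 * L) ^ 2) - ph B lam m ((ρ + 2 * L) ^ 2) with hc
  have h5L : ρ + 5 * L = 1 := by
    rw [hLdef]
    ring
  have hm2 : 2 * (m : ℝ) / B < (ρ + L) ^ 2 := by
    have : ρ ^ 2 < (ρ + L) ^ 2 := by nlinarith
    linarith
  have hc0 : 0 < c := by
    have := hmon ((ρ + 2 * L) ^ 2) ((ρ + 3 * L) ^ 2) (by nlinarith) (by nlinarith) (by nlinarith)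
    rw [hc]
    linarith
  have hrot : ∀ z : ℂ, fderiv ℝ (Ph B lam m) z (Complex.I * z) = 0 := by
    intro z
    rw [hfd]
    have : ((starRingEnd ℂ) z * (Complex.I * z)).re = 0 := by
      simp [Complex.mul_re, Complex.mul_im]
      ring
    rw [this]
    simp
  have hb : ∀ z h : ℂ, |fderiv ℝ (Ph B lam m) z h| ≤ K * ‖h‖ := by
    intro z h
    rw [hfd, abs_neg, abs_mul]
    have h1 : |((starRingEnd ℂ) z * h).re| ≤ ‖z‖ * ‖h‖ := by
      refine (Complex.abs_re_le_norm _).trans ?_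
      rw [norm_mul, Complex.norm_conj]
    calc |ww B lam m (‖z‖ ^ 2)| * |((starRingEnd ℂ) z * h).re|
        ≤ |ww B lam m (‖z‖ ^ 2)| * (‖z‖ * ‖h‖) := by gcongr
      _ = |ww B lam m (‖z‖ ^ 2)| * ‖z‖ * ‖h‖ := by ring
      _ ≤ K * ‖h‖ := by
        have := (hKb z).2
        gcongr
  have hpi := Real.pi_pos
  obtain ⟨p, hpdef⟩ : ∃ p : ℝ, p = ρ + L := ⟨_, rfl⟩
  have hp0 : 0 < p := by
    rw [hpdef]
    linarith
  obtain ⟨A, hA⟩ : ∃ A : ℝ, A = 4 * Real.pi / L + 1 / p := ⟨_, rfl⟩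
  have hA0 : 0 < A := by
    rw [hA]
    positivity
  obtain ⟨x, hxdef⟩ : ∃ x : ℝ, x = c * Real.pi / (2 * A) := ⟨_, rfl⟩
  have hx : 0 < x := by
    rw [hxdef]
    positivity
  obtain ⟨ε, hεdef⟩ : ∃ ε : ℝ, ε = p * c * Real.pi / (2 * K) := ⟨_, rfl⟩
  have hε : 0 < ε := by
    rw [hεdef]
    positivity
  refine ⟨x / 8 * (x / 2), by positivity, ε, hε, ?_⟩
  intro Ω hO hvol hcirc G hG _ hs
  by_contra hlt
  have hlt' := not_le.1 hlt
  have hX := ISlit.small hO (fun z => Ph B lam m z - G z) hx hlt'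
  have hcore := ISlit.core (q := ρ + 4 * L) (L := L) (c := c) (p := p) hΦ hG hO hs hrot hK hb hL hp0
    (by rw [hpdef]; linarith) (by linarith) hx hε (by
      intro a ha b hb' θ
      have ha0 : 0 < a := lt_trans hp0 ha.1
      have hb0 : 0 < b := by
        have := hb'.1
        linarith
      have e1 : Ph B lam m (pc b θ) = ph B lam m (b ^ 2) := by
        unfold Ph
        rw [IPC.pc_norm hb0.le]
      have e2 : Ph B lam m (pc a θ) = ph B lam m (a ^ 2) := by
        unfold Ph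
        rw [IPC.pc_norm ha0.le]
      have ha2 : a < ρ + 2 * L := by
        have := ha.2
        rw [hpdef] at this
        linarith
      have ha1 : ρ + L < a := by
        have := ha.1
        rwa [hpdef] at this
      have hb1 : ρ + 3 * L < b := by
        have := hb'.1
        linarith
      have hb2 : b < 1 := by
        have := hb'.2
        linarith
      have e3 := hmon (a ^ 2) ((ρ + 2 * L) ^ 2) (by nlinarith) (by nlinarith) (by nlinarith)
      have e4 := hmon ((ρ + 3 * L) ^ 2) (b ^ 2) (by nlinarith) (by nlinarith) (by nlinarith)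
      rw [e1, e2, hc]
      linarith)
    (by
      intro r hr
      refine hcirc r ⟨?_, ?_⟩
      · have := hr.1
        rw [hpdef] at this
        linarith
      · have := hr.2
        linarith) hvol hX
  have e1 : 2 * (x / L) * (2 * Real.pi) + 1 / p * (x + K * ε) = A * x + K * ε / p := by
    rw [hA]
    field_simp
    ring
  have e2 : A * x = c * Real.pi / 2 := by
    rw [hxdef]
    field_simp
  have e3 : K * ε / p = c * Real.pi / 2 := by
    rw [hεdef]
    field_simp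
  rw [e1, e2, e3] at hcore
  have : 0 < c * Real.pi := by positivity
  linarith

end Pool.Agent.MFK.L1
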