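import Pool.Agent.Work.MP_8826fd_mp.L1.Stmts

/-!
# MP_8826fd_mp, block L1: item Sm (regularity of the cut off ground profile and of the stream function)
-/

set_option autoImplicit false

namespace Pool.Agent.MFK.L1

open MeasureTheory Set Filter Topology Pool.Agent.MFK.NF Pool.Agent.MFK.CD

namespace ISm

variable {B lam : ℝ} {m : ℕ}

theorem pc2 (h : Sp B lam m) : ContDiff ℝ 2 (Pc B lam m) := by
  have h1 : ContDiff ℝ 2 (FK B lam (m : ℤ)) := (gk_rad h.hB h.lam_lt m).smooth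
  have h2 : ContDiff ℝ 2 (fun s : ℝ => Real.smoothTransition (2 - s)) :=
    Real.smoothTransition.contDiff.comp (contDiff_const.sub contDiff_id)
  exact h1.mul h2

theorem ww2 (h : Sp B lam m) : ContDiff ℝ 2 (ww B lam m) := by
  have h1 : ContDiff ℝ 2 (fun s : ℝ => (m : ℝ) * s ^ (m - 1) - B / 2 * s ^ m) :=
    (contDiff_const.mul (contDiff_id.pow _)).sub (contDiff_const.mul (contDiff_id.pow _))
  exact h1.mul ((pc2 h).pow 2)

theorem phd (h : Sp B lam m) (s : ℝ) : HasDerivAt (ph B lam m) (-(1 / 2) * ww B lam m s) s := by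
  have h1 : HasDerivAt (fun u => ∫ t in (1 : ℝ)..u, ww B lam m t) (ww B lam m s) s :=
    ((ww2 h).continuous.integral_hasStrictDerivAt 1 s).hasDerivAt
  exact h1.const_mul (-(1 / 2) : ℝ)

theorem ph2 (h : Sp B lam m) : ContDiff ℝ 2 (ph B lam m) := by
  have h1 : deriv (ph B lam m) = fun s => -(1 / 2) * ww B lam m s :=
    funext fun s => (phd h s).deriv
  have h2 : (2 : WithTop ℕ∞) = 1 + 1 := by norm_num
  rw [h2, contDiff_succ_iff_deriv]
  refine ⟨fun s => (phd h s).differentiableAt, ?_, ?_⟩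
  · intro h3
    simp at h3
  · rw [h1]
    exact contDiff_const.mul ((ww2 h).of_le (by norm_num))

theorem Ph2 (h : Sp B lam m) : ContDiff ℝ 2 (Ph B lam m) := (ph2 h).comp (contDiff_norm_sq ℝ)

theorem v01 (h : Sp B lam m) : ContDiff ℝ 1 (v0 B lam m) := by
  have h1 : ContDiff ℝ 1 (fun z : ℂ => Pc B lam m (‖z‖ ^ 2)) :=
    ((pc2 h).of_le (by norm_num)).comp (contDiff_norm_sq ℝ)
  have h2 : ContDiff ℝ 1 (fun z : ℂ => ((Pc B lam m (‖z‖ ^ 2) : ℝ) : ℂ)) :=
    Complex.ofRealCLM.contDiff.comp h1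
  exact (contDiff_id.pow m).mul h2

theorem Phd (h : Sp B lam m) (z : ℂ) : HasFDerivAt (Ph B lam m)
    ((-(1 / 2) * ww B lam m (‖z‖ ^ 2)) • (2 • (innerSL ℝ z))) z :=
  (phd h (‖z‖ ^ 2)).comp_hasFDerivAt z (hasStrictFDerivAt_norm_sq z).hasFDerivAt

theorem Phv (z k : ℂ) :
    ((-(1 / 2) * ww B lam m (‖z‖ ^ 2)) • (2 • (innerSL ℝ z))) k =
      -(ww B lam m (‖z‖ ^ 2) * ((starRingEnd ℂ) z * k).re) := by
  have h1 : ((-(1 / 2) * ww B lam m (‖z‖ ^ 2)) • (2 • (innerSL ℝ z))) k =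
      (-(1 / 2) * ww B lam m (‖z‖ ^ 2)) * (2 * inner ℝ z k) := by
    rw [two_smul, two_mul]
    rfl
  rw [h1, Complex.inner, mul_comm k]
  ring

end ISm

open ISm in
theorem pr_Sm : StSm := by
  intro B lam m h
  have hP0 : ∀ s : ℝ, 2 ≤ s → Pc B lam m s = 0 := by
    intro s hs
    rw [Pc, Real.smoothTransition.zero_of_nonpos (by linarith), mul_zero]
  have hW0 : ∀ s : ℝ, 2 ≤ s → ww B lam m s = 0 := by
    intro s hs
    rw [ww, hP0 s hs]
    ring
  have hP1 : ∀ s : ℝ, s ≤ 1 → Pc B lam m s = FK B lam (m : ℤ) s := by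
    intro s hs
    rw [Pc, Real.smoothTransition.one_of_one_le (by linarith), mul_one]
  refine ⟨pc2 h, (ww2 h).of_le (by norm_num), ph2 h, Ph2 h, v01 h, fun s hs => ⟨hP0 s hs, hW0 s hs⟩,
    hP1, ?_, ?_, ?_, ?_⟩
  · intro s hs1 hs2
    have hB := h.hB
    have hm0 : (0 : ℝ) ≤ m := Nat.cast_nonneg m
    have hs0 : 0 < s := lt_of_le_of_lt (by positivity) hs1
    have hpos : 0 < Pc B lam m s := by
      rw [hP1 s hs2]
      exact (gk_rad h.hB h.lam_lt m).pos s hs0.le
    have hf : (m : ℝ) * s ^ (m - 1) - B / 2 * s ^ m < 0 := by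
      rcases Nat.eq_zero_or_pos m with h0 | h0
      · subst h0
        simp
        exact hB
      · have e1 : s ^ m = s ^ (m - 1) * s := by
          rw [← pow_succ, Nat.sub_add_cancel h0]
        have e2 : (m : ℝ) - B / 2 * s < 0 := by
          rw [div_lt_iff₀ hB] at hs1
          nlinarith
        have e3 : 0 < s ^ (m - 1) := pow_pos hs0 _
        rw [e1]
        nlinarith [mul_neg_of_neg_of_pos e2 e3]
    rw [ww]
    exact mul_neg_of_neg_of_pos hf (pow_pos hpos 2)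
  · intro z k
    rw [(Phd h z).fderiv, Phv]
  · intro F hF
    have ho : IsOpen (Metric.ball (0 : ℂ) 1) := Metric.isOpen_ball
    refine ⟨?_, ?_⟩
    · have h1 : ContDiffOn ℝ 2 F (Metric.ball 0 1) := (hF.contDiffOn ho (n := 2)).restrict_scalars ℝ
      exact (Ph2 h).comp_contDiffOn h1
    · intro w hw k
      have h1 : HasDerivAt F (deriv F w) w := (hF.differentiableAt (ho.mem_nhds hw)).hasDerivAt
      have h2 := h1.hasFDerivAt.restrictScalars ℝ
      have h3 := ((Phd h (F w)).comp w h2).fderiv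
      change fderiv ℝ (Ph B lam m ∘ F) w k = _
      rw [h3, ContinuousLinearMap.comp_apply, Phv]
      change -(ww B lam m (‖F w‖ ^ 2) * ((starRingEnd ℂ) (F w) * (k * deriv F w)).re) = _
      rw [mul_comm k (deriv F w), mul_assoc]
  · obtain ⟨C, hC⟩ := (isCompact_Icc (a := (0 : ℝ)) (b := 2)).exists_bound_of_continuousOn
      (ww2 h).continuous.continuousOn
    have hb : ∀ s : ℝ, 0 ≤ s → |ww B lam m s| ≤ |C| := by
      intro s hs
      rcases le_total s 2 with h2 | h2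
      · exact ((hC s ⟨hs, h2⟩)).trans (le_abs_self C)
      · rw [hW0 s h2, abs_zero]
        exact abs_nonneg C
    refine ⟨2 * |C| + 1, by positivity, fun z => ⟨?_, ?_⟩⟩
    · have := hb (‖z‖ ^ 2) (by positivity)
      have := abs_nonneg C
      linarith
    · have h1 := hb (‖z‖ ^ 2) (by positivity)
      have h0 := norm_nonneg z
      rcases le_total 2 (‖z‖ ^ 2) with h2 | h2
      · rw [hW0 _ h2, abs_zero, zero_mul]
        positivity
      · have h3 : ‖z‖ ≤ 2 := by nlinarith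
        have h4 : |ww B lam m (‖z‖ ^ 2)| * ‖z‖ ≤ |C| * 2 :=
          mul_le_mul h1 h3 h0 (abs_nonneg C)
        linarith

end Pool.Agent.MFK.L1
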