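import Pool.Agent.Work.MP_8826fd_mp.L1.Stmts
import Pool.Agent.Work.MP_8826fd_mp.NF.I_Den
import Pool.Agent.Work.MP_8826fd_mp.CD.I_Vir

/-!
# MP_8826fd_mp, block L1, item V0 (helper90): the cut-off ground state of the disc
-/

set_option autoImplicit false

namespace Pool.Agent.MFK.L1

open MeasureTheory Set Filter Topology Pool.Agent.MFK.NF Pool.Agent.MFK.CD

namespace IV0

/-- polar coordinates for a function whose values on the disc depend only on `r` -/
lemma polar_rad (f : ℂ → ℝ) (G : ℝ → ℝ) (hG : ∀ r ∈ Ioo (0 : ℝ) 1, ∀ θ : ℝ, f (pc r θ) = G r) :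
    ∫ z in Metric.ball (0 : ℂ) 1, f z = (2 * Real.pi) * ∫ r in (0 : ℝ)..1, r * G r := by
  have hb : MeasurableSet (Metric.ball (0 : ℂ) 1) := Metric.isOpen_ball.measurableSet
  rw [← integral_indicator hb, ← Complex.integral_comp_polarCoord_symm, polarCoord_target]
  have h1 : ∀ p ∈ Ioi (0 : ℝ) ×ˢ Ioo (-Real.pi) Real.pi,
      p.1 • (Metric.ball (0 : ℂ) 1).indicator f (Complex.polarCoord.symm p)
        = (Iio (1 : ℝ)).indicator (fun r => r * G r) p.1 * (fun _ => (1 : ℝ)) p.2 := by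
    rintro ⟨r, θ⟩ ⟨hr, hθ⟩
    have hr0 : (0 : ℝ) < r := hr
    simp only [mul_one]
    rw [← IPC.pc_eq]
    by_cases h2 : r < 1
    · have h3 : pc r θ ∈ Metric.ball (0 : ℂ) 1 := by
        rw [mem_ball_zero_iff, IPC.pc_norm hr0.le]
        exact h2
      rw [indicator_of_mem h3, indicator_of_mem (show r ∈ Iio (1 : ℝ) from h2), smul_eq_mul,
        hG r ⟨hr0, h2⟩ θ]
    · have h3 : pc r θ ∉ Metric.ball (0 : ℂ) 1 := by
        rw [mem_ball_zero_iff, IPC.pc_norm hr0.le]
        exact h2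
      rw [indicator_of_notMem h3, indicator_of_notMem (show r ∉ Iio (1 : ℝ) from h2), smul_zero]
  rw [setIntegral_congr_fun (measurableSet_Ioi.prod measurableSet_Ioo) h1, Measure.volume_eq_prod,
    setIntegral_prod_mul (μ := (volume : Measure ℝ)) (ν := (volume : Measure ℝ))
      ((Iio (1 : ℝ)).indicator (fun r => r * G r)) (fun _ => (1 : ℝ)) (Ioi (0 : ℝ))
      (Ioo (-Real.pi) Real.pi), setIntegral_indicator measurableSet_Iio]
  have h4 : Ioi (0 : ℝ) ∩ Iio 1 = Ioo 0 1 := by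
    ext x
    simp [mem_Ioo]
  rw [h4, intervalIntegral.integral_of_le zero_le_one, integral_Ioc_eq_integral_Ioo, mul_comm]
  congr 1
  simp only [integral_const, MeasurableSet.univ, measureReal_restrict_apply, univ_inter,
    Real.volume_real_Ioo, smul_eq_mul, mul_one]
  rw [max_eq_left (by linarith [Real.pi_pos])]
  ring

/-- energy density of `w^m Ψ(|w|²)` -/
lemma edC_vt (B : ℝ) (m : ℕ) {Ψ : ℝ → ℝ} (hΨ : ContDiff ℝ 2 Ψ) {r : ℝ} (hr : 0 < r) (θ : ℝ) :
    edC B (vt m Ψ) (pc r θ) = deriv (radf (m : ℤ) Ψ) r ^ 2 +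
      qn B (m : ℤ) r ^ 2 * radf (m : ℤ) Ψ r ^ 2 := by
  set z := pc r θ with hz
  set e := Complex.exp (Complex.I * θ) with he
  have hen : ‖e‖ = 1 := by
    rw [he, mul_comm, Complex.norm_exp_ofReal_mul_I]
  set L : ℂ → ℂ := fun h => fderiv ℝ (vt m Ψ) z h -
      Complex.I * ((B * AA z h : ℝ) : ℂ) * vt m Ψ z with hLdef
  have hLlin : ∀ a b : ℝ, L (a + b * Complex.I) = a * L 1 + b * L Complex.I := by
    intro a b
    have h1 : fderiv ℝ (vt m Ψ) z ((a : ℂ) + b * Complex.I) =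
        a * fderiv ℝ (vt m Ψ) z 1 + b * fderiv ℝ (vt m Ψ) z Complex.I := by
      have h2 : (a : ℂ) + b * Complex.I = a • (1 : ℂ) + b • Complex.I := by
        rw [Complex.real_smul, Complex.real_smul, mul_one]
      rw [h2, map_add, map_smul, map_smul, Complex.real_smul, Complex.real_smul]
    have h3 : AA z ((a : ℂ) + b * Complex.I) = a * AA z 1 + b * AA z Complex.I := by
      unfold AA
      simp
      ring
    simp only [hLdef]
    rw [h1, h3]
    push_cast
    ring
  have hconf := IDen.conf L hLlin e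
  have hze : (starRingEnd ℂ) z * e = (r : ℂ) := by
    have h1 : z = (r : ℂ) * e := rfl
    rw [h1, map_mul, Complex.conj_ofReal, mul_assoc]
    have h2 : (starRingEnd ℂ) e * e = 1 := by
      rw [mul_comm, Complex.mul_conj, Complex.normSq_eq_norm_sq, hen]
      norm_num
    rw [h2, mul_one]
  have hA1 : AA z e = 0 := by
    unfold AA
    rw [hze]
    simp
  have hA2 : AA z (Complex.I * e) = r / 2 := by
    unfold AA
    have h1 : (starRingEnd ℂ) z * (Complex.I * e) = Complex.I * ((starRingEnd ℂ) z * e) := by ring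
    rw [h1, hze]
    simp
  have hekn : ‖e ^ m‖ = 1 := by
    rw [norm_pow, hen, one_pow]
  have hvz : vt m Ψ z = ((radf (m : ℤ) Ψ r : ℝ) : ℂ) * e ^ m := IDen.vt_pc m Ψ r θ
  have hn1 : ‖L e‖ ^ 2 = deriv (radf (m : ℤ) Ψ) r ^ 2 := by
    have h1 : L e = ((deriv (radf (m : ℤ) Ψ) r : ℝ) : ℂ) * e ^ m := by
      simp only [hLdef]
      rw [hA1, hz, he, IDen.vt_r m hΨ r θ]
      simp
    rw [h1, norm_mul, hekn, mul_one, Complex.norm_real, Real.norm_eq_abs, sq_abs]
  have hn2 : ‖L (Complex.I * e)‖ ^ 2 = qn B (m : ℤ) r ^ 2 * radf (m : ℤ) Ψ r ^ 2 := by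
    have h1 : L (Complex.I * e) =
        Complex.I * ((qn B (m : ℤ) r * radf (m : ℤ) Ψ r : ℝ) : ℂ) * e ^ m := by
      simp only [hLdef]
      rw [hA2, IDen.vt_t m hΨ hr θ, hvz]
      unfold qn
      push_cast
      ring
    rw [h1, norm_mul, norm_mul, hekn, Complex.norm_I, mul_one, one_mul, Complex.norm_real,
      Real.norm_eq_abs, sq_abs, mul_pow]
  rw [hen, one_pow, one_mul, hn1, hn2] at hconf
  exact hconf.symm

end IV0

open IV0 in
theorem pr_V0 (h : StSm) : StV0 := by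
  intro B lam m hSp
  obtain ⟨hPc, -, -, -, hv, hz, h1, -⟩ := h B lam m hSp
  have hvc : Continuous (v0 B lam m) := hv.continuous
  have hfd : Continuous (fderiv ℝ (v0 B lam m)) := hv.continuous_fderiv (by norm_num)
  have hAA : ∀ c : ℂ, Continuous (fun z : ℂ => AA z c) := by
    intro c
    unfold AA
    fun_prop
  have hed : Continuous (fun z => edC B (v0 B lam m) z) := by
    unfold edC
    have h2 : ∀ c : ℂ, Continuous (fun z => ‖fderiv ℝ (v0 B lam m) z c -
        Complex.I * ((B * AA z c : ℝ) : ℂ) * v0 B lam m z‖ ^ 2) := by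
      intro c
      refine Continuous.pow (Continuous.norm ?_) 2
      refine (hfd.clm_apply continuous_const).sub ?_
      refine Continuous.mul (continuous_const.mul ?_) hvc
      exact Complex.continuous_ofReal.comp (continuous_const.mul (hAA c))
    exact (h2 1).add (h2 Complex.I)
  refine ⟨hed, ?_, ?_⟩
  · have h0 : ∀ z : ℂ, z ∉ Metric.closedBall (0 : ℂ) 2 → v0 B lam m z = 0 := by
      intro z hz2
      rw [mem_closedBall_zero_iff, not_le] at hz2
      have h3 : (2 : ℝ) ≤ ‖z‖ ^ 2 := by nlinarith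
      unfold v0 vt
      rw [(hz _ h3).1]
      simp
    have h0e : ∀ z : ℂ, z ∉ Metric.closedBall (0 : ℂ) 2 → edC B (v0 B lam m) z = 0 := by
      intro z hz2
      have h3 : v0 B lam m =ᶠ[𝓝 z] fun _ => (0 : ℂ) := by
        filter_upwards [Metric.isClosed_closedBall.isOpen_compl.mem_nhds hz2] with w hw
        exact h0 w hw
      unfold edC
      rw [h3.fderiv_eq, h0 z hz2]
      simp
    have hc1 : HasCompactSupport (v0 B lam m) :=
      HasCompactSupport.intro (isCompact_closedBall (0 : ℂ) 2) h0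
    have hc2 : HasCompactSupport (fun z => edC B (v0 B lam m) z) :=
      HasCompactSupport.intro (isCompact_closedBall (0 : ℂ) 2) h0e
    obtain ⟨K1, hK1⟩ := hvc.bounded_above_of_compact_support hc1
    obtain ⟨K2, hK2⟩ := hed.bounded_above_of_compact_support hc2
    refine ⟨max (max K1 K2) 1, lt_max_of_lt_right one_pos, fun z => ⟨?_, ?_⟩⟩
    · exact (hK1 z).trans ((le_max_left _ _).trans (le_max_left _ _))
    · refine le_trans ?_ ((le_max_right K1 K2).trans (le_max_left _ _))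
      exact (le_abs_self _).trans (by simpa using hK2 z)
  · have hrad : ∀ r ∈ Ioo (0 : ℝ) 1, radf (m : ℤ) (Pc B lam m) =ᶠ[𝓝 r] gk B lam m := by
      intro r hr
      filter_upwards [Ioo_mem_nhds hr.1 hr.2] with s hs
      have h3 : s ^ 2 ≤ 1 := by nlinarith [hs.1, hs.2]
      show s ^ (m : ℤ).natAbs * Pc B lam m (s ^ 2) = radf (m : ℤ) (FK B lam (m : ℤ)) s
      rw [h1 _ h3]
      rfl
    have hG : ∀ r ∈ Ioo (0 : ℝ) 1, ∀ θ : ℝ,
        edC B (v0 B lam m) (pc r θ) - lam * ‖v0 B lam m (pc r θ)‖ ^ 2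
          = deriv (gk B lam m) r ^ 2 + (qn B (m : ℤ) r ^ 2 - lam) * gk B lam m r ^ 2 := by
      intro r hr θ
      have e1 : edC B (v0 B lam m) (pc r θ) = edC B (vt m (Pc B lam m)) (pc r θ) := rfl
      have e2 : v0 B lam m (pc r θ) = vt m (Pc B lam m) (pc r θ) := rfl
      rw [e1, edC_vt B m hPc hr.1 θ, e2, IDen.vt_pc, norm_mul, norm_pow, mul_comm Complex.I,
        Complex.norm_exp_ofReal_mul_I, one_pow, mul_one, Complex.norm_real, Real.norm_eq_abs,
        sq_abs, (hrad r hr).deriv_eq, (hrad r hr).eq_of_nhds]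
      ring
    have hI := (pr_Vir B lam m hSp).2
    have h4 := polar_rad (fun z => edC B (v0 B lam m) z - lam * ‖v0 B lam m z‖ ^ 2)
      (fun r => deriv (gk B lam m) r ^ 2 + (qn B (m : ℤ) r ^ 2 - lam) * gk B lam m r ^ 2) hG
    rw [h4]
    have h5 : (∫ r in (0 : ℝ)..1, r * (deriv (gk B lam m) r ^ 2 +
        (qn B (m : ℤ) r ^ 2 - lam) * gk B lam m r ^ 2)) = Il B lam (m : ℤ) (gk B lam m) := by
      unfold Il
      refine intervalIntegral.integral_congr fun r _ => ?_
      show r * (deriv (gk B lam m) r ^ 2 + (qn B (m : ℤ) r ^ 2 - lam) * gk B lam m r ^ 2) =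
        r * deriv (gk B lam m) r ^ 2 + (qn B (m : ℤ) r ^ 2 - lam) * (r * gk B lam m r ^ 2)
      ring
    rw [h5, hI, mul_zero]

end Pool.Agent.MFK.L1
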