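import Pool.Agent.Work.MP_8826fd_mp.CD.All
import Pool.Agent.Work.MP_8826fd_mp.L1.I_Sm
import Pool.Agent.Work.MP_8826fd_mp.L1.I_V0
import Pool.Agent.Work.MP_8826fd_mp.L1.I_En
import Pool.Agent.Work.MP_8826fd_mp.L1.I_Circ
import Pool.Agent.Work.MP_8826fd_mp.L1.I_Slit
import Pool.Agent.Work.MP_8826fd_mp.L1.I_Inv
import Pool.Agent.Work.MP_8826fd_mp.L1.I_Dil
import Pool.Agent.Work.MP_8826fd_mp.L1.I_Grn
import Pool.Agent.Work.MP_8826fd_mp.L1.I_Fou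
import Pool.Agent.Work.MP_8826fd_mp.L1.I_Apx
import Pool.Agent.Work.MP_8826fd_mp.L1.I_Prj
import Pool.Agent.Work.MP_8826fd_mp.L1.I_Low
import Pool.Agent.Work.MP_8826fd_mp.L1.I_Gap
import Pool.Agent.Work.MP_8826fd_mp.L1.I_MUL
import Pool.Agent.Work.MP_8826fd_mp.L1.I_FinL

/-!
# MP_8826fd_mp, block L1: the main theorem
-/

set_option autoImplicit false

namespace Pool.Agent.MFK.L1

theorem hV0 : StV0 := pr_V0 pr_Sm
theorem hEn : StEn := pr_En pr_Sm hV0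
theorem hSlit : StSlit := pr_Slit pr_Sm
theorem hPrj : StPrj := pr_Prj pr_Sm (pr_Dil pr_Sm) (pr_Apx pr_Grn pr_Fou) pr_Inv
theorem hLow : StLow := pr_Low hPrj hSlit pr_Circ
theorem hGap : StGap := pr_Gap hV0 hEn hLow
theorem hMUL : StMUL := pr_MUL hGap CD.hMU CD.pr_Sp2
theorem hFinL : StFinL := pr_FinL hMUL

end Pool.Agent.MFK.L1
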