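import Pool.Agent.Work.MP_8826fd_mp.CD.Core
import Pool.Agent.Work.MP_8826fd_mp.CD.I_C1p
import Pool.Agent.Work.MP_8826fd_mp.NF.I_Ray
import Pool.Agent.Work.MP_8826fd_mp.NF.I_PC

/-!
# MP_8826fd_mp, block L1: local maximality in the `L¹` distance.  Captain helper34.

GOAL.  For all `B, R > 0` there are `ε, c > 0` such that every open simply connected `Ω ⊂ ℝ²` of area `π R²` with `|Ω ∖ D(q₀,R)| ≤ ε` for some `q₀`
(small Fraenkel asymmetry, nothing else: slits, labyrinths, tentacles, holes connected by slits are allowed) satisfies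
`λ(B, Ω) ≤ λ(B, D_R) - c ∫_{Ω Δ D(q,R)} min(||x - q| - R|, R) dx` for some `q`, with equality of the eigenvalues only for discs.

METHOD (`R = 1`, `q₀ = 0`).  If `D(0, 1-h) ⊂ Ω` the block CD applies.  Otherwise `Ω` misses a point `p₀`, `|p₀| ≤ 1 - h`, and every circle `|z| = r`, `r > 1 - h`, meets the complement of `Ω` (simple connectivity).  Then `λ(B, Ω) ≤ λ(B, D) - c(h)`:
let `v₀ = f(r) e^{imθ}` be the ground state of the disc, cut off outside the disc, with current `J = Im(conj v₀ ∇_A v₀) = r w(r²) θ̂` (`w = ww`), and `Φ(z) = ph(|z|²)`, `∇Φ = -r w(r²) r̂`.  For a polynomial `p` and the inverse `f : Ω → D` of the Riemann map `F`,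
`E(v₀ e^{itϑ}) = E(v₀) + 2t ∫ J·∇ϑ + t² ∫ |v₀|² |∇ϑ|²`, `ϑ = Im p(f(z))`, and `∫_Ω J·∇ϑ = LL(p) = -∫_D ∇(Φ∘F)·∇Re p`.  If `|LL(p)| ≤ η ‖p'‖_2` for all `p` then (projection to the harmonic functions of the disc) `Φ∘F` is
within `η` of a function `P ∈ C¹_c(D)` in the Dirichlet norm, so `Φ` is within `η` of `G = P∘f ∈ C¹_c(Ω)`; but `G` vanishes at a point of each circle `|z| = r > 1 - h`, which forces `G` to be small there, while `∂_r Φ ≠ 0`: contradiction for small `η`.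
-/

set_option autoImplicit false

namespace Pool.Agent.MFK.L1

open MeasureTheory Set Filter Topology Pool.Agent.MFK.NF Pool.Agent.MFK.CD

/-- the ground profile, cut off: equals `FK B lam m` for `s ≤ 1` and vanishes for `s ≥ 2` -/
noncomputable def Pc (B lam : ℝ) (m : ℕ) (s : ℝ) : ℝ := FK B lam (m : ℤ) s * Real.smoothTransition (2 - s)

/-- `v₀(z) = z^m Pc(|z|²)` -/
noncomputable def v0 (B lam : ℝ) (m : ℕ) (z : ℂ) : ℂ := vt m (Pc B lam m) z

/-- `w(s)`: the current of `v₀` is `r w(r²) θ̂`, `r w(r²) = (m/r - B r/2) |v₀|²` -/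
noncomputable def ww (B lam : ℝ) (m : ℕ) (s : ℝ) : ℝ := ((m : ℝ) * s ^ (m - 1) - B / 2 * s ^ m) * Pc B lam m s ^ 2

/-- `φ(s) = -½ ∫₁^s w` -/
noncomputable def ph (B lam : ℝ) (m : ℕ) (s : ℝ) : ℝ := -(1 / 2) * ∫ t in (1 : ℝ)..s, ww B lam m t

/-- the stream function `Φ(z) = φ(|z|²)` -/
noncomputable def Ph (B lam : ℝ) (m : ℕ) (z : ℂ) : ℝ := ph B lam m (‖z‖ ^ 2)

/-- square of the norm of the gradient -/
noncomputable def gsq (G : ℂ → ℝ) (z : ℂ) : ℝ := fderiv ℝ G z 1 ^ 2 + fderiv ℝ G z Complex.I ^ 2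

/-- `∫_D |p'|²` -/
noncomputable def NN (p : Polynomial ℂ) : ℝ := ∫ w in Metric.ball (0 : ℂ) 1, ‖p.derivative.eval w‖ ^ 2

/-- `∫_D w(|F|²) Re(F conj(F') p')` -/
noncomputable def LL (B lam : ℝ) (m : ℕ) (F : ℂ → ℂ) (p : Polynomial ℂ) : ℝ :=
  ∫ w in Metric.ball (0 : ℂ) 1, ww B lam m (‖F w‖ ^ 2) * (F w * (starRingEnd ℂ) (deriv F w) * p.derivative.eval w).re

/-- the test function `v₀ e^{it Im p(f)}` -/
noncomputable def U1 (B lam : ℝ) (m : ℕ) (f : ℂ → ℂ) (p : Polynomial ℂ) (t : ℝ) (z : ℂ) : ℂ :=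
  v0 B lam m z * Complex.exp (Complex.I * ((t * (p.eval (f z)).im : ℝ) : ℂ))

end Pool.Agent.MFK.L1
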