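import Pool.Agent.Work.MP_8826fd_mp.L1.Stmts

/-!
# Item Fou of block L1: Fourier series of a twice continuously differentiable function on the circle.
-/

set_option autoImplicit false

namespace Pool.Agent.MFK.L1

open MeasureTheory Set Filter Topology Pool.Agent.MFK.NF Pool.Agent.MFK.CD

namespace IFou

/-- the Fourier coefficient on the interval from 0 to 2 pi -/
noncomputable def cf (f : ℝ → ℂ) (n : ℤ) : ℂ :=
  (1 / (2 * Real.pi) : ℝ) • ∫ x in (0 : ℝ)..(2 * Real.pi), Complex.exp (-(Complex.I * n * x)) * f x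

lemma hab : (0 : ℝ) < 2 * Real.pi := Real.two_pi_pos

lemma on_eq (f : ℝ → ℂ) (n : ℤ) : fourierCoeffOn hab f n = cf f n := by
  rw [fourierCoeffOn_eq_integral, cf, sub_zero]
  congr 1
  apply intervalIntegral.integral_congr
  intro x _
  simp only [smul_eq_mul]
  rw [fourier_coe_apply]
  congr 2
  have : (Real.pi : ℂ) ≠ 0 := by exact_mod_cast Real.pi_ne_zero
  push_cast
  field_simp

lemma lift_eq (F : AddCircle (2 * Real.pi) → ℂ) (f : ℝ → ℂ) (hF : ∀ x : ℝ, F (x : AddCircle (2 * Real.pi)) = f x)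
    (n : ℤ) : @fourierCoeff (2 * Real.pi) ⟨hab⟩ ℂ _ _ F n = cf f n := by
  have : Fact (0 < 2 * Real.pi) := ⟨hab⟩
  rw [fourierCoeff_eq_intervalIntegral F n 0, cf, zero_add]
  congr 1
  apply intervalIntegral.integral_congr
  intro x _
  simp only [smul_eq_mul]
  rw [fourier_coe_apply, hF]
  congr 2
  have : (Real.pi : ℂ) ≠ 0 := by exact_mod_cast Real.pi_ne_zero
  push_cast
  field_simp

/-- integration by parts for periodic functions -/
lemma parts (f : ℝ → ℂ) (hd : Differentiable ℝ f) (hc : Continuous (deriv f)) (hp : f (2 * Real.pi) = f 0)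
    (n : ℤ) (hn : n ≠ 0) : cf f n = cf (deriv f) n / (Complex.I * n) := by
  have h := fourierCoeffOn_of_hasDerivAt hab (f := f) (f' := deriv f) (n := n) hn
    (fun x _ => (hd x).hasDerivAt) (hc.intervalIntegrable _ _)
  rw [on_eq, on_eq, hp] at h
  rw [h]
  have h1 : (Real.pi : ℂ) ≠ 0 := by exact_mod_cast Real.pi_ne_zero
  have h2 : (n : ℂ) ≠ 0 := by exact_mod_cast hn
  have h3 := Complex.I_ne_zero
  push_cast
  field_simp
  ring

lemma parts2 (f : ℝ → ℂ) (hf : ContDiff ℝ 2 f) (hp : Function.Periodic f (2 * Real.pi))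
    (n : ℤ) (hn : n ≠ 0) : ‖cf f n‖ = ‖cf (deriv (deriv f)) n‖ / (n : ℝ) ^ 2 := by
  have h2 : ContDiff ℝ (1 + 1) f := by
    have : (1 + 1 : WithTop ℕ∞) = 2 := one_add_one_eq_two
    rw [this]; exact hf
  have h1 : ContDiff ℝ 1 (deriv f) := (contDiff_succ_iff_deriv.1 h2).2.2
  have hd1 : Differentiable ℝ f := hf.differentiable (by norm_num)
  have hd2 : Differentiable ℝ (deriv f) := h1.differentiable (by norm_num)
  have hc2 : Continuous (deriv (deriv f)) := (contDiff_one_iff_deriv.1 h1).2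
  have hp2 : deriv f (2 * Real.pi) = deriv f 0 := by
    have e : (fun x : ℝ => f (x + 2 * Real.pi)) = f := funext hp
    have := deriv_comp_add_const f (2 * Real.pi) 0
    rw [e, zero_add] at this
    exact this.symm
  have hp1 : f (2 * Real.pi) = f 0 := by simpa using hp 0
  rw [parts f hd1 h1.continuous hp1 n hn, parts (deriv f) hd2 hc2 hp2 n hn, norm_div, norm_div, norm_mul,
    Complex.norm_I, one_mul, div_div]
  congr 1
  rw [Complex.norm_intCast, ← sq, sq_abs]

lemma summ (f : ℝ → ℂ) (hf : ContDiff ℝ 2 f) (hp : Function.Periodic f (2 * Real.pi)) :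
    Summable (fun n : ℤ => |(n : ℝ)| * ‖cf f n‖) := by
  have h2 : ContDiff ℝ (1 + 1) f := by
    have : (1 + 1 : WithTop ℕ∞) = 2 := one_add_one_eq_two
    rw [this]; exact hf
  have h1 : ContDiff ℝ 1 (deriv f) := (contDiff_succ_iff_deriv.1 h2).2.2
  have hc2 : Continuous (deriv (deriv f)) := (contDiff_one_iff_deriv.1 h1).2
  have hL : MemLp (deriv (deriv f)) 2 (volume.restrict (Ioc 0 (2 * Real.pi))) := by
    obtain ⟨C, hC⟩ := (isCompact_Icc (a := (0 : ℝ)) (b := 2 * Real.pi)).exists_bound_of_continuousOn hc2.continuousOn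
    refine MemLp.of_bound hc2.aestronglyMeasurable C ?_
    filter_upwards [ae_restrict_mem measurableSet_Ioc] with x hx
    exact hC x (Ioc_subset_Icc_self hx)
  have h4 := (hasSum_sq_fourierCoeffOn hab hL).summable
  have h5 : Summable (fun n : ℤ => 1 / (n : ℝ) ^ 2) := Real.summable_one_div_int_pow.2 (by norm_num)
  refine Summable.of_nonneg_of_le (fun n => by positivity) (fun n => ?_) (h4.add h5)
  rcases eq_or_ne n 0 with h0 | h0
  · subst h0; simp
  · rw [parts2 f hf hp n h0, on_eq]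
    have hn : (0 : ℝ) < |(n : ℝ)| := by positivity
    rw [← sq_abs (n : ℝ)]
    have : |(n : ℝ)| * (‖cf (deriv (deriv f)) n‖ / |(n : ℝ)| ^ 2) = ‖cf (deriv (deriv f)) n‖ * (1 / |(n : ℝ)|) := by
      field_simp
    rw [this]
    have h6 : 1 / |(n : ℝ)| ^ 2 = (1 / |(n : ℝ)|) ^ 2 := by rw [div_pow, one_pow]
    rw [h6]
    nlinarith [sq_nonneg (‖cf (deriv (deriv f)) n‖ - 1 / |(n : ℝ)|), norm_nonneg (cf (deriv (deriv f)) n),
      mul_nonneg (norm_nonneg (cf (deriv (deriv f)) n)) (by positivity : (0 : ℝ) ≤ 1 / |(n : ℝ)|)]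

lemma summ0 (f : ℝ → ℂ) (hf : ContDiff ℝ 2 f) (hp : Function.Periodic f (2 * Real.pi)) :
    Summable (fun n : ℤ => cf f n) := by
  apply Summable.of_norm
  have h1 : Summable (fun n : ℤ => if n = 0 then ‖cf f 0‖ else 0) := (hasSum_ite_eq 0 _).summable
  refine Summable.of_nonneg_of_le (fun n => norm_nonneg _) (fun n => ?_) ((summ f hf hp).add h1)
  rcases eq_or_ne n 0 with h0 | h0
  · subst h0; simp
  · simp only [h0, if_false, add_zero]
    have : (1 : ℝ) ≤ |(n : ℝ)| := by
      have := Int.one_le_abs h0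
      exact_mod_cast this
    nlinarith [norm_nonneg (cf f n)]

lemma series (f : ℝ → ℂ) (hf : ContDiff ℝ 2 f) (hp : Function.Periodic f (2 * Real.pi)) (x : ℝ) :
    HasSum (fun n : ℤ => cf f n * Complex.exp (Complex.I * n * x)) (f x) := by
  have : Fact (0 < 2 * Real.pi) := ⟨hab⟩
  let F : C(AddCircle (2 * Real.pi), ℂ) := ⟨hp.lift, by
    apply Continuous.quotient_liftOn'
    exact hf.continuous⟩
  have hF : ∀ x : ℝ, F (x : AddCircle (2 * Real.pi)) = f x := fun x => by
    exact hp.lift_coe x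
  have hc : (fourierCoeff (F : AddCircle (2 * Real.pi) → ℂ)) = cf f := funext (lift_eq F f hF)
  have h := has_pointwise_sum_fourier_series_of_summable (f := F) (by rw [hc]; exact summ0 f hf hp) (x : AddCircle (2 * Real.pi))
  rw [hF, hc] at h
  have e : (fun n : ℤ => cf f n • (fourier n : C(AddCircle (2 * Real.pi), ℂ)) (x : AddCircle (2 * Real.pi)))
      = fun n : ℤ => cf f n * Complex.exp (Complex.I * n * x) := by
    funext n
    rw [smul_eq_mul, fourier_coe_apply]
    congr 2
    have : (Real.pi : ℂ) ≠ 0 := by exact_mod_cast Real.pi_ne_zero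
    push_cast
    field_simp
  rw [e] at h
  exact h

lemma conj_cf (f : ℝ → ℝ) (n : ℤ) :
    (starRingEnd ℂ) (cf (fun x => (f x : ℂ)) n)
      = (1 / (2 * Real.pi) : ℝ) • ∫ x in (0 : ℝ)..(2 * Real.pi), Complex.exp (Complex.I * n * x) * (f x : ℂ) := by
  have h := @intervalIntegral.intervalIntegral_conj ℂ _
    (fun x : ℝ => Complex.exp (-(Complex.I * n * x)) * (f x : ℂ)) 0 (2 * Real.pi) volume
  rw [cf, Complex.real_smul, Complex.real_smul, map_mul, Complex.conj_ofReal, ← h]
  congr 1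
  apply intervalIntegral.integral_congr
  intro x _
  simp only [map_mul, Complex.conj_ofReal, ← Complex.exp_conj, map_neg, Complex.conj_I]
  congr 2
  rw [map_intCast]
  ring

lemma cf_neg (f : ℝ → ℝ) (n : ℤ) :
    cf (fun x => (f x : ℂ)) (-n) = (starRingEnd ℂ) (cf (fun x => (f x : ℂ)) n) := by
  rw [conj_cf, cf]
  congr 1
  apply intervalIntegral.integral_congr
  intro x _
  simp only
  congr 2
  push_cast
  ring

lemma realseries (f : ℝ → ℝ) (hf : ContDiff ℝ 2 (fun x => (f x : ℂ))) (hp : Function.Periodic f (2 * Real.pi)) (x : ℝ) :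
    HasSum (fun n : ℕ => ((if n = 0 then cf (fun x => (f x : ℂ)) 0 else 2 * cf (fun x => (f x : ℂ)) n)
      * Complex.exp (Complex.I * n * x)).re) (f x) := by
  have hp' : Function.Periodic (fun x => (f x : ℂ)) (2 * Real.pi) := fun x => by simp only [hp x]
  have h := (series _ hf hp' x).nat_add_neg
  have h1 := Complex.hasSum_re h
  have h2 := h1.sub (hasSum_ite_eq (0 : ℕ) (cf (fun x => (f x : ℂ)) 0).re)
  have e : ((f x : ℂ) + cf (fun x => (f x : ℂ)) 0 * Complex.exp (Complex.I * ((0 : ℤ) : ℂ) * x)).re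
      - (cf (fun x => (f x : ℂ)) 0).re = f x := by
    simp
  rw [e] at h2
  refine h2.congr_fun ?_
  intro n
  rcases eq_or_ne n 0 with h0 | h0
  · subst h0; simp
  · have e1 : cf (fun x => (f x : ℂ)) (-(n : ℤ)) * Complex.exp (Complex.I * ((-(n : ℤ) : ℤ) : ℂ) * x)
        = (starRingEnd ℂ) (cf (fun x => (f x : ℂ)) n * Complex.exp (Complex.I * ((n : ℤ) : ℂ) * x)) := by
      rw [cf_neg, map_mul, ← Complex.exp_conj]
      congr 2
      rw [map_mul, map_mul, Complex.conj_ofReal, Complex.conj_I, map_intCast]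
      push_cast
      ring
    rw [e1, Complex.add_re, Complex.conj_re]
    simp only [h0, if_false, sub_zero, Int.cast_natCast]
    rw [mul_assoc, Complex.mul_re 2]
    simp
    ring

end IFou

theorem pr_Fou : StFou := by
  intro U₁ R' hR hU
  set f : ℝ → ℝ := fun θ => U₁ (pc 1 θ) with hf
  have hm : ∀ θ : ℝ, pc 1 θ ∈ Metric.ball (0 : ℂ) R' := by
    intro θ
    rw [mem_ball_zero_iff, IPC.pc_norm zero_le_one]
    exact hR
  have hpc : ContDiff ℝ 2 (fun θ : ℝ => pc 1 θ) := by
    unfold pc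
    apply ContDiff.mul contDiff_const
    apply ContDiff.cexp
    exact contDiff_const.mul Complex.ofRealCLM.contDiff
  have hfc : ContDiff ℝ 2 f := by
    rw [contDiff_iff_contDiffAt]
    intro θ
    exact (hU.contDiffAt (Metric.isOpen_ball.mem_nhds (hm θ))).comp θ hpc.contDiffAt
  have hfC : ContDiff ℝ 2 (fun x => (f x : ℂ)) := Complex.ofRealCLM.contDiff.comp hfc
  have hp : Function.Periodic f (2 * Real.pi) := by
    intro θ
    simp only [hf]
    rw [IPC.pc_per]
  have hp' : Function.Periodic (fun x => (f x : ℂ)) (2 * Real.pi) := fun x => by simp only [hp x]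
  have hpow : ∀ (n : ℕ) (θ : ℝ), pc 1 θ ^ n = Complex.exp (Complex.I * n * θ) := by
    intro n θ
    rw [pc, Complex.ofReal_one, one_mul, ← Complex.exp_nat_mul]
    congr 1; ring
  refine ⟨fun n => if n = 0 then IFou.cf (fun x => (f x : ℂ)) 0 else 2 * IFou.cf (fun x => (f x : ℂ)) n, ?_, ?_, ?_⟩
  · have h := ((IFou.summ _ hfC hp').comp_injective Nat.cast_injective).mul_left 2
    refine h.congr ?_
    intro n
    rcases eq_or_ne n 0 with h0 | h0
    · subst h0; simp
    · simp only [h0, if_false, Function.comp, norm_mul, Complex.norm_ofNat, Int.cast_natCast, Nat.abs_cast]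
      ring
  · intro θ
    have h := IFou.realseries f hfC hp θ
    simp only [hpow]
    exact h
  · intro n hn
    have hn0 : n ≠ 0 := by omega
    simp only [hn0, if_false, map_mul, hpow]
    rw [IFou.conj_cf]
    have h1 : (Real.pi : ℂ) ≠ 0 := by exact_mod_cast Real.pi_ne_zero
    have e : (∫ x in (0 : ℝ)..(2 * Real.pi), Complex.exp (Complex.I * ((n : ℤ) : ℂ) * x) * (f x : ℂ))
        = ∫ θ in (0 : ℝ)..(2 * Real.pi), (U₁ (pc 1 θ) : ℂ) * Complex.exp (Complex.I * n * θ) := by
      apply intervalIntegral.integral_congr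
      intro x _
      simp only [hf, Int.cast_natCast]
      ring
    rw [e, Complex.real_smul]
    have h2 : (starRingEnd ℂ) (2 : ℂ) = 2 := Complex.conj_ofNat 2
    rw [h2]
    push_cast
    field_simp

end Pool.Agent.MFK.L1
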