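import Pool.Agent.Work.MP_8826fd_mp.L1.Defs

/-!
# MP_8826fd_mp, block L1: statements of the items, each with its proof in the docstring.  Captain helper34.

FORMAT.  Item NAME: file `L1/I_NAME.lean`, namespace `Pool.Agent.MFK.L1`, auxiliary lemmas in the namespace `INAME`, main theorem
`theorem pr_NAME (h1 : StA) ... : StNAME`.  The hypotheses are only the statements named in the docstring.
USEFUL (proved): `NF/Gk.lean`, `NF/I_PC.lean` (`IPC.cov` area formula for conformal maps, `IPC.polar`, `pc`), `NF/I_Ray.lean` (`pr_Ray`, Rayleigh quotient bound), `NF/I_Den.lean`, `CD/Core.lean`, `CD/I_*.lean` (all items of CD), `RT/I_*.lean`, `NF/I_Fin.lean`, `CD/I_Fin.lean`.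
-/

set_option autoImplicit false

namespace Pool.Agent.MFK.L1

open MeasureTheory Set Filter Topology Pool.Agent.MFK.NF Pool.Agent.MFK.CD

/-- ITEM Sm (regularity; `FK B lam m` is `C²` by `gk_rad`, `(..).smooth`, for `0 < B`, `lam < B`; `Real.smoothTransition` is smooth, `= 1` for arguments `≥ 1`, `= 0` for arguments `≤ 0`).  `ph' = -½ ww` is `C²`.  `Ph` has the derivative `h ↦ -w(|z|²) Re(conj z h)` (`|z|²` has the derivative `2 Re(conj z h)`),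
and for `F` holomorphic `Ph ∘ F` has the derivative `h ↦ -w(|F|²) Re(conj F F' h)`.  `|z| w(|z|²)`, `w(|z|²)` are bounded: continuous with compact support. -/
def StSm : Prop := ∀ (B lam : ℝ) (m : ℕ), Sp B lam m →
  ContDiff ℝ 2 (Pc B lam m) ∧ ContDiff ℝ 1 (ww B lam m) ∧ ContDiff ℝ 2 (ph B lam m) ∧ ContDiff ℝ 2 (Ph B lam m) ∧ ContDiff ℝ 1 (v0 B lam m) ∧
  (∀ s : ℝ, 2 ≤ s → Pc B lam m s = 0 ∧ ww B lam m s = 0) ∧ (∀ s : ℝ, s ≤ 1 → Pc B lam m s = FK B lam (m : ℤ) s) ∧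
  (∀ s : ℝ, 2 * m / B < s → s ≤ 1 → ww B lam m s < 0) ∧
  (∀ z h : ℂ, fderiv ℝ (Ph B lam m) z h = -(ww B lam m (‖z‖ ^ 2) * ((starRingEnd ℂ) z * h).re)) ∧
  (∀ F : ℂ → ℂ, DifferentiableOn ℂ F (Metric.ball 0 1) → ContDiffOn ℝ 2 (fun w => Ph B lam m (F w)) (Metric.ball 0 1) ∧
    ∀ w ∈ Metric.ball (0 : ℂ) 1, ∀ h : ℂ, fderiv ℝ (fun w => Ph B lam m (F w)) w h
      = -(ww B lam m (‖F w‖ ^ 2) * ((starRingEnd ℂ) (F w) * deriv F w * h).re)) ∧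
  ∃ K > (0 : ℝ), ∀ z : ℂ, |ww B lam m (‖z‖ ^ 2)| ≤ K ∧ |ww B lam m (‖z‖ ^ 2)| * ‖z‖ ≤ K

/-- ITEM V0 (uses StSm, `pr_Vir`).  `v₀` and its derivative are continuous with compact support (`Pc = 0` for `s ≥ 2`), so `edC B v₀` and `‖v₀‖` are bounded and continuous.  On the unit disc (polar coordinates `IPC.polar`, or real notation as in `RT/I_Ud.lean`): `edC B v₀ (pc r θ) = g'(r)² + (m/r - B r/2)² g(r)²`,
`g = gk B lam m`, so `∫_D (edC - lam ‖v₀‖²) = 2π Il B lam m g = 0` (`CD.StVir`, proved: `CD.pr_Vir`). -/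
def StV0 : Prop := ∀ (B lam : ℝ) (m : ℕ), Sp B lam m → Continuous (fun z => edC B (v0 B lam m) z) ∧
  (∃ K > (0 : ℝ), ∀ z : ℂ, ‖v0 B lam m z‖ ≤ K ∧ edC B (v0 B lam m) z ≤ K) ∧
  (∫ z in Metric.ball (0 : ℂ) 1, (edC B (v0 B lam m) z - lam * ‖v0 B lam m z‖ ^ 2)) = 0

/-- ITEM En (energy of the test function; uses StSm, StV0).  `U1 = v₀ e^{itϑ}`, `ϑ = Im p(f)`; `H = p ∘ f` is holomorphic on `Ω`, `dϑ(h) = Im(H' h)`.  `∇_A U1 = e^{itϑ} (∇_A v₀ + i t v₀ ∇ϑ)`, so `edC B U1 = edC B v₀ + 2t J·∇ϑ + t² ‖v₀‖² |H'|²`, where `J_j = Im(conj v₀ (∇_A v₀)_j)`, `j = 1, 2`;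
`v₀ = z^m Pc(|z|²)`: `J·∇ϑ = w(|z|²) dϑ(iz) = w(|z|²) Re(z H'(z))` (direct computation: `dv₀(h) = m z^{m-1} h Pc + z^m Pc' 2 Re(conj z h)`, `Im(conj v₀ dv₀(h)) = m |z|^{2m-2} Pc² Im(conj z h)`, minus `B |v₀|² Im(conj z h)/2`; so `J·∇ϑ = ∑_j w Im(conj z e_j) dϑ(e_j) = w dϑ(iz)`).
Change of variables `z = F(w)` (`IPC.cov`, integrable because everything is bounded by a constant times `1 + |H'|²`, `∫_Ω |H'|² = ∫_D |p'|²`): `H'(F w) = p'(w)/F'(w)`, `∫_Ω w Re(z H') = LL`, `∫_Ω ‖v₀‖² |H'|² ≤ K² NN`. -/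
def StEn : Prop := ∀ (B lam K t : ℝ) (m : ℕ) (Ω : Set ℂ) (f F : ℂ → ℂ) (a : ℕ → ℂ) (p : Polynomial ℂ), Sp B lam m → CMc Ω f F a → volume Ω ≠ ⊤ →
  (∀ z : ℂ, ‖v0 B lam m z‖ ≤ K) →
  ContDiffOn ℝ 1 (U1 B lam m f p t) Ω ∧ (∀ z ∈ Ω, ‖U1 B lam m f p t z‖ = ‖v0 B lam m z‖) ∧
  (∫⁻ z in Ω, ENNReal.ofReal (edC B (U1 B lam m f p t) z)) ≠ ⊤ ∧
  (∫⁻ z in Ω, ENNReal.ofReal (edC B (U1 B lam m f p t) z)).toReal
    ≤ (∫ z in Ω, edC B (v0 B lam m) z) + 2 * t * LL B lam m F p + t ^ 2 * K ^ 2 * NN p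

/-- ITEM Circ (topology).  Riemann map `F`, `f` (`CD.pr_C1p`, `Ω` contains a point).  If the whole circle `|z| = r` is in `Ω`: `1/(z - p₀)` is holomorphic on `Ω`; `F'(w)/(F(w) - p₀)` has a primitive `L` on the ball (Mathlib: holomorphic functions on a ball have primitives), `L ∘ f` is a primitive of `1/(z - p₀)` on `Ω`, so the circle
integral of `1/(z - p₀)` over `|z| = r` vanishes (`circleIntegral.integral_eq_zero_of_hasDerivWithinAt'`), but it is `2πi` (`circleIntegral.integral_sub_inv_of_mem_ball`). -/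
def StCirc : Prop := ∀ (Ω : Set ℂ) (p₀ : ℂ) (r : ℝ), IsOpen Ω → IsSimplyConnected Ω → p₀ ∉ Ω → ‖p₀‖ < r → ∃ θ : ℝ, pc r θ ∉ Ω

/-- ITEM Slit (uses StSm).  `r_q² = 2m/B < 1`.  Choose `max(1-h, r_q) < r₁ < r₂ < 1` and a `C¹` function `ξ ≥ 0` on `ℝ`, supported in `[r₁, r₂]`, not `0`.  `D² = ∫_Ω gsq(Φ - G)` (may assume finite).  `I = ∫_ℂ ξ(|z|) dG(z)(z/|z|) dz = ∫_0^{2π} ∫_0^∞ r ξ ∂_r G dr dθ = -∫∫ (r ξ)' G dr dθ` (integration by parts in `r`).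
For `r ∈ (r₁, r₂)` the function `θ ↦ G(pc r θ)` is `C¹`, periodic and `0` at some point (a point of the circle outside `Ω`), so `|G(pc r θ)| ≤ V(r) = ∫_0^{2π} |∂_θ G(pc r θ)| dθ`, hence `|I| ≤ C ∫_{r₁}^{r₂} V`.  `∂_θ G = dG(i z) = -d(Φ - G)(iz)` on `Ω` (`dΦ(iz) = 0`), `= 0` off `Ω` (support of `G`), so
`∫_{r₁}^{r₂} V(r) dr ≤ ∫_{Ω ∩ {r₁ < |z| < r₂}} √gsq(Φ - G) dz ≤ √π D`.  On the other hand `I = ∫_Ω ξ dΦ(z/|z|) - ∫_Ω ξ d(Φ-G)(z/|z|) ≥ ∫_Ω ξ(|z|) |z| |w(|z|²)| dz - C D ≥ c₀ - C ε - C D`, `c₀ = ∫_{ball} ξ |z| |w| > 0` (StSm: `w < 0` there).  So `D ≥ c₀/(2C')` for small `ε`. -/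
def StSlit : Prop := ∀ (B lam h : ℝ) (m : ℕ), Sp B lam m → 0 < h → h < 1 → ∃ κ > (0 : ℝ), ∃ ε > (0 : ℝ), ∀ Ω : Set ℂ, IsOpen Ω →
  volume (Metric.ball 0 1 \ Ω) ≤ ENNReal.ofReal ε → (∀ r ∈ Ioo (1 - h) 1, ∃ θ : ℝ, pc r θ ∉ Ω) →
  ∀ G : ℂ → ℝ, ContDiff ℝ 1 G → HasCompactSupport G → tsupport G ⊆ Ω →
    ENNReal.ofReal κ ≤ ∫⁻ z in Ω, ENNReal.ofReal (gsq (fun z => Ph B lam m z - G z) z)

/-- ITEM Inv (conformal invariance).  `gsq (H ∘ F) w = |F'(w)|² gsq H (F w)` (chain rule, `F'(w)` acts as a multiplication: `d(H∘F)(h) = dH(F' h)`, and `dH(c)² + dH(ic)² = |c|² (dH(1)² + dH(i)²)`), then `IPC.cov`. -/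
def StInv : Prop := ∀ (Ω : Set ℂ) (f F : ℂ → ℂ) (a : ℕ → ℂ) (H : ℂ → ℝ), CMc Ω f F a → (∀ z ∈ Ω, DifferentiableAt ℝ H z) →
  (∫⁻ z in Ω, ENNReal.ofReal (gsq H z)) = ∫⁻ w in Metric.ball (0 : ℂ) 1, ENNReal.ofReal (gsq (fun w => H (F w)) w)

/-- ITEM Dil (dilation; uses StSm).  `U = Ph ∘ F`, `U_ρ(w) = U(ρw)`.  `gsq(U - U_ρ)(w) = |K(w) - ρ K(ρw)|²`, `K = k₀(F) F'`, `k₀(z) = w(|z|²) conj z` bounded by `K₀` and continuous.  `|K - ρK(ρ·)| ≤ 2 K₀ |F' - ρ F'(ρ·)| + |k₀(F) - k₀(F(ρ·))| |F'|`.  First term: `∫_D |F' - ρF'(ρ·)|² = π ∑ j |a_j|² (1 - ρ^j)² → 0` (`ρ → 1`,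
dominated by `∑ j|a_j|² < ∞`; Parseval on circles, `Dfc.pars` of `CD/Dfc.lean`, or polar coordinates).  Second term: dominated convergence with the bound `4 K₀² |F'|²`, `∫_D |F'|² = |Ω| < ∞`, along `ρ = 1 - 1/(n+2)`. -/
def StDil : Prop := ∀ (B lam : ℝ) (m : ℕ) (Ω : Set ℂ) (f F : ℂ → ℂ) (a : ℕ → ℂ), Sp B lam m → CMc Ω f F a → volume Ω ≠ ⊤ →
  ∀ δ : ℝ, 0 < δ → ∃ ρ : ℝ, 0 < ρ ∧ ρ < 1 ∧
    (∫⁻ w in Metric.ball (0 : ℂ) 1, ENNReal.ofReal (gsq (fun w => Ph B lam m (F w) - Ph B lam m (F (ρ * w))) w)) ≤ ENNReal.ofReal δ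

/-- ITEM Grn (Green's identity on the disc).  Both sides are real linear in `p`; `p = c X^n`: with `V(r,θ) = U₁(re^{iθ})`, `χ = Re(c w^n)`: `dU₁(conj p') = V_r χ_r + r^{-2} V_θ χ_θ` (`conj(p'(w))` is the gradient vector of `Re p`), polar coordinates; `∫_0^{2π} V_θ χ_θ dθ = -∫ V χ_{θθ} dθ = n² ∫ V χ dθ` (periodic), so the integral is
`∫_0^1 (n r^n ∫ V_r Re(c e^{inθ}) dθ + n² r^{n-1} ∫ V Re(c e^{inθ}) dθ) dr = ∫_0^1 d/dr (n r^n ∫ V Re(c e^{inθ}) dθ) dr`.  (Or the divergence theorem.) -/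
def StGrn : Prop := ∀ (U₁ : ℂ → ℝ) (R' : ℝ) (p : Polynomial ℂ), 1 < R' → ContDiffOn ℝ 2 U₁ (Metric.ball 0 R') →
  (∫ w in Metric.ball (0 : ℂ) 1, fderiv ℝ U₁ w ((starRingEnd ℂ) (p.derivative.eval w)))
    = ∫ θ in (0 : ℝ)..(2 * Real.pi), U₁ (pc 1 θ) * (pc 1 θ * p.derivative.eval (pc 1 θ)).re

/-- ITEM Fou (Fourier series of a `C²` function on the circle).  `V(θ) = U₁(e^{iθ})` is `C²` and periodic; `b_0 = (1/2π) ∫ V`, `b_n = (1/π) ∫ V e^{-inθ}`; two integrations by parts: `n² |b_n|` are (up to a factor) the Fourier coefficients of `V''`, square summable (Bessel), so `∑ n|b_n| < ∞` by Cauchy-Schwarz.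
The Fourier series converges to `V` (`hasSum_fourier_series_of_summable` in Mathlib on `AddCircle`, or the uniqueness of Fourier coefficients of continuous functions), real part: `V = Re ∑_{n≥0} b_n e^{inθ}`. -/
def StFou : Prop := ∀ (U₁ : ℂ → ℝ) (R' : ℝ), 1 < R' → ContDiffOn ℝ 2 U₁ (Metric.ball 0 R') → ∃ b : ℕ → ℂ,
  Summable (fun n : ℕ => (n : ℝ) * ‖b n‖) ∧
  (∀ θ : ℝ, HasSum (fun n : ℕ => (b n * pc 1 θ ^ n).re) (U₁ (pc 1 θ))) ∧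
  ∀ n : ℕ, 1 ≤ n → (∫ θ in (0 : ℝ)..(2 * Real.pi), (U₁ (pc 1 θ) : ℂ) * pc 1 θ ^ n) = Real.pi * (starRingEnd ℂ) (b n)

/-- ITEM Apx (projection; uses StGrn, StFou).  `p_M = ∑_{n ≤ M} b_n X^n`.  `NN p_M = π ∑_{n ≤ M} n |b_n|² = ∫ dU₁(conj p_M')` (StGrn and the last claim of StFou), so the hypothesis gives `NN p_M ≤ η²`.  `P_M = U₁ - Re p_M` on the disc: `∇U₁` minus its part: `∫ |∇Re p_M|² = NN p_M ≤ η²`;
on the circle `|P_M| ≤ δ_M = ∑_{n>M} |b_n| → 0`, and `|∇P_M| ≤ L` on the closed disc, `L = sup |∇U₁| + ∑ n |b_n|` independent of `M`.  Cut-off `χ_d` (`C¹`, radial, `1` for `|w| ≤ 1 - 2d`, `0` for `|w| ≥ 1 - d`, `|∇χ_d| ≤ 2/d`; e.g. `Real.smoothTransition` of an affine function of `|w|²`): `P = P_M χ_d` (extended by `0`),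
`‖∇(P_M - P)‖_2 ≤ (L + (δ_M + 2dL) C/d) (4πd)^{1/2}`; first choose `d` small, then `M` large.  `U₁ - P = Re p_M + (P_M - P)`; Minkowski. -/
def StApx : Prop := ∀ (U₁ : ℂ → ℝ) (R' η : ℝ), 1 < R' → 0 ≤ η → ContDiffOn ℝ 2 U₁ (Metric.ball 0 R') →
  (∀ p : Polynomial ℂ, (∫ w in Metric.ball (0 : ℂ) 1, fderiv ℝ U₁ w ((starRingEnd ℂ) (p.derivative.eval w))) ≤ η * Real.sqrt (NN p)) →
  ∀ δ : ℝ, 0 < δ → ∃ P : ℂ → ℝ, ContDiff ℝ 1 P ∧ HasCompactSupport P ∧ tsupport P ⊆ Metric.ball 0 1 ∧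
    (∫⁻ w in Metric.ball (0 : ℂ) 1, ENNReal.ofReal (gsq (fun w => U₁ w - P w) w)) ≤ ENNReal.ofReal ((η + δ) ^ 2)

/-- ITEM Prj (assembly; uses StSm, StDil, StApx, StInv).  `U = Ph ∘ F`; `-LL p = ∫_D dU(conj p')` (StSm: `dU(h) = -w(|F|²) Re(conj F F' h)`, `Re(conj F F' conj p') = Re(F conj F' p')`).  `ρ` from StDil with `δ₁²`; `U_ρ(w) = U(ρw)` is `C²` on `ball 0 (1/ρ)`; `|∫ (dU - dU_ρ)(conj p')| ≤ δ₁ √NN`, so StApx applies to `U_ρ` with `η + δ₁`: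
`P`.  `G = P ∘ f` on `Ω`, `0` elsewhere: `C¹` with compact support `F(tsupport P)` in `Ω` (`f` is continuous and holomorphic on `Ω`).  StInv: `∫_Ω gsq(Φ - G) = ∫_D gsq(U - P)`, Minkowski: `≤ (δ₁ + η + δ₁ + δ₂)²`. -/
def StPrj : Prop := ∀ (B lam η : ℝ) (m : ℕ) (Ω : Set ℂ) (f F : ℂ → ℂ) (a : ℕ → ℂ), Sp B lam m → CMc Ω f F a → volume Ω ≠ ⊤ → 0 ≤ η →
  (∀ p : Polynomial ℂ, -LL B lam m F p ≤ η * Real.sqrt (NN p)) →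
  ∀ δ : ℝ, 0 < δ → ∃ G : ℂ → ℝ, ContDiff ℝ 1 G ∧ HasCompactSupport G ∧ tsupport G ⊆ Ω ∧
    (∫⁻ z in Ω, ENNReal.ofReal (gsq (fun z => Ph B lam m z - G z) z)) ≤ ENNReal.ofReal ((η + δ) ^ 2)

/-- ITEM Low (assembly; uses StPrj, StSlit, StCirc).  `κ, ε` from StSlit for `h`; `η = √κ/2`.  If no `p` with `NN p ≤ 1`, `LL p ≥ η/2`... precisely: if `-LL p ≤ η √NN(p)` for all `p`, StPrj with `δ = √κ/4` contradicts StSlit (the circles meet the complement by StCirc).  So `-LL p > η √NN(p)` for some `p`; `NN p > 0` (else `p' = 0`, `LL p = 0`);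
replace `p` by `-p/√NN(p)` (`LL` is linear, `NN` quadratic). -/
def StLow : Prop := ∀ (B lam h : ℝ) (m : ℕ), Sp B lam m → 0 < h → h < 1 → ∃ η > (0 : ℝ), ∃ ε > (0 : ℝ), ∀ (Ω : Set ℂ) (f F : ℂ → ℂ) (a : ℕ → ℂ),
  CMc Ω f F a → IsSimplyConnected Ω → volume Ω ≠ ⊤ → volume (Metric.ball 0 1 \ Ω) ≤ ENNReal.ofReal ε → (∃ p₀ : ℂ, p₀ ∉ Ω ∧ ‖p₀‖ ≤ 1 - h) →
  ∃ p : Polynomial ℂ, NN p ≤ 1 ∧ η ≤ LL B lam m F p

/-- ITEM Gap (assembly; uses StV0, StEn, StLow; `pr_Ray`, `CD.pr_C1p`, `IC2.taylor` are proved).  `|D ∖ Ω| = |Ω ∖ D|` (equal areas).  Riemann map, `p` from StLow, `t = -η/K²`: `E - lam M ≤ ∫_Ω (edC v₀ - lam ‖v₀‖²) - η²/K²`, and `∫_Ω (..) = ∫_{Ω∖D} - ∫_{D∖Ω}` is at most `C ε` in absolute value (StV0), so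
`E - lam M ≤ -η²/(2K²)`; `M ≤ K² π`, and `M ≠ 0` because `E ≥ 0`: `pr_Ray` with `ℓ = lam - c`, `c = η²/(2 K⁴ π)`. -/
def StGap : Prop := ∀ (B lam h : ℝ) (m : ℕ), Sp B lam m → 0 < h → h < 1 → ∃ ε > (0 : ℝ), ∃ c > (0 : ℝ), ∀ Ω : Set ℂ, IsOpen Ω → IsSimplyConnected Ω →
  volume Ω = ENNReal.ofReal Real.pi → volume (Ω \ Metric.ball 0 1) ≤ ENNReal.ofReal ε → (∃ p₀ : ℂ, p₀ ∉ Ω ∧ ‖p₀‖ ≤ 1 - h) →
  lamN B (toR Ω) ≤ lam - c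

/-- ITEM MUL (assembly; uses StGap, CD.StMU, CD.StSp2).  `ε₁, c₁` from StMU; `h = min ε₁ (1/2)`.  If `ball 0 (1-h) ⊆ Ω`: StMU with `F₁(w) = (1-h) w`.  Otherwise StGap: `lamN ≤ lam - c₂ ≤ lamN B disc - c₂` (`Sp.lb`) and `dft 0 1 Ω ≤ volume (symmDiff) ≤ 2π`; equality is impossible.  `c = min c₁ (c₂/(2π))`. -/
def StMUL : Prop := ∀ B : ℝ, 0 < B → ∃ ε > (0 : ℝ), ∃ c > (0 : ℝ), ∀ Ω : Set ℂ, IsOpen Ω → IsSimplyConnected Ω →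
  volume Ω = ENNReal.ofReal Real.pi → volume (Ω \ Metric.ball 0 1) ≤ ENNReal.ofReal ε →
  ∃ q : ℂ, lamN B (toR Ω) ≤ lamN B disc - c * dft q 1 Ω ∧ (lamN B (toR Ω) = lamN B disc → Ω = Metric.ball q 1)

/-- ITEM FinL (uses StMUL; like `CD/I_Fin.lean`, with the centre `q₀` in `hom`). -/
def StFinL : Prop := ∀ B R : ℝ, 0 < B → 0 < R → ∃ ε > (0 : ℝ), ∃ c > (0 : ℝ), ∀ (Ω : Set (ℝ × ℝ)) (q₀ : ℝ × ℝ), IsOpen Ω →
  SimplyConnectedSpace Ω → volume Ω = volume (edisc 0 R) → volume (Ω \ edisc q₀ R) ≤ ENNReal.ofReal ε →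
  ∃ q : ℝ × ℝ, lamN B Ω ≤ lamN B (edisc 0 R)
      - c * ∫ x in symmDiff Ω (edisc q R), min |Real.sqrt ((x.1 - q.1) ^ 2 + (x.2 - q.2) ^ 2) - R| R ∧
    (lamN B Ω = lamN B (edisc 0 R) → Ω = edisc q R)

end Pool.Agent.MFK.L1
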